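import Pool.Agent.MP_c853c5_nt.REG.In

/-!
A faster checker: vectors are packed into single numbers.
-/

set_option autoImplicit false

open Finset

namespace Pool.Agent.MP_c853c5_nt.REG

open Pool.Agent.MP_c853c5_nt.E

/-- base of the packed vectors -/
def WW : ℕ := 1208925819614629174706176

def pack (k : ℕ) (f : ℕ → ℕ) : ℕ := ∑ j ∈ range k, f j * WW ^ j

lemma pack_succ (k : ℕ) (f : ℕ → ℕ) :
    pack (k + 1) f = f 0 + WW * pack k fun j => f (j + 1) := by
  rw [pack, sum_range_succ', pack, mul_sum, add_comm, pow_zero, mul_one]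
  congr 1
  exact sum_congr rfl fun j _ => by ring

lemma pack_lin (k y : ℕ) (f g : ℕ → ℕ) :
    pack k g + y * pack k f = pack k fun j => g j + y * f j := by
  rw [pack, pack, pack, mul_sum, ← sum_add_distrib]
  exact sum_congr rfl fun j _ => by ring

lemma pack_zero (k : ℕ) : pack k (fun _ => 0) = 0 := by simp [pack]

/-- evaluate `n` first -/
noncomputable def force (n : ℕ) (f : ℕ → Bool) : Bool := Nat.rec (f 0) (fun m _ => f m.succ) n

lemma force_eq (n : ℕ) (f : ℕ → Bool) : force n f = f n := by cases n <;> rfl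

/-- digits in base `64`, spread out -/
noncomputable def spr (k : ℕ) : ℕ → ℕ :=
  Nat.rec (fun _ => 0)
    (fun _ ih n => Nat.add (Nat.mod n 64) (Nat.mul WW (ih (Nat.div n 64)))) k

def dig (n j : ℕ) : ℕ := n / 64 ^ j % 64

lemma spr_eq (k n : ℕ) : spr k n = pack k (dig n) := by
  induction k generalizing n with
  | zero => simp [spr, pack]
  | succ k ih =>
    rw [pack_succ]
    change n % 64 + WW * spr k (n / 64) = _
    rw [ih]
    congr 2
    · simp [dig]
    · congr 1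
      funext j
      rw [dig, dig, Nat.div_div_eq_div_mul, pow_succ']

/-- a list, spread out -/
noncomputable def sprL (k : ℕ) : List ℕ → ℕ :=
  Nat.rec (fun _ => 0)
    (fun _ ih l => Nat.add (Nat.min (l.headD 0) 1024) (Nat.mul WW (ih l.tail))) k

lemma sprL_eq (k : ℕ) (l : List ℕ) : sprL k l = pack k fun j => min (l.getD j 0) 1024 := by
  induction k generalizing l with
  | zero => simp [sprL, pack]
  | succ k ih =>
    rw [pack_succ]
    change min (l.headD 0) 1024 + WW * sprL k l.tail = _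
    rw [ih, getD_zero']
    simp only [getD_succ']

noncomputable def dt {k : ℕ} (f : ℕ → ℕ) (b : Fin k → ℝ) : ℝ := ∑ j : Fin k, (f j : ℝ) * b j

lemma dt_lin {k : ℕ} (y : ℕ) (f g : ℕ → ℕ) (b : Fin k → ℝ) :
    dt (fun j => g j + y * f j) b = dt g b + y * dt f b := by
  unfold dt
  rw [mul_sum, ← sum_add_distrib]
  refine sum_congr rfl fun j _ => ?_
  push_cast
  ring

lemma dt_zero {k : ℕ} (b : Fin k → ℝ) : dt (fun _ => 0) b = 0 := by simp [dt]

/-- stack of branches -/
inductive HS where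
  | nil : HS
  | cons (κ c α β : ℕ) (t : HS) : HS

/-- stack of rows -/
inductive RS where
  | nil : RS
  | cons (c e : ℕ) (t : RS) : RS

def HS.ok {k : ℕ} (τ r : ℝ) (b v : Fin k → ℝ) : HS → Prop
  | .nil => True
  | .cons κ c α β t => (∃ f : ℕ → ℕ, κ = pack k f ∧ (∀ j, f j ≤ 64) ∧ c ≤ 504 ∧ β ≤ 504 ∧
      84 * r + c * dt f v ≤ α * τ + β * dt f b) ∧ t.ok τ r b v

/-- `s = 1` for upper rows, `s = -1` for lower rows -/
def RS.ok {k : ℕ} (s : ℝ) (b : Fin k → ℝ) : RS → Prop
  | .nil => True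
  | .cons c e t => (∃ f : ℕ → ℕ, c = pack k f ∧ (∀ j, f j ≤ 1024) ∧
      s * dt f b ≤ s * ((e : ℝ) / SC)) ∧ t.ok s b

/-- combination of the branches; the multipliers are the digits of `n` in base `W` -/
noncomputable def accH (W : ℕ) (F : ℕ → ℕ → ℕ → ℕ → Bool) (hs : HS) :
    ℕ → ℕ → ℕ → ℕ → ℕ → Bool :=
  HS.rec (fun _ Y C V B => F Y C V B)
    (fun κ c α β _ ih n Y C V B =>
      Nat.rec (F Y C V B) (fun m _ =>
        Nat.rec (ih (Nat.div m.succ W) Y C V B)
          (fun y _ => ih (Nat.div m.succ W) (Nat.add Y y.succ) (Nat.add C (Nat.mul y.succ α))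
            (Nat.add V (Nat.mul (Nat.mul y.succ c) κ)) (Nat.add B (Nat.mul (Nat.mul y.succ β) κ)))
          (Nat.mod m.succ W)) n) hs

def AccOK {k : ℕ} (τ r : ℝ) (b v : Fin k → ℝ) (Y C V B : ℕ) : Prop :=
  ∃ f g : ℕ → ℕ, V = pack k f ∧ B = pack k g ∧ (∀ j, f j ≤ 32256 * Y) ∧ (∀ j, g j ≤ 32256 * Y) ∧
    84 * Y * r + dt f v ≤ C * τ + dt g b

lemma accH_ok {k W : ℕ} {τ r : ℝ} {b v : Fin k → ℝ} {F : ℕ → ℕ → ℕ → ℕ → Bool} (hs : HS)
    (h : hs.ok τ r b v) (n Y C V B : ℕ) (ha : AccOK τ r b v Y C V B)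
    (hc : accH W F hs n Y C V B = true) :
    ∃ Y C V B, AccOK τ r b v Y C V B ∧ F Y C V B = true := by
  induction hs generalizing n Y C V B with
  | nil => exact ⟨Y, C, V, B, ha, hc⟩
  | cons κ c α β t ih =>
    obtain ⟨⟨f, h1, h2, h3, h4, h5⟩, ht⟩ := h
    cases n with
    | zero => exact ⟨Y, C, V, B, ha, hc⟩
    | succ m =>
      change (Nat.rec (accH W F t (Nat.div m.succ W) Y C V B)
        (fun y _ => accH W F t (Nat.div m.succ W) (Y + (y + 1)) (C + (y + 1) * α)
          (V + (y + 1) * c * κ) (B + (y + 1) * β * κ)) (Nat.mod m.succ W) : Bool) = true at hc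
      generalize Nat.mod m.succ W = y at hc
      cases y with
      | zero => exact ih ht _ _ _ _ _ ha hc
      | succ y =>
        refine ih ht _ _ _ _ _ ?_ hc
        obtain ⟨p, q, g1, g2, g3, g4, g5⟩ := ha
        have bd : ∀ (u : ℕ), u ≤ 504 → ∀ j, (y + 1) * u * f j ≤ 32256 * (y + 1) := fun u hu j =>
          (Nat.mul_le_mul (Nat.mul_le_mul_left _ hu) (h2 j)).trans (by omega)
        refine ⟨_, _, by rw [g1, h1, pack_lin], by rw [g2, h1, pack_lin],
          fun j => ?_, fun j => ?_, ?_⟩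
        · have := g3 j
          have := bd c h3 j
          omega
        · have := g4 j
          have := bd β h4 j
          omega
        · have hx := mul_le_mul_of_nonneg_left h5 (show (0 : ℝ) ≤ (y : ℝ) + 1 by positivity)
          rw [dt_lin, dt_lin]
          push_cast
          linarith

/-- combination of the rows -/
noncomputable def accR (W : ℕ) (F : ℕ → ℕ → ℕ → Bool) (rs : RS) : ℕ → ℕ → ℕ → ℕ → Bool :=
  RS.rec (fun _ S Z E => F S Z E)
    (fun c e _ ih n S Z E =>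
      Nat.rec (F S Z E) (fun m _ =>
        Nat.rec (ih (Nat.div m.succ W) S Z E)
          (fun z _ => ih (Nat.div m.succ W) (Nat.add S z.succ) (Nat.add Z (Nat.mul z.succ c))
            (Nat.add E (Nat.mul z.succ e)))
          (Nat.mod m.succ W)) n) rs

def RowOK {k : ℕ} (s : ℝ) (b : Fin k → ℝ) (S Z E : ℕ) : Prop :=
  ∃ f : ℕ → ℕ, Z = pack k f ∧ (∀ j, f j ≤ 1024 * S) ∧ s * dt f b ≤ s * ((E : ℝ) / SC)

lemma accR_ok {k W : ℕ} {s : ℝ} {b : Fin k → ℝ} {F : ℕ → ℕ → ℕ → Bool} (rs : RS)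
    (h : rs.ok s b) (n S Z E : ℕ) (ha : RowOK s b S Z E) (hc : accR W F rs n S Z E = true) :
    ∃ S Z E, RowOK s b S Z E ∧ F S Z E = true := by
  induction rs generalizing n S Z E with
  | nil => exact ⟨S, Z, E, ha, hc⟩
  | cons c e t ih =>
    obtain ⟨⟨f, h1, h2, h3⟩, ht⟩ := h
    cases n with
    | zero => exact ⟨S, Z, E, ha, hc⟩
    | succ m =>
      change (Nat.rec (accR W F t (Nat.div m.succ W) S Z E)
        (fun z _ => accR W F t (Nat.div m.succ W) (S + (z + 1)) (Z + (z + 1) * c)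
          (E + (z + 1) * e)) (Nat.mod m.succ W) : Bool) = true at hc
      generalize Nat.mod m.succ W = z at hc
      cases z with
      | zero => exact ih ht _ _ _ _ ha hc
      | succ z =>
        refine ih ht _ _ _ _ ?_ hc
        obtain ⟨p, g1, g2, g3⟩ := ha
        refine ⟨_, by rw [g1, h1, pack_lin], fun j => ?_, ?_⟩
        · have := g2 j
          have := Nat.mul_le_mul_left (z + 1) (h2 j)
          omega
        · have hx := mul_le_mul_of_nonneg_left h3 (show (0 : ℝ) ≤ (z : ℝ) + 1 by positivity)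
          rw [dt_lin]
          push_cast
          rw [add_div, mul_div_assoc]
          linarith

/-- comparison of digits -/
noncomputable def cmpP (k : ℕ) : ℕ → ℕ → Bool :=
  Nat.rec (fun _ _ => true)
    (fun _ ih A D => Bool.rec false (ih (Nat.div A WW) (Nat.div D WW))
      (Nat.ble (Nat.mod A WW) (Nat.mod D WW))) k

lemma cmpP_ok (k : ℕ) (f g : ℕ → ℕ) (hf : ∀ j, f j < WW) (hg : ∀ j, g j < WW)
    (h : cmpP k (pack k f) (pack k g) = true) (j : ℕ) (hj : j < k) : f j ≤ g j := by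
  induction k generalizing f g j with
  | zero => omega
  | succ k ih =>
    have hW : 0 < WW := by norm_num [WW]
    change (Bool.rec false (cmpP k (pack (k + 1) f / WW) (pack (k + 1) g / WW))
      (Nat.ble (pack (k + 1) f % WW) (pack (k + 1) g % WW)) : Bool) = true at h
    rw [pack_succ, pack_succ, Nat.add_mul_div_left _ _ hW, Nat.add_mul_div_left _ _ hW,
      Nat.add_mul_mod_self_left, Nat.add_mul_mod_self_left, Nat.div_eq_of_lt (hf 0),
      Nat.div_eq_of_lt (hg 0), Nat.mod_eq_of_lt (hf 0), Nat.mod_eq_of_lt (hg 0), zero_add,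
      zero_add] at h
    cases h0 : Nat.ble (f 0) (g 0) with
    | false => rw [h0] at h; exact absurd h (by simp)
    | true =>
      rw [h0] at h
      cases j with
      | zero => exact Nat.le_of_ble_eq_true h0
      | succ j => exact ih _ _ (fun j => hf _) (fun j => hg _) h j (by omega)

/-- the final test; `q` is the packed constant vector -/
noncomputable def fin (k tn e q Y C V B S Z E S' U E' : ℕ) : Bool :=
  Nat.ble (Nat.add (Nat.add Y S) S') 4611686018427387904 &&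
    (Nat.ble (Nat.add (Nat.mul tn (Nat.add (Nat.mul 20000 C)
        (Nat.mul 2 (Nat.sub (Nat.mul (Nat.add 10000 e) QQ) (Nat.mul 840000 Y)))))
        (Nat.mul 10000 E))
      (Nat.add (Nat.mul (Nat.mul (Nat.add 9998 (Nat.mul 2 e)) QQ) SC) (Nat.mul 10000 E')) &&
    (cmpP k V q && cmpP k (Nat.add (Nat.add q (Nat.mul 2 B)) U) (Nat.add V Z)))

lemma fin_ok {k tn e Y C V B S Z E S' U E' : ℕ} {r : ℝ} {b v : Fin k → ℝ}
    (h : fin k tn e (pack k fun _ => QQ) Y C V B S Z E S' U E' = true)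
    (ha : AccOK ((tn : ℝ) / SC) r b v Y C V B) (hz : RowOK 1 b S Z E) (hu : RowOK (-1) b S' U E')
    (hb : ∀ j, 0 ≤ b j) (hr : 0 ≤ r) (hr' : r ≤ (tn : ℝ) / SC) (hv : ∀ j, v j ≤ b j / 2) :
    (1 + (e : ℝ) / 10000) * r + ∑ j, v j ≤ 1 / 2 - (1 - (e : ℝ)) / 10000 := by
  simp only [fin, Bool.and_eq_true, Nat.ble_eq, Nat.add_eq, Nat.mul_eq, Nat.sub_eq] at h
  obtain ⟨h0, h2, h3, h4⟩ := h
  obtain ⟨f, g, rfl, rfl, f1, g1, ha⟩ := ha
  obtain ⟨z, rfl, z1, hz⟩ := hz
  obtain ⟨u, rfl, u1, hu⟩ := hu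
  have hW : WW = 1208925819614629174706176 := rfl
  have hQ' : QQ = 840000000 := rfl
  rw [pack_lin, ← one_mul (pack k u), pack_lin, ← one_mul (pack k z), pack_lin] at h4
  have c1 := cmpP_ok k _ _ (fun j => by have := f1 j; omega) (fun j => by omega) h3
  have c2 := cmpP_ok k _ _ (fun j => by have := g1 j; have := u1 j; omega)
    (fun j => by have := f1 j; have := z1 j; omega) h4
  have s1 : 2 * (QQ : ℝ) * ∑ j, v j + 2 * dt g b + dt u b ≤ 2 * dt f v + dt z b := by
    unfold dt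
    rw [mul_sum, mul_sum, mul_sum, ← sum_add_distrib, ← sum_add_distrib, ← sum_add_distrib]
    refine sum_le_sum fun j _ => ?_
    have g1' : (f j : ℝ) ≤ QQ := by exact_mod_cast c1 j j.2
    have g2' : (QQ : ℝ) + 2 * g j + 1 * u j ≤ f j + 1 * z j := by exact_mod_cast c2 j j.2
    have := mul_le_mul_of_nonneg_left (hv j) (sub_nonneg.2 g1')
    have := mul_le_mul_of_nonneg_right g2' (hb j)
    linarith
  set m : ℕ := (10000 + e) * QQ - 840000 * Y with hm
  have s2 : ((10000 + e) * QQ : ℝ) ≤ m + 840000 * Y := by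
    have : (10000 + e) * QQ ≤ m + 840000 * Y := by omega
    exact_mod_cast this
  have s3 : (tn : ℝ) * (20000 * C + 2 * m) + 10000 * E ≤
      (9998 + 2 * e) * QQ * SC + 10000 * E' := by
    exact_mod_cast h2
  have s4 : (tn : ℝ) / SC * (20000 * C + 2 * m) + 10000 * ((E : ℝ) / SC) ≤
      (9998 + 2 * e) * QQ + 10000 * ((E' : ℝ) / SC) := by
    have := div_le_div_of_nonneg_right s3 SC_pos.le
    rw [add_div, add_div, mul_div_cancel_right₀ _ SC_pos.ne'] at this
    calc _ = (tn : ℝ) * (20000 * C + 2 * m) / SC + 10000 * E / SC := by ring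
      _ ≤ _ := this
      _ = _ := by ring
  have s5 := mul_le_mul_of_nonneg_right s2 hr
  have s6 := mul_le_mul_of_nonneg_left hr' (Nat.cast_nonneg (α := ℝ) m)
  have hQ : (QQ : ℝ) = 840000000 := by norm_num [QQ]
  rw [hQ] at s1 s4 s5
  linarith

/-- branch tree -/
inductive CT where
  | lf (W W' a b c : ℕ) : CT
  | mv (κ : ℕ) (c1 c2 : CT) : CT
  | hx (κ : ℕ) (c1 c2 : CT) : CT
  | gm (κ : ℕ) (c1 c2 c3 : CT) : CT
  | rf (κ : ℕ) (c1 c2 c3 : CT) : CT
  | sq (κ : ℕ) (c1 c2 c3 : CT) : CT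

noncomputable def chkF (k tn e q : ℕ) (c : CT) : HS → RS → RS → Bool :=
  CT.rec
    (fun W W' a b c hs P R => accH W (fun Y C V B => accR W' (fun S Z E => accR W'
      (fun S' U E' => force V fun V => fin k tn e q Y C V B S Z E S' U E') R c 0 0 0) P b 0 0 0)
      hs a 0 0 0 0)
    (fun κ _ _ i1 i2 hs P R => force (spr k κ) fun κ =>
      i1 (.cons κ 168 0 84 hs) P (.cons κ tn R) && i2 (.cons κ 168 84 0 hs) (.cons κ tn P) R)
    (fun κ _ _ i1 i2 hs P R => force (spr k κ) fun κ =>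
      i1 (.cons κ 168 0 84 hs) P R && i2 (.cons κ 504 84 84 hs) P R)
    (fun κ _ _ _ i1 i2 i3 hs P R => force (spr k κ) fun κ =>
      i1 (.cons κ 168 0 84 hs) P R && (i2 (.cons κ 336 42 84 hs) P R &&
        i3 (.cons κ 336 84 32 hs) P R))
    (fun κ _ _ _ i1 i2 i3 hs P R => force (spr k κ) fun κ =>
      i1 (.cons κ 168 0 84 hs) P R && (i2 (.cons κ 336 12 144 hs) P R &&
        i3 (.cons κ 336 84 0 hs) P R))
    (fun κ _ _ _ i1 i2 i3 hs P R => force (spr k κ) fun κ =>
      i1 (.cons κ 336 0 168 hs) P R && (i2 (.cons κ 504 63 84 hs) P R &&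
        i3 (.cons κ 504 84 0 hs) P R))
    c

lemma chkF_mv (k tn e q n : ℕ) (c1 c2 : CT) (hs : HS) (P R : RS) :
    chkF k tn e q (.mv n c1 c2) hs P R =
      (chkF k tn e q c1 (.cons (spr k n) 168 0 84 hs) P (.cons (spr k n) tn R) &&
        chkF k tn e q c2 (.cons (spr k n) 168 84 0 hs) (.cons (spr k n) tn P) R) :=
  force_eq (spr k n) fun κ => chkF k tn e q c1 (.cons κ 168 0 84 hs) P (.cons κ tn R) &&
    chkF k tn e q c2 (.cons κ 168 84 0 hs) (.cons κ tn P) R

lemma chkF_hx (k tn e q n : ℕ) (c1 c2 : CT) (hs : HS) (P R : RS) :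
    chkF k tn e q (.hx n c1 c2) hs P R =
      (chkF k tn e q c1 (.cons (spr k n) 168 0 84 hs) P R &&
        chkF k tn e q c2 (.cons (spr k n) 504 84 84 hs) P R) :=
  force_eq (spr k n) fun κ => chkF k tn e q c1 (.cons κ 168 0 84 hs) P R &&
    chkF k tn e q c2 (.cons κ 504 84 84 hs) P R

lemma chkF_gm (k tn e q n : ℕ) (c1 c2 c3 : CT) (hs : HS) (P R : RS) :
    chkF k tn e q (.gm n c1 c2 c3) hs P R =
      (chkF k tn e q c1 (.cons (spr k n) 168 0 84 hs) P R &&
        (chkF k tn e q c2 (.cons (spr k n) 336 42 84 hs) P R &&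
          chkF k tn e q c3 (.cons (spr k n) 336 84 32 hs) P R)) :=
  force_eq (spr k n) fun κ => chkF k tn e q c1 (.cons κ 168 0 84 hs) P R &&
    (chkF k tn e q c2 (.cons κ 336 42 84 hs) P R && chkF k tn e q c3 (.cons κ 336 84 32 hs) P R)

lemma chkF_rf (k tn e q n : ℕ) (c1 c2 c3 : CT) (hs : HS) (P R : RS) :
    chkF k tn e q (.rf n c1 c2 c3) hs P R =
      (chkF k tn e q c1 (.cons (spr k n) 168 0 84 hs) P R &&
        (chkF k tn e q c2 (.cons (spr k n) 336 12 144 hs) P R &&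
          chkF k tn e q c3 (.cons (spr k n) 336 84 0 hs) P R)) :=
  force_eq (spr k n) fun κ => chkF k tn e q c1 (.cons κ 168 0 84 hs) P R &&
    (chkF k tn e q c2 (.cons κ 336 12 144 hs) P R && chkF k tn e q c3 (.cons κ 336 84 0 hs) P R)

lemma chkF_sq (k tn e q n : ℕ) (c1 c2 c3 : CT) (hs : HS) (P R : RS) :
    chkF k tn e q (.sq n c1 c2 c3) hs P R =
      (chkF k tn e q c1 (.cons (spr k n) 336 0 168 hs) P R &&
        (chkF k tn e q c2 (.cons (spr k n) 504 63 84 hs) P R &&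
          chkF k tn e q c3 (.cons (spr k n) 504 84 0 hs) P R)) :=
  force_eq (spr k n) fun κ => chkF k tn e q c1 (.cons κ 336 0 168 hs) P R &&
    (chkF k tn e q c2 (.cons κ 504 63 84 hs) P R && chkF k tn e q c3 (.cons κ 504 84 0 hs) P R)

lemma chkF_ok {k tn e : ℕ} {r : ℝ} {b v : Fin k → ℝ} (hb : ∀ j, 0 ≤ b j) (hr : 0 ≤ r)
    (hr' : r ≤ (tn : ℝ) / SC) (hv : ∀ j, v j ≤ b j / 2)
    (hc : ∀ n : ℕ, Con ((tn : ℝ) / SC) (dt (dig n) b) (dt (dig n) v) r) (c : CT) :
    ∀ (hs : HS) (P R : RS), chkF k tn e (pack k fun _ => QQ) c hs P R = true →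
      hs.ok ((tn : ℝ) / SC) r b v → P.ok 1 b → R.ok (-1) b →
      (1 + (e : ℝ) / 10000) * r + ∑ j, v j ≤ 1 / 2 - (1 - (e : ℝ)) / 10000 := by
  have hd : ∀ n j, dig n j ≤ 64 := fun n j => (Nat.mod_lt _ (by norm_num)).le
  have hd' : ∀ n j, dig n j ≤ 1024 := fun n j => (hd n j).trans (by norm_num)
  have mk : ∀ (n c α β : ℕ) (hs : HS), c ≤ 504 → β ≤ 504 → hs.ok ((tn : ℝ) / SC) r b v →
      84 * r + c * dt (dig n) v ≤ α * ((tn : ℝ) / SC) + β * dt (dig n) b →
      (HS.cons (spr k n) c α β hs).ok ((tn : ℝ) / SC) r b v :=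
    fun n c α β hs h1 h2 h3 h4 => ⟨⟨dig n, spr_eq k n, hd n, h1, h2, h4⟩, h3⟩
  induction c with
  | lf W W' a b' c =>
    intro hs P R h hh hP hR
    obtain ⟨Y, C, V, B, g1, h⟩ := accH_ok hs hh a 0 0 0 0
      ⟨fun _ => 0, fun _ => 0, (pack_zero k).symm, (pack_zero k).symm, by simp, by simp,
        by simp [dt_zero]⟩ h
    obtain ⟨S, Z, E, g2, h⟩ := accR_ok P hP b' 0 0 0
      ⟨fun _ => 0, (pack_zero k).symm, by simp, by simp [dt_zero]⟩ h
    obtain ⟨S', U, E', g3, h⟩ := accR_ok R hR c 0 0 0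
      ⟨fun _ => 0, (pack_zero k).symm, by simp, by simp [dt_zero]⟩ h
    rw [force_eq] at h
    exact fin_ok h g1 g2 g3 hb hr hr' hv
  | mv n c1 c2 i1 i2 =>
    intro hs P R h hh hP hR
    rw [chkF_mv] at h
    obtain ⟨g1, g2⟩ := Bool.and_eq_true_iff.1 h
    have h1 := (hc n).1
    rcases le_total ((tn : ℝ) / SC) (dt (dig n) b) with g | g
    · rw [max_eq_right g] at h1
      exact i1 _ _ _ g1 (mk n _ _ _ hs (by norm_num) (by norm_num) hh (by push_cast; linarith))
        hP ⟨⟨dig n, spr_eq k n, hd' n, by linarith⟩, hR⟩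
    · rw [max_eq_left g] at h1
      exact i2 _ _ _ g2 (mk n _ _ _ hs (by norm_num) (by norm_num) hh (by push_cast; linarith))
        ⟨⟨dig n, spr_eq k n, hd' n, by linarith⟩, hP⟩ hR
  | hx n c1 c2 i1 i2 =>
    intro hs P R h hh hP hR
    rw [chkF_hx] at h
    obtain ⟨g1, g2⟩ := Bool.and_eq_true_iff.1 h
    rcases le_max_iff.1 (hc n).2.1 with g | g
    · exact i1 _ _ _ g1 (mk n _ _ _ hs (by norm_num) (by norm_num) hh (by push_cast; linarith))
        hP hR
    · exact i2 _ _ _ g2 (mk n _ _ _ hs (by norm_num) (by norm_num) hh (by push_cast; linarith))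
        hP hR
  | gm n c1 c2 c3 i1 i2 i3 =>
    intro hs P R h hh hP hR
    rw [chkF_gm] at h
    obtain ⟨g1, g2⟩ := Bool.and_eq_true_iff.1 h
    obtain ⟨g2, g3⟩ := Bool.and_eq_true_iff.1 g2
    rcases le_max_iff.1 (hc n).2.2.1 with g | g
    · exact i1 _ _ _ g1 (mk n _ _ _ hs (by norm_num) (by norm_num) hh (by push_cast; linarith))
        hP hR
    rcases le_max_iff.1 g with g | g
    · exact i2 _ _ _ g2 (mk n _ _ _ hs (by norm_num) (by norm_num) hh (by push_cast; linarith))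
        hP hR
    · exact i3 _ _ _ g3 (mk n _ _ _ hs (by norm_num) (by norm_num) hh (by push_cast; linarith))
        hP hR
  | rf n c1 c2 c3 i1 i2 i3 =>
    intro hs P R h hh hP hR
    rw [chkF_rf] at h
    obtain ⟨g1, g2⟩ := Bool.and_eq_true_iff.1 h
    obtain ⟨g2, g3⟩ := Bool.and_eq_true_iff.1 g2
    rcases le_max_iff.1 (hc n).2.2.2.1 with g | g
    · exact i1 _ _ _ g1 (mk n _ _ _ hs (by norm_num) (by norm_num) hh (by push_cast; linarith))
        hP hR
    rcases le_total ((tn : ℝ) / SC / 2) (dt (dig n) b) with g' | g'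
    · rw [max_eq_left g'] at g
      exact i2 _ _ _ g2 (mk n _ _ _ hs (by norm_num) (by norm_num) hh (by push_cast; linarith))
        hP hR
    · rw [max_eq_right g'] at g
      exact i3 _ _ _ g3 (mk n _ _ _ hs (by norm_num) (by norm_num) hh (by push_cast; linarith))
        hP hR
  | sq n c1 c2 c3 i1 i2 i3 =>
    intro hs P R h hh hP hR
    rw [chkF_sq] at h
    obtain ⟨g1, g2⟩ := Bool.and_eq_true_iff.1 h
    obtain ⟨g2, g3⟩ := Bool.and_eq_true_iff.1 g2
    rcases le_max_iff.1 (hc n).2.2.2.2 with g | g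
    · exact i1 _ _ _ g1 (mk n _ _ _ hs (by norm_num) (by norm_num) hh (by push_cast; linarith))
        hP hR
    rcases le_max_iff.1 g with g | g
    · exact i2 _ _ _ g2 (mk n _ _ _ hs (by norm_num) (by norm_num) hh (by push_cast; linarith))
        hP hR
    · exact i3 _ _ _ g3 (mk n _ _ _ hs (by norm_num) (by norm_num) hh (by push_cast; linarith))
        hP hR

/-- pack the rows, then continue -/
noncomputable def withR (k : ℕ) (P : Poly) : (RS → Bool) → Bool :=
  List.rec (fun F => F .nil)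
    (fun x _ ih F => (x.1.all fun c => Nat.ble c 1024) &&
      force (sprL k x.1) fun c => ih fun t => F (.cons c x.2 t)) P

lemma withR_ok {k : ℕ} {s : ℝ} {b : Fin k → ℝ} (P : Poly) (F : RS → Bool)
    (hP : ∀ x ∈ P, s * dot x.1 b ≤ s * ((x.2 : ℝ) / SC)) (h : withR k P F = true) :
    ∃ t : RS, t.ok s b ∧ F t = true := by
  induction P generalizing F with
  | nil => exact ⟨.nil, trivial, h⟩
  | cons x P ih =>
    obtain ⟨g1, g2⟩ := Bool.and_eq_true_iff.1 h
    rw [force_eq] at g2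
    obtain ⟨t, h1, h2⟩ := ih _ (fun y hy => hP y (List.mem_cons_of_mem _ hy)) g2
    refine ⟨.cons (sprL k x.1) x.2 t, ⟨⟨_, sprL_eq k x.1, fun j => min_le_right _ _, ?_⟩, h1⟩, h2⟩
    have : ∀ j, min (x.1.getD j 0) 1024 = x.1.getD j 0 := fun j => by
      refine min_eq_left ?_
      rcases lt_or_ge j x.1.length with hj | hj
      · rw [List.getD_eq_getElem _ _ hj]
        exact Nat.le_of_ble_eq_true (List.all_eq_true.1 g1 _ (List.getElem_mem hj))
      · rw [List.getD_eq_default _ _ hj]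
        omega
    simp only [this]
    exact hP x List.mem_cons_self

noncomputable def chkE (tn : ℕ) (x : PE) (c : CT) : Bool :=
  force (QQ * sprL x.k (List.replicate x.k 1)) fun q =>
    withR x.k x.P fun P => withR x.k x.R fun R => chkF x.k tn x.e q c .nil P R

theorem chkE_ok {tn : ℕ} {x : PE} {c : CT} (h : chkE tn x c = true) : x.Good tn := by
  intro b hb hP hR r v hr hr' hv hc
  have e : QQ * sprL x.k (List.replicate x.k 1) = pack x.k fun _ => QQ := by
    rw [sprL_eq, pack, pack, mul_sum]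
    refine sum_congr rfl fun j hj => ?_
    rw [List.getD_eq_getElem _ _ (by simpa using hj)]
    simp
  rw [chkE, force_eq, e] at h
  obtain ⟨P, h1, h⟩ := withR_ok (s := 1) (b := b) _ _ (fun y hy => by linarith [hP y hy]) h
  obtain ⟨R, h2, h⟩ := withR_ok (s := -1) (b := b) _ _ (fun y hy => by linarith [hR y hy]) h
  exact chkF_ok hb hr hr' hv
    (fun n => hc (fun j => dig n j) fun j => (Nat.mod_lt _ (by norm_num)).le) c _ _ _ h trivial
    h1 h2

noncomputable def allE (tn : ℕ) (l : List PE) : List CT → Bool :=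
  List.rec (fun _ => true)
    (fun x _ ih cs => List.rec false (fun c cs _ => chkE tn x c && ih cs) cs) l

theorem allE_ok {tn : ℕ} (l : List PE) (cs : List CT) (h : allE tn l cs = true) :
    ∀ x ∈ l, x.Good tn := by
  induction l generalizing cs with
  | nil => simp
  | cons x l ih =>
    cases cs with
    | nil => exact absurd h (by simp [allE])
    | cons c cs =>
      obtain ⟨g1, g2⟩ := Bool.and_eq_true_iff.1 h
      exact List.forall_mem_cons.2 ⟨chkE_ok g1, ih cs g2⟩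

end Pool.Agent.MP_c853c5_nt.REG
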