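import Pool.Agent.MP_c853c5_nt.S.Basic

/-!
The window lemma: two long factors of nearly equal size and one short factor.
-/

set_option autoImplicit false

open Finset

namespace Pool.Agent.MP_c853c5_nt.REG

open Pool.Agent.MP_c853c5_nt.E

lemma av_tau {τ τ' : ℝ} (hτ : τ ≤ τ') (a : ℝ) : av τ a ≤ av τ' a :=
  max_le_max le_rfl (min_le_min le_rfl (by linarith))

lemma win_core {τ s η a p r d0 d1 d2 H : ℝ} (hτ2 : τ ≤ 1 / 2) (hp0 : 0 < p) (hp1 : p ≤ 1 / 10)
    (hs : 0 < s) (ha : τ - p / 2 + s ≤ a) (hη : η ≤ p / 2) (hη' : η ≤ s / 2) (hr : 0 ≤ r)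
    (hrτ : r ≤ τ) (hd : 0 ≤ d2) (hH : 3 ≤ H) (hH1 : (H - 1) * p ≤ τ)
    (M0 : r ≤ max τ a - a + 2 * d0) (H0 : r ≤ max (2 * d0) (τ - 2 * a + 6 * d0))
    (M1 : r ≤ 2 * d1) (F1 : r ≤ 2 * (H * d2)) (F2 : r ≤ τ - (H - 1) * p + 2 * ((H - 1) * d2)) :
    (1 + η) * r ≤ d0 + d1 + d2 := by
  have A : r ≤ 2 * d0 → (1 + η) * r ≤ d0 + d1 + d2 := by
    intro h
    have h1 : p * r ≤ 2 * d2 := by
      have h2 : H * p ≤ 1 := by linarith
      have h3 : p * r ≤ p * (2 * (H * d2)) := mul_le_mul_of_nonneg_left F1 hp0.le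
      nlinarith
    nlinarith
  rcases le_max_iff.1 H0 with h | h
  · exact A h
  rcases le_total a τ with haτ | haτ
  swap
  · rw [max_eq_right haτ] at M0
    exact A (by linarith)
  rw [max_eq_left haτ] at M0
  have key : r / 2 - d0 + s / 4 ≤ d2 := by
    by_contra hc
    push Not at hc
    have e1 : 0 ≤ (τ - a) / 2 - (r / 2 - d0) := by linarith
    have e2 : 0 ≤ p / 4 - s / 2 - (τ - a) / 2 := by linarith
    have e3 : 0 < r / 2 - d0 + s / 4 - d2 := by linarith
    rcases le_total ((H - 1 / 2) * p) τ with hb | hb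
    · have := mul_nonneg (show 0 ≤ 2 * H - 3 by linarith) e1
      have := mul_nonneg (show 0 ≤ 2 * H - 1 by linarith) e2
      have := mul_pos (show 0 < 2 * H by linarith) e3
      have := mul_nonneg (show 0 ≤ H - 1 by linarith) hs.le
      nlinarith
    · have := mul_nonneg (show 0 ≤ 2 * H - 5 by linarith) e1
      have := mul_nonneg (show 0 ≤ 2 * H - 3 by linarith) e2
      have := mul_pos (show 0 < 2 * H - 2 by linarith) e3
      have := mul_nonneg (show 0 ≤ H - 2 by linarith) hs.le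
      nlinarith
  nlinarith

/-- the window lemma -/
theorem window {K : ℕ} {τ κ s η a0 a1 p : ℝ} (hτ : 1 / 3 ≤ τ) (hτ2 : τ ≤ 1 / 2) (hκ : 0 < κ)
    (hp : κ ≤ p) (hp1 : p ≤ 1 / 10) (hw : p ≤ 1 - 2 * τ) (hs : 0 < s) (hsum : a0 + a1 + p = 1)
    (h0 : τ - p / 2 + s ≤ a0) (h1 : τ - p / 2 + s ≤ a1) (hK : 1 / κ ≤ K) (hη : η ≤ κ / 2)
    (hη' : η ≤ s / 2) : S.Eval τ η K ![a0, a1, p] (1 / 2) := by
  intro r v hr hrτ hv hc
  have hp0 : 0 < p := hκ.trans_le hp
  set h : ℕ := ⌈τ / p⌉₊ with hh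
  have b1 : τ ≤ h * p := (div_le_iff₀ hp0).1 (Nat.le_ceil _)
  have b2 : (h - 1) * p ≤ τ := by
    have := Nat.ceil_lt_add_one (show 0 ≤ τ / p by positivity)
    rw [← hh] at this
    have : (h : ℝ) - 1 ≤ τ / p := by linarith
    exact (le_div_iff₀ hp0).1 this
  have b3 : (3 : ℝ) ≤ h := by nlinarith
  have b4 : (h : ℝ) ≤ K := by
    have : 1 ≤ K * κ := (div_le_iff₀ hκ).1 hK
    have : (0 : ℝ) ≤ K := Nat.cast_nonneg _
    nlinarith
  have b5 : h ≤ K := by exact_mod_cast b4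
  have b6 : 3 ≤ h := by exact_mod_cast b3
  have c0 := hc ![1, 0, 0] (by intro j; fin_cases j <;> simp <;> omega)
  have c1 := hc ![0, 1, 0] (by intro j; fin_cases j <;> simp <;> omega)
  have c2 := hc ![0, 0, h] (by intro j; fin_cases j <;> simp <;> omega)
  have c3 := hc ![0, 0, h - 1] (by intro j; fin_cases j <;> simp <;> omega)
  have v2 := hv 2
  have hcast : ((h - 1 : ℕ) : ℝ) = h - 1 := by
    rw [Nat.cast_sub (by omega)]; simp
  simp only [Fin.sum_univ_three, Matrix.cons_val_zero, Matrix.cons_val_one, Matrix.cons_val,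
    Nat.cast_one, Nat.cast_zero, one_mul, zero_mul, add_zero, zero_add, hcast] at c0 c1 c2 c3 v2 ⊢
  have F1 : r ≤ 2 * (h * (p / 2 - v 2)) := by
    have := c2.1
    rw [max_eq_right b1] at this
    linarith
  have F2 : r ≤ τ - (h - 1) * p + 2 * ((h - 1) * (p / 2 - v 2)) := by
    have := c3.1
    rw [max_eq_left b2] at this
    linarith
  have hux : ∀ a w : ℝ, Con τ a w r → r ≤ max (2 * (a / 2 - w)) (τ - 2 * a + 6 * (a / 2 - w)) :=
    fun a w hw => hw.2.1.trans (max_le_max (by linarith) (by linarith))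
  rcases le_total a0 a1 with hle | hle
  · have M1 : r ≤ 2 * (a1 / 2 - v 1) := by
      have := c1.1
      rw [max_eq_right (by linarith)] at this
      linarith
    have := win_core hτ2 hp0 hp1 hs h0 (by linarith) hη' hr hrτ (by linarith) b3 b2
      (d0 := a0 / 2 - v 0) (by linarith [c0.1]) (hux _ _ c0) M1 F1 F2
    linarith
  · have M1 : r ≤ 2 * (a0 / 2 - v 0) := by
      have := c0.1
      rw [max_eq_right (by linarith)] at this
      linarith
    have := win_core hτ2 hp0 hp1 hs h1 (by linarith) hη' hr hrτ (by linarith) b3 b2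
      (d0 := a1 / 2 - v 1) (by linarith [c1.1]) (hux _ _ c1) M1 F1 F2
    linarith

end Pool.Agent.MP_c853c5_nt.REG
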