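import Pool.Agent.MP_c853c5_nt.REG.Dust
import Pool.Agent.MP_c853c5_nt.REG.Win
import Pool.Agent.MP_c853c5_nt.S.Defs2

/-!
The uniform leaf: one or two sieved factors of total size a little above `τ`.
-/

set_option autoImplicit false

open Finset

namespace Pool.Agent.MP_c853c5_nt.REG

open Pool.Agent.MP_c853c5_nt.S

/-- two mean value bounds -/
lemma eval_two {τ η n0 n1 : ℝ} {K : ℕ} (hK : 1 ≤ K) (h : max τ n0 + max τ n1 ≤ 1 - 2 * η) :
    S.Eval τ 0 K ![n0, n1] (1 / 2 - η) := by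
  intro r v _ _ _ hc
  have c0 := (hc ![1, 0] (by intro j; fin_cases j <;> simp [hK])).1
  have c1 := (hc ![0, 1] (by intro j; fin_cases j <;> simp [hK])).1
  simp only [Fin.sum_univ_two, Matrix.cons_val_zero, Matrix.cons_val_one, Nat.cast_one,
    Nat.cast_zero, one_mul, zero_mul, add_zero, zero_add] at c0 c1 ⊢
  linarith

/-- the larger of two smooth factors is reflected -/
lemma e1_two {ι : Type} [Fintype ι] {τ s β b : ℝ} {K : ℕ} {c : ι → ℝ} (hK : 1 ≤ K)
    (hτ : 1 / 3 ≤ τ) (hs : 0 < s) (h2 : 2 * s ≤ 1 - 2 * τ) (_h0 : 0 ≤ β) (hβ : β ≤ b)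
    (hb : τ + s ≤ β + b) (hc : ∑ i, c i + β + b = 1) (hc0 : 0 ≤ ∑ i, c i) :
    E1pt τ (s / 2) K (fun o : Option ι => o.elim β c) b := by
  refine ⟨by linarith, (eval_two (n0 := E.av τ b + β) (n1 := ∑ i, c i) hK ?_).group
    (fun o : Option (Option ι) => o.elim 0 fun o' => o'.elim 0 fun _ => 1) fun i => le_of_eq ?_⟩
  · rcases le_total b τ with e | e
    · have : E.av τ b ≤ τ - b := max_le (by linarith) (min_le_right _ _)
      simp only [max_def]
      split_ifs <;> linarith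
    · have : E.av τ b ≤ 0 := max_le le_rfl ((min_le_right _ _).trans (by linarith))
      simp only [max_def]
      split_ifs <;> linarith
  · rw [sum_filter, Fintype.sum_option, Fintype.sum_option]
    fin_cases i <;> simp

/-- a threshold is crossed -/
lemma exists_cross {J : Type} [Fintype J] [DecidableEq J] {q : J → ℝ} {x c : ℝ} (h1 : x < c)
    (h2 : c ≤ x + ∑ j, q j) :
    ∃ (T : Finset J) (j : J), j ∉ T ∧ x + ∑ k ∈ T, q k < c ∧ c ≤ x + ∑ k ∈ T, q k + q j := by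
  obtain ⟨T, hT, hm⟩ := exists_max_image
    (univ.filter fun T : Finset J => x + ∑ k ∈ T, q k < c) card ⟨∅, by simpa using h1⟩
  have hT' := (mem_filter.1 hT).2
  obtain ⟨j, hj⟩ : ∃ j, j ∉ T := by
    by_contra e
    rw [eq_univ_iff_forall.2 fun j => not_not.1 fun h => e ⟨j, h⟩] at hT'
    linarith
  refine ⟨T, j, hj, hT', not_lt.1 fun e => ?_⟩
  have := hm (insert j T) (mem_filter.2 ⟨mem_univ _, by rw [sum_insert hj]; linarith⟩)
  rw [card_insert_of_notMem hj] at this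
  omega

/-- either the smooth part is large or the shape is of type II -/
lemma u_core {ι J : Type} [Fintype ι] [Fintype J] {τ ν s κ b : ℝ} {a : ι → ℝ} {q : J → ℝ}
    (hτ : 1 / 3 ≤ τ) (hs : 0 < s) (hν : ν + 2 * s ≤ 1 - 2 * τ) (hν1 : ν ≤ 1 / 10) (hκ : 0 < κ)
    (hq : ∀ j, κ ≤ q j ∧ q j ≤ ν) (h1 : ∑ i, a i + ∑ j, q j + b = 1)
    (hA : ∑ i, a i ≤ 1 - (τ + ν / 2 + s)) (hb : b < τ + ν / 2 + s) :
    Nonempty J ∧ S.Eval τ (min (κ / 2) (s / 2)) (⌈1 / κ⌉₊ + 1) (sh a q b) (1 / 2) := by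
  classical
  obtain ⟨T, j, hj, h2, h3⟩ := exists_cross (q := q) hb (by linarith)
  obtain ⟨h4, h5⟩ := hq j
  have key := window (K := ⌈1 / κ⌉₊ + 1) (τ := τ) (κ := κ) (s := s) (η := min (κ / 2) (s / 2))
    (a0 := b + ∑ k ∈ T, q k) (a1 := 1 - (b + ∑ k ∈ T, q k) - q j) (p := q j) hτ (by linarith) hκ
    h4 (by linarith) (by linarith) hs (by ring) (by linarith) (by linarith)
    ((Nat.le_ceil _).trans (by simp)) (min_le_left _ _) (min_le_right _ _)
  refine ⟨⟨j⟩, key.group (fun o : Option (ι ⊕ J) => o.elim 0 (Sum.elim (fun _ => 1)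
    fun k => if k ∈ T then 0 else if k = j then 2 else 1)) fun i => le_of_eq ?_⟩
  have e0 : ∑ k, (if (if k ∈ T then 0 else if k = j then 2 else 1 : Fin 3) = 0 then q k else 0) =
      ∑ k ∈ T, q k := by
    rw [← sum_ite_mem_eq T q]
    exact sum_congr rfl fun k _ => by split_ifs <;> simp_all
  have e2 : ∑ k, (if (if k ∈ T then 0 else if k = j then 2 else 1 : Fin 3) = 2 then q k else 0) =
      q j := by
    rw [sum_eq_single j (fun k _ hk => by split_ifs <;> simp_all) (by simp)]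
    simp [hj]
  have e1 : ∑ k, (if (if k ∈ T then 0 else if k = j then 2 else 1 : Fin 3) = 1 then q k else 0) =
      ∑ k, q k - ∑ k ∈ T, q k - q j := by
    rw [← e0, ← e2, ← sum_sub_distrib, ← sum_sub_distrib]
    exact sum_congr rfl fun k _ => by split_ifs <;> simp_all
  rw [sum_filter, Fintype.sum_option, Fintype.sum_sum_type]
  fin_cases i
  · simpa [sh] using e0
  · simp [sh, e1]
    linarith
  · simpa [sh] using e2

lemma card_le_of {j : ℕ} {q : Fin j → ℝ} {κ z : ℝ} (hκ : 0 < κ) (hq : ∀ i, κ ≤ q i ∧ q i ≤ z)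
    (h : ∑ i, q i ≤ 1) : (j : ℝ) ≤ 1 / κ := by
  have h3 : (j : ℝ) * κ ≤ ∑ i, q i := by
    simpa using card_nsmul_le_sum univ q κ fun i _ => (hq i).1
  exact (le_div_iff₀ hκ).2 (by linarith)

/-- the uniform leaf with one sieved factor -/
theorem u_one {r : ℕ} {τ ν s z : ℝ} {B : Fin r → Blk} (hτ : 1 / 3 ≤ τ) (hs : 0 < s) (hν0 : 0 ≤ ν)
    (hν : ν + 2 * s ≤ 1 - 2 * τ) (hν1 : ν ≤ 1 / 10) (hz : z ≤ ν)
    (hB : ∀ a, InBox B a → ∑ i, a i ≤ 1 - (τ + ν / 2 + s)) : DustOK τ B z := by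
  classical
  refine ⟨s / 2, by positivity, fun κ hκ => ⟨min (min (κ / 2) (s / 2))
    (min κ (1 / (13 * (((⌈1 / κ⌉₊ + 1 : ℕ) : ℝ) + 1)) / (r + 1 / κ + 1))), by positivity,
    ⌈1 / κ⌉₊ + 1, fun j a q b ha hq hb h1 => ?_⟩⟩
  have h0 : ∀ o, 0 ≤ Sum.elim a q o := by
    rintro (i | j)
    exacts [(ha i).1, hκ.le.trans (hq j).1]
  rcases le_or_gt (τ + ν / 2 + s) b with e | e
  · refine Or.inl ((e1_two (c := Sum.elim a q) (β := 0) (by omega) hτ hs (by linarith) le_rfl hb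
      (by linarith) (by rw [Fintype.sum_sum_type]; simpa using h1)
      (sum_nonneg fun o _ => h0 o)).group some fun o => ?_)
    cases o <;> simp [sum_filter]
  · obtain ⟨⟨k⟩, h2⟩ := u_core (a := a) hτ hs hν hν1 hκ
      (fun j => (hq j).imp_right fun e => e.trans hz) h1 (hB a ha) e
    have h3 : 0 ≤ ∑ i, a i := sum_nonneg fun i _ => (ha i).1
    have h4 := card_le_of hκ hq (by linarith)
    refine Or.inr (e2pt_of_eval (i := some (Sum.inr k)) h2 (by positivity) hτ ?_ ?_ trivial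
      (hq k).1 ?_)
    · rintro (_ | o)
      exacts [hb, h0 o]
    · rw [Fintype.sum_option, Fintype.sum_sum_type, add_comm]
      exact h1
    · simp only [Fintype.card_option, Fintype.card_sum, Fintype.card_fin]
      push_cast
      linarith

/-- the uniform leaf with two sieved factors -/
theorem u_two {r : ℕ} {τ ν s z1 z2 lo hi : ℝ} {B : Fin r → Blk} (hτ : 1 / 3 ≤ τ) (hs : 0 < s)
    (hν0 : 0 ≤ ν) (hν : ν + 2 * s ≤ 1 - 2 * τ) (hν1 : ν ≤ 1 / 10) (hz1 : z1 ≤ ν) (hz2 : z2 ≤ ν)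
    (hB : ∀ a, InBox B a → ∑ i, a i ≤ 1 - (τ + ν / 2 + s)) : DustOK2 τ B z1 z2 lo hi := by
  classical
  refine ⟨s / 2, by positivity, fun κ hκ => ⟨min (min (κ / 2) (s / 2))
    (min κ (1 / (13 * (((⌈1 / κ⌉₊ + 1 : ℕ) : ℝ) + 1)) / (r + 1 / κ + 1 / κ + 2))), by positivity,
    ⌈1 / κ⌉₊ + 1, fun j1 j2 a q1 q2 b1 b2 ha hq1 hq2 hb1 hb2 h1 _ _ => ?_⟩⟩
  have h0 : ∀ o, 0 ≤ Sum.elim a (Sum.elim q1 q2) o := by
    rintro (i | j | j)
    exacts [(ha i).1, hκ.le.trans (hq1 j).1, hκ.le.trans (hq2 j).1]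
  have hS : ∑ o, Sum.elim a (Sum.elim q1 q2) o = ∑ i, a i + (∑ i, q1 i + ∑ i, q2 i) := by
    simp [Fintype.sum_sum_type]
  rcases le_or_gt (τ + ν / 2 + s) (b1 + b2) with e | e
  · rcases le_total b1 b2 with d | d
    · exact Or.inr (Or.inr (Or.inl (e1_two (by omega) hτ hs (by linarith) hb1 d (by linarith)
        (by rw [hS, h1]) (sum_nonneg fun o _ => h0 o))))
    · exact Or.inr (Or.inl (e1_two (by omega) hτ hs (by linarith) hb2 d (by linarith)
        (by rw [hS]; linarith) (sum_nonneg fun o _ => h0 o)))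
  · have hq : ∀ j, κ ≤ Sum.elim q1 q2 j ∧ Sum.elim q1 q2 j ≤ ν := by
      rintro (j | j)
      exacts [(hq1 j).imp_right fun e => e.trans hz1, (hq2 j).imp_right fun e => e.trans hz2]
    obtain ⟨⟨k⟩, h2⟩ := u_core (a := a) hτ hs hν hν1 hκ hq
      (by rw [Fintype.sum_sum_type]; simp only [Sum.elim_inl, Sum.elim_inr]; linarith) (hB a ha) e
    have h3 : 0 ≤ ∑ i, a i := sum_nonneg fun i _ => (ha i).1
    have h4 : 0 ≤ ∑ i, q1 i := sum_nonneg fun i _ => hκ.le.trans (hq1 i).1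
    have h5 : 0 ≤ ∑ i, q2 i := sum_nonneg fun i _ => hκ.le.trans (hq2 i).1
    have h6 := card_le_of hκ hq1 (by linarith)
    have h7 := card_le_of hκ hq2 (by linarith)
    refine Or.inl (e2pt_of_eval (i := some (some (Sum.inr k)))
      (h2.group (fun o : Option (Option (Fin r ⊕ Fin j1 ⊕ Fin j2)) => o.bind id)
        fun o => le_of_eq ?_) (by positivity) hτ ?_ ?_ trivial (hq k).1 ?_)
    · rw [sum_filter, Fintype.sum_option, Fintype.sum_option]
      cases o <;> simp [sh]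
    · rintro (_ | _ | o)
      exacts [hb1, hb2, h0 o]
    · rw [Fintype.sum_option, Fintype.sum_option]
      simp only [Option.elim]
      linarith
    · simp only [Fintype.card_option, Fintype.card_sum, Fintype.card_fin]
      push_cast
      linarith

end Pool.Agent.MP_c853c5_nt.REG
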