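import Pool.Agent.MP_c853c5_nt.REG.U
import Pool.Agent.MP_c853c5_nt.Y.SysW

/-!
The uniform leaves with the mixed fourth moment, for any crossing lemma.
-/

set_option autoImplicit false

open Finset

namespace Pool.Agent.MP_c853c5_nt.REG

open Pool.Agent.MP_c853c5_nt.S Pool.Agent.MP_c853c5_nt.R Pool.Agent.MP_c853c5_nt.Y

/-- two mixed fourth moments and one mean value bound -/
lemma evalW_uw {ι : Type} [Fintype ι] {sm : Option (Option ι) → Prop} {τ η x1 x2 W2 : ℝ} {K : ℕ}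
    {c : ι → ℝ} {k1 k2 k3 : ι → ℕ} (hK : 2 ≤ K) (hk : ∀ i, k1 i + k2 i + 2 * k3 i = 2)
    (h1 : sm none)
    (h2 : sm (some none) ∧ max τ (τ / 2 + 2 * ∑ i, (k2 i : ℝ) * c i) ≤ W2 ∨
      max τ (2 * x2 + ∑ i, (k2 i : ℝ) * c i) ≤ W2)
    (h : (max τ (τ / 2 + 2 * ∑ i, (k1 i : ℝ) * c i) + W2) / 2 +
      max τ (∑ i, (k3 i : ℝ) * c i) ≤ 1 - 2 * η) :
    EvalW sm K τ (1 / 2 - η) fun o => o.elim x1 fun o' => o'.elim x2 c := by
  intro r v _ _ _ hc hw
  have e : ∀ (n : ℕ) (k : ι → ℕ), n ≤ 2 → (∀ i, k i ≤ 2) →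
      ∀ o : Option (Option ι), (o.elim 0 fun o' => o'.elim n k) ≤ K := by
    rintro n k hn hk' (_ | _ | i)
    exacts [Nat.zero_le _, hn.trans hK, (hk' i).trans hK]
  have a1 := hw none h1 _ (e 0 k1 (by omega) fun i => by have := hk i; omega)
  have a3 := (hc _ (e 0 k3 (by omega) fun i => by have := hk i; omega)).1
  have a2 : r + 4 * v (some none) + 2 * ∑ i, (k2 i : ℝ) * v (some (some i)) ≤ W2 := by
    rcases h2 with ⟨h2, h3⟩ | h3
    · have := hw _ h2 _ (e 0 k2 (by omega) fun i => by have := hk i; omega)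
      simp only [Fintype.sum_option, Option.elim, Nat.cast_zero, zero_mul, zero_add] at this
      linarith
    · have := (hc _ (e 2 k2 le_rfl fun i => by have := hk i; omega)).1
      simp only [Fintype.sum_option, Option.elim, Nat.cast_zero, zero_mul, zero_add,
        Nat.cast_ofNat] at this
      linarith
  simp only [Fintype.sum_option, Option.elim, Nat.cast_zero, zero_mul, zero_add] at a1 a3 ⊢
  have a4 : ∑ i, (k1 i : ℝ) * v (some (some i)) + ∑ i, (k2 i : ℝ) * v (some (some i)) +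
      2 * ∑ i, (k3 i : ℝ) * v (some (some i)) = 2 * ∑ i, v (some (some i)) := by
    rw [mul_sum, mul_sum, ← sum_add_distrib, ← sum_add_distrib]
    refine sum_congr rfl fun i _ => ?_
    have : (k1 i : ℝ) + k2 i + 2 * k3 i = 2 := by exact_mod_cast hk i
    linear_combination v (some (some i)) * this
  linarith

open Classical in
/-- a threshold is crossed by a small prime -/
lemma cross_UW {Λ : Type} [Fintype Λ] {τ ν s κ c : ℝ} {x : Λ → ℝ} {A D : Λ → Prop}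
    (hτ : 1 / 3 ≤ τ) (hs : 0 < s) (hν1 : ν ≤ 1 / 10) (hκ : 0 < κ) (c1 : τ + ν / 2 + s ≤ c)
    (c2 : c + τ + ν / 2 + s ≤ 1) (hA : ∀ k, D k → ¬ A k) (hD : ∀ k, D k → κ ≤ x k ∧ x k ≤ ν)
    (h1 : ∑ k, x k = 1) (h2 : ∑ k, (if A k then x k else 0) < c)
    (h3 : c ≤ ∑ k, (if A k then x k else 0) + ∑ k, if D k then x k else 0) :
    ∃ j, D j ∧ S.Eval τ (min (κ / 2) (s / 2)) (⌈1 / κ⌉₊ + 2) x (1 / 2) := by
  obtain ⟨T, j, hj, h4, h5⟩ := exists_cross h2 h3
  have hj' : D j := by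
    by_contra e
    rw [if_neg e] at h5
    linarith
  rw [if_pos hj'] at h5
  obtain ⟨h6, h7⟩ := hD j hj'
  set g : Λ → Fin 3 := fun k => if k = j then 2 else if A k ∨ k ∈ T ∧ D k then 0 else 1 with hg
  have e0 : ∑ k ∈ univ.filter (fun k => g k = 0), x k =
      ∑ k, (if A k then x k else 0) + ∑ k ∈ T, if D k then x k else 0 := by
    rw [sum_filter, ← sum_ite_mem_eq T, ← sum_add_distrib]
    refine sum_congr rfl fun k _ => ?_
    have := hA k
    by_cases a1 : k = j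
    · simp [hg, a1, hj, hA j hj']
    · by_cases a2 : A k <;> by_cases a3 : k ∈ T <;> by_cases a4 : D k <;> simp_all
  have e2 : ∑ k ∈ univ.filter (fun k => g k = 2), x k = x j := by
    rw [sum_filter, sum_eq_single j (fun k _ hk => by
      simp only [hg, if_neg hk]
      split_ifs <;> simp_all) (by simp)]
    simp [hg]
  have e1 := sum_fiberwise univ g x
  rw [Fin.sum_univ_three, e0, e2, h1] at e1
  refine ⟨j, hj', (window (K := ⌈1 / κ⌉₊ + 2) (τ := τ) (κ := κ) (s := s)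
    (η := min (κ / 2) (s / 2)) hτ (by linarith) hκ h6 (by linarith) (by linarith) hs e1
    (by linarith) (by linarith) ((Nat.le_ceil _).trans (by push_cast; linarith)) (min_le_left _ _)
    (min_le_right _ _)).group g fun i => le_of_eq ?_⟩
  fin_cases i
  exacts [e0, rfl, e2]

lemma split_UW {r : ℕ} {k1 k2 k3 : Fin r → ℕ} (hk : ∀ i, k1 i + k2 i + 2 * k3 i = 2)
    (a : Fin r → ℝ) :
    ∑ i, (if k3 i = 0 then a i else 0) + ∑ i, (k3 i : ℝ) * a i = ∑ i, a i ∧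
      2 * ∑ i, (if k3 i = 0 then a i else 0) = ∑ i, (k1 i : ℝ) * a i + ∑ i, (k2 i : ℝ) * a i := by
  rw [mul_sum, ← sum_add_distrib, ← sum_add_distrib]
  constructor <;> refine sum_congr rfl fun i _ => ?_ <;> have := hk i <;> split_ifs with e
  · simp [e]
  · simp [show k3 i = 1 by omega]
  · have : (k1 i : ℝ) + k2 i = 2 := by exact_mod_cast (by omega : k1 i + k2 i = 2)
    linear_combination -a i * this
  · simp [show k1 i = 0 by omega, show k2 i = 0 by omega]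

lemma small_UW {τ b n : ℝ} (hτ : 1 / 3 ≤ τ) (hb : b ≤ 1 / 10) :
    max τ (2 * b + n) ≤ max τ (τ / 2 + 2 * n) := by
  simp only [max_def]
  split_ifs <;> linarith

open Classical in
/-- thresholds in `[τ + δ, 1 - τ - δ]` are crossed by primes of size at most `ν` -/
def Crs (Y : Sys) (τ ν δ : ℝ) : Prop := ∀ κ N : ℝ, 0 < κ → 0 < N → ∃ η : ℝ, 0 < η ∧ ∃ K : ℕ,
  2 ≤ K ∧ ∀ (ι : Type) [Fintype ι] (x : ι → ℝ) (pr A D : ι → Prop) (c : ℝ), τ + δ ≤ c →
    c + τ + δ ≤ 1 → (∀ k, D k → ¬ A k) → (∀ k, D k → pr k ∧ κ ≤ x k ∧ x k ≤ ν) → (∀ k, 0 ≤ x k) →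
    ∑ k, x k = 1 → ∑ k, (if A k then x k else 0) < c →
    c ≤ ∑ k, (if A k then x k else 0) + ∑ k, (if D k then x k else 0) →
    (Fintype.card ι : ℝ) ≤ N → Y.q2 τ η K pr x

theorem crs_win (Z : Sys) {τ ν s δ : ℝ} (hτ : 1 / 3 ≤ τ) (hs : 0 < s) (hν : ν ≤ 1 / 10)
    (h : ν / 2 + s ≤ δ) : Crs (sysW.or2 Z) τ ν δ := fun κ N hκ hN =>
  ⟨min (min (κ / 2) (s / 2)) (min κ (1 / (13 * (((⌈1 / κ⌉₊ + 2 : ℕ) : ℝ) + 1)) / N)), by positivity,
    ⌈1 / κ⌉₊ + 2, by omega, fun _ _ _ _ _ _ _ c1 c2 hA hD h0 h1 h2 h3 h4 => by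
      obtain ⟨j, hj, e⟩ := cross_UW hτ hs hν hκ (by linarith) (by linarith) hA
        (fun k hk => (hD k hk).2) h1 h2 h3
      exact Or.inl (e2pt_of_eval e (by positivity) hτ h0 h1 (hD j hj).1 (hD j hj).2.1 h4)⟩

/-- one sieved factor -/
theorem ug_one {Z : Sys} {r : ℕ} {τ ν s δ z : ℝ} {B : Fin r → Blk} {k1 k2 k3 : Fin r → ℕ}
    (hτ : 1 / 3 ≤ τ) (hs : 0 < s) (hδ : 0 ≤ δ) (h2 : 2 * τ + 2 * δ ≤ 1)
    (hC : Crs (sysW.or2 Z) τ ν δ) (hz : z ≤ ν) (hk : ∀ i, k1 i + k2 i + 2 * k3 i = 2)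
    (hB : ∀ a, InBox B a → ∃ W : ℝ,
      max τ (τ / 2 + 2 * ∑ i, (k1 i : ℝ) * a i) + max τ (∑ i, (k2 i : ℝ) * a i) ≤ 2 * W ∧
      τ + δ + ∑ i, (k3 i : ℝ) * a i ≤ 1 ∧ W + s + τ + δ ≤ 1 ∧
      W + s + ∑ i, (k3 i : ℝ) * a i ≤ 1) : DustOKG (sysW.or2 Z) τ B z := by
  classical
  refine ⟨s / 2, by positivity, fun κ hκ => ?_⟩
  obtain ⟨η, hη, K, hK, hC⟩ := hC κ (r + 1 / κ + 1) hκ (by positivity)
  refine ⟨η, hη, K, fun j a q b ha hq hb h1 => ?_⟩
  obtain ⟨W, w0, w1, w2, w3⟩ := hB a ha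
  obtain ⟨s1, s2⟩ := split_UW hk a
  have m1 := le_max_left (τ + δ) (W + s)
  have m2 := le_max_right (τ + δ) (W + s)
  have m3 := max_le (show τ + δ ≤ 1 - τ - δ by linarith) (show W + s ≤ 1 - τ - δ by linarith)
  rcases le_or_gt (max (τ + δ) (W + s)) (b + ∑ i, if k3 i = 0 then a i else 0) with e | e
  · refine Or.inl ⟨?_, (evalW_uw (sm := fun o => o = none) (x1 := E.av τ b) (x2 := 0)
      (c := Sum.elim a q) (k1 := Sum.elim k1 fun _ => 0) (k2 := Sum.elim k2 fun _ => 0)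
      (k3 := Sum.elim k3 fun _ => 1) hK (by rintro (i | i); exacts [hk i, rfl]) rfl
      (Or.inr le_rfl) ?_).group (Option.map some) (fun o => ?_)
      fun _ hi => ⟨none, rfl, fun j => by rw [hi, Option.map_eq_none_iff]⟩⟩
    · linarith [le_max_left τ (τ / 2 + 2 * ∑ i, (k1 i : ℝ) * a i),
        le_max_right τ (τ / 2 + 2 * ∑ i, (k1 i : ℝ) * a i),
        le_max_right τ (∑ i, (k2 i : ℝ) * a i)]
    · simp only [Fintype.sum_sum_type, Sum.elim_inl, Sum.elim_inr, Nat.cast_zero, zero_mul,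
        sum_const_zero, add_zero, mul_zero, zero_add, Nat.cast_one, one_mul]
      linarith [max_le (show τ ≤ 1 - s - W by linarith)
        (show ∑ i, (k3 i : ℝ) * a i + ∑ i, q i ≤ 1 - s - W by linarith)]
    · rw [fib_W]
      rcases o with _ | _ | o | o <;> simp [sum_filter]
  · have h3 : 0 ≤ ∑ i, a i := sum_nonneg fun i _ => (ha i).1
    have h4 := card_le_of hκ hq (by linarith)
    refine Or.inr (hC _ _ _
      (fun o => o.elim True (Sum.elim (fun i => k3 i = 0) fun _ => False))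
      (fun o => o.elim False (Sum.elim (fun _ => False) fun _ => True)) _ m1 (by linarith)
      (by rintro (_ | i | i) <;> simp) ?_ ?_ ?_
      (by simpa [Fintype.sum_option, Fintype.sum_sum_type] using e)
      (by
        simp [Fintype.sum_option, Fintype.sum_sum_type]
        constructor <;> linarith) ?_)
    · rintro (_ | i | i) h
      exacts [h.elim, h.elim, ⟨trivial, (hq i).imp_right fun e => e.trans hz⟩]
    · rintro (_ | i | i)
      exacts [hb, (ha i).1, hκ.le.trans (hq i).1]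
    · rw [Fintype.sum_option, Fintype.sum_sum_type, add_comm]
      exact h1
    · simp only [Fintype.card_option, Fintype.card_sum, Fintype.card_fin]
      push_cast
      linarith

/-- two sieved factors -/
theorem ug_two {Z : Sys} {r : ℕ} {τ ν s δ z1 z2 lo hi : ℝ} {B : Fin r → Blk} {k1 k2 k3 : Fin r → ℕ}
    (hτ : 1 / 3 ≤ τ) (hs : 0 < s) (hδ : 0 ≤ δ) (h2 : 2 * τ + 2 * δ ≤ 1)
    (hC : Crs (sysW.or2 Z) τ ν δ) (hz1 : z1 ≤ ν) (hz2 : z2 ≤ ν)
    (hk : ∀ i, k1 i + k2 i + 2 * k3 i = 2)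
    (hB : ∀ a, InBox B a → ∃ W : ℝ,
      max τ (τ / 2 + 2 * ∑ i, (k1 i : ℝ) * a i) + max τ (τ / 2 + 2 * ∑ i, (k2 i : ℝ) * a i) ≤
        2 * W ∧
      τ + δ + ∑ i, (k3 i : ℝ) * a i ≤ 1 ∧ W + s + τ + δ ≤ 1 ∧
      W + s + ∑ i, (k3 i : ℝ) * a i ≤ 1) : DustOK2G (sysW.or2 Z) τ B z1 z2 lo hi := by
  classical
  refine ⟨s / 2, by positivity, fun κ hκ => ?_⟩
  obtain ⟨η, hη, K, hK, hC⟩ := hC κ (r + 1 / κ + 1 / κ + 2) hκ (by positivity)
  refine ⟨η, hη, K, fun j1 j2 a q1 q2 b1 b2 ha hq1 hq2 hb1 hb2 h1 _ _ => ?_⟩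
  obtain ⟨W, w0, w1, w2, w3⟩ := hB a ha
  obtain ⟨s1, s2⟩ := split_UW hk a
  have m1 := le_max_left (τ + δ) (W + s)
  have m2 := le_max_right (τ + δ) (W + s)
  have m3 := max_le (show τ + δ ≤ 1 - τ - δ by linarith) (show W + s ≤ 1 - τ - δ by linarith)
  rcases le_or_gt (max (τ + δ) (W + s)) (b1 + (b2 + ∑ i, if k3 i = 0 then a i else 0))
    with e | e
  · have key : ∀ (sm : Option (Option (Fin r ⊕ Fin j1 ⊕ Fin j2)) → Prop) (x1 x2 : ℝ)
        (l1 l2 : Fin r → ℕ), (∀ i, l1 i + l2 i + 2 * k3 i = 2) → sm none →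
        (sm (some none) ∨ x2 ≤ 1 / 10) →
        max τ (τ / 2 + 2 * ∑ i, (l1 i : ℝ) * a i) + max τ (τ / 2 + 2 * ∑ i, (l2 i : ℝ) * a i) ≤
          2 * W → EvalW sm K τ (1 / 2 - s / 2)
            fun o => o.elim x1 fun o' => o'.elim x2 (Sum.elim a (Sum.elim q1 q2)) := by
      intro sm x1 x2 l1 l2 hl p1 p2 p3
      refine evalW_uw (k1 := Sum.elim l1 fun _ => 0) (k2 := Sum.elim l2 fun _ => 0)
        (k3 := Sum.elim k3 fun _ => 1) hK (by rintro (i | i); exacts [hl i, rfl]) p1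
        (p2.imp (fun h => ⟨h, le_rfl⟩) fun h => small_UW hτ h) ?_
      simp only [Fintype.sum_sum_type, Sum.elim_inl, Sum.elim_inr, Nat.cast_zero, zero_mul,
        sum_const_zero, add_zero, Nat.cast_one, one_mul]
      linarith [max_le (show τ ≤ 1 - s - W by linarith)
        (show ∑ i, (k3 i : ℝ) * a i + (∑ i, q1 i + ∑ i, q2 i) ≤ 1 - s - W by linarith)]
    rcases le_total (1 / 10) b1 with d1 | d1 <;> rcases le_total (1 / 10) b2 with d2 | d2
    · exact Or.inr (Or.inr (Or.inr ⟨d1, d2, key _ _ _ k1 k2 hk (Or.inl rfl)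
        (Or.inl (Or.inr rfl)) w0⟩))
    · exact Or.inr (Or.inl ⟨d1, key _ _ _ k1 k2 hk rfl (Or.inr d2) w0⟩)
    · exact Or.inr (Or.inr (Or.inl ⟨d2, key _ _ _ k2 k1 (fun i => by have := hk i; omega) rfl
        (Or.inr d1) (by linarith)⟩))
    · linarith [le_max_right τ (τ / 2 + 2 * ∑ i, (k1 i : ℝ) * a i),
        le_max_right τ (τ / 2 + 2 * ∑ i, (k2 i : ℝ) * a i)]
  · have h3 : 0 ≤ ∑ i, a i := sum_nonneg fun i _ => (ha i).1
    have h4 : 0 ≤ ∑ i, q1 i := sum_nonneg fun i _ => hκ.le.trans (hq1 i).1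
    have h5 : 0 ≤ ∑ i, q2 i := sum_nonneg fun i _ => hκ.le.trans (hq2 i).1
    have h6 := card_le_of hκ hq1 (by linarith)
    have h7 := card_le_of hκ hq2 (by linarith)
    refine Or.inl (hC _ _ _
      (fun o => o.elim True fun o' => o'.elim True (Sum.elim (fun i => k3 i = 0) fun _ => False))
      (fun o => o.elim False fun o' => o'.elim False (Sum.elim (fun _ => False) fun _ => True))
      _ m1 (by linarith) (by rintro (_ | _ | i | i) <;> simp) ?_ ?_ ?_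
      (by simpa [Fintype.sum_option, Fintype.sum_sum_type] using e)
      (by
        simp [Fintype.sum_option, Fintype.sum_sum_type]
        constructor <;> linarith) ?_)
    · rintro (_ | _ | i | i | i) h
      exacts [h.elim, h.elim, h.elim, ⟨trivial, (hq1 i).imp_right fun e => e.trans hz1⟩,
        ⟨trivial, (hq2 i).imp_right fun e => e.trans hz2⟩]
    · rintro (_ | _ | i | i | i)
      exacts [hb1, hb2, (ha i).1, hκ.le.trans (hq1 i).1, hκ.le.trans (hq2 i).1]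
    · simp only [Fintype.sum_option, Fintype.sum_sum_type, Option.elim, Sum.elim_inl, Sum.elim_inr]
      linarith
    · simp only [Fintype.card_option, Fintype.card_sum, Fintype.card_fin]
      push_cast
      linarith

end Pool.Agent.MP_c853c5_nt.REG
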