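import Pool.Agent.MP_c853c5_nt.REG.Win

/-!
A checker for the linear programme on down-closed polytopes.
-/

set_option autoImplicit false

open Finset

namespace Pool.Agent.MP_c853c5_nt.REG

open Pool.Agent.MP_c853c5_nt.E

/-- unit of all sizes -/
def SC : ℕ := 1000000

/-- scale of the multipliers -/
def QQ : ℕ := 840000000

/-- scalar product -/
noncomputable def dot {k : ℕ} (c : List ℕ) (f : Fin k → ℝ) : ℝ :=
  ∑ j : Fin k, (c.getD j 0 : ℝ) * f j

/-- rows `c · b ≤ e / SC` -/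
abbrev Poly : Type := List (List ℕ × ℕ)

def Mem {k : ℕ} (P : Poly) (b : Fin k → ℝ) : Prop := ∀ x ∈ P, dot x.1 b ≤ (x.2 : ℝ) / SC

def MemL {k : ℕ} (P : Poly) (b : Fin k → ℝ) : Prop := ∀ x ∈ P, (x.2 : ℝ) / SC ≤ dot x.1 b

/-- the programme holds on the polytope: `e = 1` for type II, `e = 0` for type I -/
def Good (k tn e : ℕ) (P R : Poly) : Prop :=
  ∀ b : Fin k → ℝ, (∀ j, 0 ≤ b j) → Mem P b → MemL R b →
    S.Eval ((tn : ℝ) / SC) ((e : ℝ) / 10000) 64 b (1 / 2 - (1 - (e : ℝ)) / 10000)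

def axpy (y : ℕ) : List ℕ → List ℕ → List ℕ
  | [], acc => acc
  | a :: u, [] => y * a :: axpy y u []
  | a :: u, c :: acc => (y * a + c) :: axpy y u acc

lemma getD_axpy (y : ℕ) (u acc : List ℕ) (j : ℕ) :
    (axpy y u acc).getD j 0 = y * u.getD j 0 + acc.getD j 0 := by
  induction u generalizing acc j with
  | nil => simp [axpy]
  | cons a u ih =>
    cases acc with
    | nil =>
      cases j with
      | zero => simp [axpy]
      | succ j => simpa [axpy] using ih [] j
    | cons c acc =>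
      cases j with
      | zero => simp [axpy]
      | succ j => simpa [axpy] using ih acc j

lemma dot_axpy {k : ℕ} (y : ℕ) (u acc : List ℕ) (f : Fin k → ℝ) :
    dot (axpy y u acc) f = y * dot u f + dot acc f := by
  unfold dot
  rw [mul_sum, ← sum_add_distrib]
  refine sum_congr rfl fun j _ => ?_
  rw [getD_axpy]
  push_cast
  ring

lemma dot_nil {k : ℕ} (f : Fin k → ℝ) : dot [] f = 0 := by simp [dot]

/-- a branch: `84 r + c κ·v ≤ α τ + β κ·b` -/
structure Hyp where
  κ : List ℕ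
  c : ℕ
  α : ℕ
  β : ℕ

def Hyp.ok {k : ℕ} (τ r : ℝ) (b v : Fin k → ℝ) (h : Hyp) : Prop :=
  84 * r + h.c * dot h.κ v ≤ h.α * τ + h.β * dot h.κ b

def br1 (κ : List ℕ) : ℕ → Hyp
  | 4 => ⟨κ, 336, 0, 168⟩
  | _ => ⟨κ, 168, 0, 84⟩

def br2 (κ : List ℕ) : ℕ → Hyp
  | 1 => ⟨κ, 504, 84, 84⟩
  | 2 => ⟨κ, 336, 42, 84⟩
  | 3 => ⟨κ, 336, 12, 144⟩
  | 4 => ⟨κ, 504, 63, 84⟩
  | _ => ⟨κ, 168, 84, 0⟩

def br3 (κ : List ℕ) : ℕ → Hyp
  | 2 => ⟨κ, 336, 84, 32⟩
  | 3 => ⟨κ, 336, 84, 0⟩
  | _ => ⟨κ, 504, 84, 0⟩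

def two : ℕ → Bool
  | 2 => false
  | 3 => false
  | 4 => false
  | _ => true

lemma branch {k : ℕ} {τ r : ℝ} {b v : Fin k → ℝ} (κ : List ℕ) (t : ℕ)
    (h : Con τ (dot κ b) (dot κ v) r) :
    (br1 κ t).ok τ r b v ∨ (br2 κ t).ok τ r b v ∨ (two t = false ∧ (br3 κ t).ok τ r b v) := by
  obtain ⟨h1, h2, h3, h4, h5⟩ := h
  have g0 : (⟨κ, 168, 0, 84⟩ : Hyp).ok τ r b v ∨ (⟨κ, 168, 84, 0⟩ : Hyp).ok τ r b v := by
    simp only [Hyp.ok]
    push_cast
    rcases le_total τ (dot κ b) with h | h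
    · rw [max_eq_right h] at h1; left; linarith
    · rw [max_eq_left h] at h1; right; linarith
  match t with
  | 0 => exact g0.imp_right Or.inl
  | 1 =>
    simp only [Hyp.ok, br1, br2]
    push_cast
    rcases le_max_iff.1 h2 with h | h
    · left; linarith
    · right; left; linarith
  | 2 =>
    simp only [Hyp.ok, br1, br2, br3, two, true_and]
    push_cast
    rcases le_max_iff.1 h3 with h | h
    · left; linarith
    rcases le_max_iff.1 h with h | h
    · right; left; linarith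
    · right; right; linarith
  | 3 =>
    simp only [Hyp.ok, br1, br2, br3, two, true_and]
    push_cast
    rcases le_max_iff.1 h4 with h | h
    · left; linarith
    rcases le_total (τ / 2) (dot κ b) with g | g
    · rw [max_eq_left g] at h; right; left; linarith
    · rw [max_eq_right g] at h; right; right; linarith
  | 4 =>
    simp only [Hyp.ok, br1, br2, br3, two, true_and]
    push_cast
    rcases le_max_iff.1 h5 with h | h
    · left; linarith
    rcases le_max_iff.1 h with h | h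
    · right; left; linarith
    · right; right; linarith
  | t + 5 => exact g0.imp_right Or.inl

/-- accumulated combination -/
structure Acc where
  Y : ℕ
  C : ℕ
  V : List ℕ
  B : List ℕ

def acc : List Hyp → List ℕ → Acc → Acc
  | [], _, a => a
  | _ :: _, [], a => a
  | _ :: hs, 0 :: ys, a => acc hs ys a
  | h :: hs, (y + 1) :: ys, a =>
    acc hs ys ⟨a.Y + (y + 1), a.C + (y + 1) * h.α, axpy ((y + 1) * h.c) h.κ a.V,
      axpy ((y + 1) * h.β) h.κ a.B⟩

def Acc.ok {k : ℕ} (τ r : ℝ) (b v : Fin k → ℝ) (a : Acc) : Prop :=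
  84 * a.Y * r + dot a.V v ≤ a.C * τ + dot a.B b

lemma acc_ok {k : ℕ} {τ r : ℝ} {b v : Fin k → ℝ} (hs : List Hyp) (ys : List ℕ) (a : Acc)
    (h : ∀ x ∈ hs, x.ok τ r b v) (ha : a.ok τ r b v) : (acc hs ys a).ok τ r b v := by
  induction hs generalizing ys a with
  | nil => exact ha
  | cons x hs ih =>
    have h' : ∀ x ∈ hs, x.ok τ r b v := fun z hz => h z (List.mem_cons_of_mem _ hz)
    match ys with
    | [] => exact ha
    | 0 :: ys => exact ih ys a h' ha
    | (y + 1) :: ys =>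
      refine ih ys _ h' ?_
      have hx := mul_le_mul_of_nonneg_left (h x List.mem_cons_self)
        (show (0 : ℝ) ≤ (y : ℝ) + 1 by positivity)
      simp only [Acc.ok, dot_axpy] at ha ⊢
      push_cast
      linarith

def rows : Poly → List ℕ → List ℕ × ℕ → List ℕ × ℕ
  | [], _, a => a
  | _ :: _, [], a => a
  | _ :: P, 0 :: zs, a => rows P zs a
  | x :: P, (z + 1) :: zs, a => rows P zs (axpy (z + 1) x.1 a.1, a.2 + (z + 1) * x.2)

lemma rows_ok {k : ℕ} {b : Fin k → ℝ} (P : Poly) (zs : List ℕ) (a : List ℕ × ℕ)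
    (h : Mem P b) (ha : dot a.1 b ≤ (a.2 : ℝ) / SC) :
    dot (rows P zs a).1 b ≤ ((rows P zs a).2 : ℝ) / SC := by
  induction P generalizing zs a with
  | nil => exact ha
  | cons x P ih =>
    have h' : Mem P b := fun z hz => h z (List.mem_cons_of_mem _ hz)
    match zs with
    | [] => exact ha
    | 0 :: zs => exact ih zs a h' ha
    | (z + 1) :: zs =>
      refine ih zs _ h' ?_
      have hx := mul_le_mul_of_nonneg_left (h x List.mem_cons_self)
        (show (0 : ℝ) ≤ (z : ℝ) + 1 by positivity)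
      simp only [dot_axpy]
      push_cast
      rw [add_div, mul_div_assoc]
      linarith

lemma rows_ok' {k : ℕ} {b : Fin k → ℝ} (P : Poly) (zs : List ℕ) (a : List ℕ × ℕ)
    (h : MemL P b) (ha : (a.2 : ℝ) / SC ≤ dot a.1 b) :
    ((rows P zs a).2 : ℝ) / SC ≤ dot (rows P zs a).1 b := by
  induction P generalizing zs a with
  | nil => exact ha
  | cons x P ih =>
    have h' : MemL P b := fun z hz => h z (List.mem_cons_of_mem _ hz)
    match zs with
    | [] => exact ha
    | 0 :: zs => exact ih zs a h' ha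
    | (z + 1) :: zs =>
      refine ih zs _ h' ?_
      have hx := mul_le_mul_of_nonneg_left (h x List.mem_cons_self)
        (show (0 : ℝ) ≤ (z : ℝ) + 1 by positivity)
      simp only [dot_axpy]
      push_cast
      rw [add_div, mul_div_assoc]
      linarith

def cmp : ℕ → List ℕ → List ℕ → List ℕ → List ℕ → Bool
  | 0, _, _, _, _ => true
  | k + 1, V, B, Z, U => Nat.ble (V.headD 0) QQ &&
      Nat.ble (2 * B.headD 0 + QQ + U.headD 0) (Z.headD 0 + V.headD 0) &&
      cmp k V.tail B.tail Z.tail U.tail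

lemma cmp_ok (k : ℕ) (V B Z U : List ℕ) (h : cmp k V B Z U = true) (j : ℕ) (hj : j < k) :
    V.getD j 0 ≤ QQ ∧ 2 * B.getD j 0 + QQ + U.getD j 0 ≤ Z.getD j 0 + V.getD j 0 := by
  induction k generalizing V B Z U j with
  | zero => omega
  | succ k ih =>
    simp only [cmp, Bool.and_eq_true, Nat.ble_eq] at h
    have e0 : ∀ l : List ℕ, l.getD 0 0 = l.headD 0 := fun l => by cases l <;> simp
    have e1 : ∀ (l : List ℕ) (i : ℕ), l.getD (i + 1) 0 = l.tail.getD i 0 := fun l i => by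
      cases l <;> simp
    cases j with
    | zero => rw [e0, e0, e0, e0]; exact h.1
    | succ j => rw [e1, e1, e1, e1]; exact ih _ _ _ _ h.2 j (by omega)

def leafOK (k tn e : ℕ) (a : Acc) (z u : List ℕ × ℕ) : Bool :=
  cmp k a.V a.B z.1 u.1 &&
    Nat.ble (tn * (20000 * a.C + 2 * ((10000 + e) * QQ - 840000 * a.Y)) + 10000 * z.2)
      ((9998 + 2 * e) * QQ * SC + 10000 * u.2)

lemma leaf_ok {k tn e : ℕ} {r : ℝ} {b v : Fin k → ℝ} (a : Acc) (z u : List ℕ × ℕ)
    (h : leafOK k tn e a z u = true) (ha : a.ok ((tn : ℝ) / SC) r b v)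
    (hz : dot z.1 b ≤ (z.2 : ℝ) / SC) (hu : (u.2 : ℝ) / SC ≤ dot u.1 b) (hb : ∀ j, 0 ≤ b j) (hr : 0 ≤ r)
    (hr' : r ≤ (tn : ℝ) / SC) (hv : ∀ j, v j ≤ b j / 2) :
    (1 + (e : ℝ) / 10000) * r + ∑ j, v j ≤ 1 / 2 - (1 - (e : ℝ)) / 10000 := by
  simp only [leafOK, Bool.and_eq_true, Nat.ble_eq] at h
  obtain ⟨h1, h2⟩ := h
  have s1 : 2 * (QQ : ℝ) * ∑ j, v j + 2 * dot a.B b + dot u.1 b ≤
      2 * dot a.V v + dot z.1 b := by
    unfold dot
    rw [mul_sum, mul_sum, mul_sum, ← sum_add_distrib, ← sum_add_distrib, ← sum_add_distrib]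
    refine sum_le_sum fun j _ => ?_
    obtain ⟨g1, g2⟩ := cmp_ok _ _ _ _ _ h1 j j.2
    have g1' : (a.V.getD j 0 : ℝ) ≤ QQ := by exact_mod_cast g1
    have g2' : 2 * (a.B.getD j 0 : ℝ) + QQ + u.1.getD j 0 ≤ z.1.getD j 0 + a.V.getD j 0 := by
      exact_mod_cast g2
    have := mul_le_mul_of_nonneg_left (hv j) (sub_nonneg.2 g1')
    have := mul_le_mul_of_nonneg_right g2' (hb j)
    linarith
  set m : ℕ := (10000 + e) * QQ - 840000 * a.Y with hm
  have s2 : ((10000 + e) * QQ : ℝ) ≤ m + 840000 * a.Y := by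
    have : (10000 + e) * QQ ≤ m + 840000 * a.Y := by omega
    exact_mod_cast this
  have s3 : (tn : ℝ) * (20000 * a.C + 2 * m) + 10000 * z.2 ≤
      (9998 + 2 * e) * QQ * SC + 10000 * u.2 := by
    exact_mod_cast h2
  have hSC : (0 : ℝ) < SC := by norm_num [SC]
  have s4 : (tn : ℝ) / SC * (20000 * a.C + 2 * m) + 10000 * ((z.2 : ℝ) / SC) ≤
      (9998 + 2 * e) * QQ + 10000 * ((u.2 : ℝ) / SC) := by
    have := div_le_div_of_nonneg_right s3 hSC.le
    rw [add_div, add_div, mul_div_cancel_right₀ _ hSC.ne'] at this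
    calc _ = (tn : ℝ) * (20000 * a.C + 2 * m) / SC + 10000 * z.2 / SC := by ring
      _ ≤ _ := this
      _ = _ := by ring
  have s5 := mul_le_mul_of_nonneg_right s2 hr
  have s6 := mul_le_mul_of_nonneg_left hr' (Nat.cast_nonneg (α := ℝ) m)
  have hQ : (QQ : ℝ) = 840000000 := by norm_num [QQ]
  unfold Acc.ok at ha
  rw [hQ] at s1 s4 s5
  linarith

/-- branch tree -/
inductive Cert where
  | leaf (ys zs us : List ℕ) : Cert
  | node (t : ℕ) (κ : List ℕ) (c1 c2 c3 : Cert) : Cert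
  | mvt (κ : List ℕ) (c1 c2 : Cert) : Cert
  | cut (κ : List ℕ) (m : ℕ) (c1 c2 : Cert) : Cert

def small : List ℕ → Bool
  | [] => true
  | a :: l => Nat.ble a 64 && small l

lemma small_ok (l : List ℕ) (h : small l = true) (j : ℕ) : l.getD j 0 ≤ 64 := by
  induction l generalizing j with
  | nil => simp
  | cons a l ih =>
    simp only [small, Bool.and_eq_true, Nat.ble_eq] at h
    cases j with
    | zero => simpa using h.1
    | succ j => simpa using ih h.2 j

def chk (k tn e : ℕ) : Cert → List Hyp → Poly → Poly → Bool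
  | .leaf ys zs us, hs, P, R =>
      leafOK k tn e (acc hs ys ⟨0, 0, [], []⟩) (rows P zs ([], 0)) (rows R us ([], 0))
  | .node t κ c1 c2 c3, hs, P, R => small κ && chk k tn e c1 (br1 κ t :: hs) P R &&
      chk k tn e c2 (br2 κ t :: hs) P R && (two t || chk k tn e c3 (br3 κ t :: hs) P R)
  | .mvt κ c1 c2, hs, P, R => small κ && chk k tn e c1 (⟨κ, 168, 0, 84⟩ :: hs) P ((κ, tn) :: R) &&
      chk k tn e c2 (⟨κ, 168, 84, 0⟩ :: hs) ((κ, tn) :: P) R
  | .cut κ m c1 c2, hs, P, R => chk k tn e c1 hs P ((κ, m) :: R) && chk k tn e c2 hs ((κ, m) :: P) R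

theorem chk_ok {k tn e : ℕ} {P R : Poly} {c : Cert} (h : chk k tn e c [] P R = true) :
    Good k tn e P R := by
  intro b hb hP hR r v hr hr' hv hc
  have hcon : ∀ κ : List ℕ, small κ = true → Con ((tn : ℝ) / SC) (dot κ b) (dot κ v) r :=
    fun κ g0 => hc (fun j => κ.getD j 0) fun j => small_ok κ g0 j
  have main : ∀ (c : Cert) (hs : List Hyp) (P R : Poly), chk k tn e c hs P R = true →
      (∀ x ∈ hs, x.ok ((tn : ℝ) / SC) r b v) → Mem P b → MemL R b →
      (1 + (e : ℝ) / 10000) * r + ∑ j, v j ≤ 1 / 2 - (1 - (e : ℝ)) / 10000 := by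
    intro c
    induction c with
    | leaf ys zs us =>
      intro hs P R h hh hP hR
      exact leaf_ok _ _ _ h (acc_ok hs ys _ hh (by simp [Acc.ok, dot_nil]))
        (rows_ok P zs _ hP (by simp [dot_nil])) (rows_ok' R us _ hR (by simp [dot_nil]))
        hb hr hr' hv
    | node t κ c1 c2 c3 i1 i2 i3 =>
      intro hs P R h hh hP hR
      simp only [chk, Bool.and_eq_true, Bool.or_eq_true] at h
      obtain ⟨⟨⟨g0, g1⟩, g2⟩, g3⟩ := h
      rcases branch κ t (hcon κ g0) with g | g | ⟨g, g'⟩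
      · exact i1 _ _ _ g1 (List.forall_mem_cons.2 ⟨g, hh⟩) hP hR
      · exact i2 _ _ _ g2 (List.forall_mem_cons.2 ⟨g, hh⟩) hP hR
      · rw [g] at g3
        exact i3 _ _ _ (by simpa using g3) (List.forall_mem_cons.2 ⟨g', hh⟩) hP hR
    | mvt κ c1 c2 i1 i2 =>
      intro hs P R h hh hP hR
      simp only [chk, Bool.and_eq_true] at h
      obtain ⟨⟨g0, g1⟩, g2⟩ := h
      have h1 := (hcon κ g0).1
      rcases le_total ((tn : ℝ) / SC) (dot κ b) with g | g
      · rw [max_eq_right g] at h1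
        refine i1 _ _ _ g1 (List.forall_mem_cons.2 ⟨?_, hh⟩) hP (List.forall_mem_cons.2 ⟨g, hR⟩)
        simp only [Hyp.ok]
        push_cast
        linarith
      · rw [max_eq_left g] at h1
        refine i2 _ _ _ g2 (List.forall_mem_cons.2 ⟨?_, hh⟩) (List.forall_mem_cons.2 ⟨g, hP⟩) hR
        simp only [Hyp.ok]
        push_cast
        linarith
    | cut κ m c1 c2 i1 i2 =>
      intro hs P R h hh hP hR
      simp only [chk, Bool.and_eq_true] at h
      rcases le_total ((m : ℝ) / SC) (dot κ b) with g | g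
      · exact i1 _ _ _ h.1 hh hP (List.forall_mem_cons.2 ⟨g, hR⟩)
      · exact i2 _ _ _ h.2 hh (List.forall_mem_cons.2 ⟨g, hP⟩) hR
  exact main c [] P R h (by simp) hP hR

/-- an entry of the library: upper rows `P`, lower rows `R` -/
structure PE where
  k : ℕ
  e : ℕ
  P : Poly
  R : Poly

def PE.Good (tn : ℕ) (x : PE) : Prop := REG.Good x.k tn x.e x.P x.R

def allChk (tn : ℕ) : List PE → List Cert → Bool
  | [], _ => true
  | _ :: _, [] => false
  | x :: l, c :: cs => chk x.k tn x.e c [] x.P x.R && allChk tn l cs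

theorem allChk_ok {tn : ℕ} (l : List PE) (cs : List Cert) (h : allChk tn l cs = true) :
    ∀ x ∈ l, x.Good tn := by
  induction l generalizing cs with
  | nil => simp
  | cons x l ih =>
    cases cs with
    | nil => simp [allChk] at h
    | cons c cs =>
      simp only [allChk, Bool.and_eq_true] at h
      exact List.forall_mem_cons.2 ⟨chk_ok h.1, ih cs h.2⟩

end Pool.Agent.MP_c853c5_nt.REG
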