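import Pool.Agent.MP_c853c5_nt.S.Basic

/-!
Rules for the small primes: pure real arithmetic.
-/

set_option autoImplicit false

open Finset

namespace Pool.Agent.MP_c853c5_nt.REG

open Pool.Agent.MP_c853c5_nt.S

section three

variable {ι : Type} [Fintype ι] {τ η : ℝ} {K : ℕ} {a : ι → ℝ}

/-- two slots never carry almost all of the length -/
lemma rest_large [DecidableEq ι] (h : S.Eval τ η K a (1 / 2)) (hη : 0 < η) (hτ : 1 / 3 ≤ τ)
    (ha : ∀ j, 0 ≤ a j) (hs : ∑ j, a j = 1) (i j : ι) :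
    1 / (13 * ((K : ℝ) + 1)) ≤ ∑ k ∈ univ.filter (fun k => k ≠ i ∧ k ≠ j), a k := by
  by_contra hc
  rw [not_le, lt_div_iff₀ (by positivity)] at hc
  set R := ∑ k ∈ univ.filter (fun k => k ≠ i ∧ k ≠ j), a k with hR
  have hR0 : 0 ≤ R := sum_nonneg fun k _ => ha k
  let d : ι → ℝ := fun k => (if k = i then 1 / 200 else 0) + (if k = j then 1 / 200 else 0)
  have hd : ∀ k, 0 ≤ d k := fun k => by
    simp only [d]
    split_ifs <;> norm_num
  have e1 : ∀ κ : ι → ℕ, ∑ k, (κ k : ℝ) * (a k / 2 - d k) =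
      (∑ k, (κ k : ℝ) * a k) / 2 - ((κ i : ℝ) + κ j) / 200 := by
    intro κ
    simp only [d, mul_sub, mul_add, sum_sub_distrib, sum_add_distrib, mul_ite, mul_zero,
      sum_ite_eq', mem_univ, if_true, sum_div, mul_div_assoc]
    ring
  have key := h (1 / 100) (fun k => a k / 2 - d k) (by norm_num) (by linarith)
    (fun k => by linarith [hd k]) fun κ hκ => by
      rw [e1]
      set n := ∑ k, (κ k : ℝ) * a k with hn
      rcases Nat.eq_zero_or_pos (κ i + κ j) with e | e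
      · have ei : κ i = 0 := by omega
        have ej : κ j = 0 := by omega
        have hn1 : n ≤ K * R := by
          rw [hn, hR, mul_sum, sum_filter]
          refine sum_le_sum fun k _ => ?_
          split_ifs with c
          · exact mul_le_mul_of_nonneg_right (by exact_mod_cast hκ k) (ha k)
          · rw [not_and_or, not_not, not_not] at c
            rcases c with rfl | rfl <;> simp [ei, ej]
        have hn2 : n ≤ 1 / 13 := by nlinarith
        rw [ei, ej]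
        have m1 := le_max_left τ n
        have m2 := le_max_right n (τ / 2)
        refine ⟨?_, le_max_of_le_right ?_, le_max_of_le_right (le_max_of_le_left ?_),
          le_max_of_le_right ?_, le_max_of_le_right (le_max_of_le_right ?_)⟩ <;>
          push_cast <;> linarith
      · have e' : (1 : ℝ) ≤ κ i + κ j := by exact_mod_cast e
        have m1 := le_max_right τ n
        exact ⟨by linarith, le_max_of_le_left (by linarith), le_max_of_le_left (by linarith),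
          le_max_of_le_left (by linarith), le_max_of_le_left (by linarith)⟩
  have e2 := e1 fun _ => 1
  simp only [Nat.cast_one, one_mul, hs] at e2
  rw [e2] at key
  linarith

/-- the three large slots are automatic -/
lemma e2pt_of_eval {pr : ι → Prop} {c N : ℝ} (h : S.Eval τ η K a (1 / 2)) (hη : 0 < η)
    (hτ : 1 / 3 ≤ τ) (ha : ∀ j, 0 ≤ a j) (hs : ∑ j, a j = 1) {i : ι} (hi : pr i) (hc : c ≤ a i)
    (hN : (Fintype.card ι : ℝ) ≤ N) :
    E2pt τ (min η (min c (1 / (13 * ((K : ℝ) + 1)) / N))) K pr a := by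
  classical
  have : Nonempty ι := ⟨i⟩
  have h0 : (0 : ℝ) < Fintype.card ι := by exact_mod_cast Fintype.card_pos
  have hN0 : 0 < N := h0.trans_le hN
  set ε : ℝ := 1 / (13 * ((K : ℝ) + 1)) with hε
  have hε0 : 0 < ε := by positivity
  have h1 : (Fintype.card ι : ℝ) * (ε / N) ≤ ε := by
    rw [mul_div_assoc', div_le_iff₀ hN0]
    nlinarith
  obtain ⟨j, hj, hj'⟩ := exists_large _ (div_pos hε0 hN0)
    (h1.trans (rest_large h hη hτ ha hs i i))
  obtain ⟨k, hk, hk'⟩ := exists_large _ (div_pos hε0 hN0)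
    (h1.trans (rest_large h hη hτ ha hs i j))
  have m1 := min_le_right η (min c (ε / N))
  refine ⟨⟨i, j, k, (mem_filter.1 hj).2.1.symm, (mem_filter.1 hk).2.1.symm,
    (mem_filter.1 hk).2.2.symm, hi, (m1.trans (min_le_left _ _)).trans hc,
    (m1.trans (min_le_right _ _)).trans hj', (m1.trans (min_le_right _ _)).trans hk'⟩,
    h.mono le_rfl (min_le_left _ _) le_rfl⟩

end three

/-- a box of type II with a block of primes -/
theorem reg2_of {r : ℕ} {τ η : ℝ} {K : ℕ} {B : Fin r → Blk} (hτ : 1 / 3 ≤ τ) (hη : 0 < η)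
    {i : Fin r} (hi : (B i).IsP) (hlo : 0 < (B i).lo)
    (h : ∀ a, InBox B a → ∑ j, a j = 1 → S.Eval τ η K a (1 / 2)) : Reg2 τ B := by
  have hr : (0 : ℝ) < r := by exact_mod_cast i.pos
  exact ⟨_, by positivity, K, fun a ha hs => e2pt_of_eval (N := r) (h a ha hs) hη hτ
    (fun j => (ha j).1) hs hi (ha i).2.1 (by simp)⟩

/-- all slots: the free factor, the fixed factors, the small primes -/
def sh {ι J : Type} (a : ι → ℝ) (q : J → ℝ) (b : ℝ) : Option (ι ⊕ J) → ℝ :=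
  fun o => o.elim b (Sum.elim a q)

/-- the small primes condition on a set of points; `P` says that a fixed factor is prime -/
def DOK (τ : ℝ) {ι : Type} [Fintype ι] (P : Prop) (Ω : Set (ι → ℝ)) (z : ℝ) : Prop :=
  ∃ η : ℝ, 0 < η ∧ ∀ κ : ℝ, 0 < κ → ∃ η' : ℝ, 0 < η' ∧ ∃ K : ℕ,
    ∀ (J : Type) [Fintype J] (a : ι → ℝ) (q : J → ℝ) (b : ℝ), a ∈ Ω →
      (∀ j, q j = 0 ∨ κ ≤ q j ∧ q j ≤ z) → 0 ≤ b → ∑ i, a i + ∑ j, q j + b = 1 →
      E1pt τ η K (Sum.elim a q) b ∨
        ((P ∨ ∃ j, κ ≤ q j) ∧ S.Eval τ η' K (sh a q b) (1 / 2))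

theorem DOK.dustOK {r : ℕ} {τ z : ℝ} {B : Fin r → Blk} {P : Prop} (hτ : 1 / 3 ≤ τ)
    (hP : P → ∃ i, (B i).IsP ∧ 0 < (B i).lo) (h : DOK τ P {a | InBox B a} z) : DustOK τ B z := by
  classical
  obtain ⟨η, hη, h⟩ := h
  refine ⟨η, hη, fun κ hκ => ?_⟩
  obtain ⟨η', hη', K, h⟩ := h κ hκ
  obtain ⟨c, hc, hc1, hc2⟩ : ∃ c : ℝ, 0 < c ∧ c ≤ κ ∧ (P → ∃ i, (B i).IsP ∧ c ≤ (B i).lo) := by
    by_cases hp : P
    · obtain ⟨i, h1, h2⟩ := hP hp
      exact ⟨min κ (B i).lo, lt_min hκ h2, min_le_left _ _, fun _ => ⟨i, h1, min_le_right _ _⟩⟩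
    · exact ⟨κ, hκ, le_rfl, fun h => (hp h).elim⟩
  refine ⟨min η' (min c (1 / (13 * ((K : ℝ) + 1)) / (r + 1 / κ + 1))), by positivity, K,
    fun j a q b ha hq hb hs => ?_⟩
  refine (h (Fin j) a q b ha (fun i => Or.inr (hq i)) hb hs).imp_right fun ⟨h1, h2⟩ => ?_
  have h0 : ∀ o, 0 ≤ sh a q b o := by
    rintro (_ | i | i)
    · exact hb
    · exact (ha i).1
    · exact hκ.le.trans (hq i).1
  have hs' : ∑ o, sh a q b o = 1 := by
    rw [Fintype.sum_option, Fintype.sum_sum_type, add_comm]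
    exact hs
  have hN : (Fintype.card (Option (Fin r ⊕ Fin j)) : ℝ) ≤ r + 1 / κ + 1 := by
    have h3 : (j : ℝ) * κ ≤ ∑ i, q i := by
      simpa using card_nsmul_le_sum univ q κ fun i _ => (hq i).1
    have h4 : 0 ≤ ∑ i, a i := sum_nonneg fun i _ => (ha i).1
    have h5 : (j : ℝ) ≤ 1 / κ := (le_div_iff₀ hκ).2 (by linarith)
    simp only [Fintype.card_option, Fintype.card_sum, Fintype.card_fin]
    push_cast
    linarith
  rcases h1 with h1 | ⟨i, h1⟩
  · obtain ⟨i, h3, h4⟩ := hc2 h1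
    exact e2pt_of_eval (i := some (Sum.inl i)) h2 hη' hτ h0 hs' h3 (h4.trans (ha i).2.1) hN
  · exact e2pt_of_eval (i := some (Sum.inr i)) h2 hη' hτ h0 hs' trivial (hc1.trans h1) hN

section rules

variable {ι ι' : Type} [Fintype ι] [Fintype ι'] {τ z z' c : ℝ} {P P' : Prop}
  {Ω Ω₁ Ω₂ : Set (ι → ℝ)} {Ω' : Set (ι' → ℝ)}

/-- only points of total size at most one matter -/
theorem DOK.mono (h : DOK τ P' Ω₁ z') (hP : P' → P) (hz : z ≤ z')
    (hΩ : ∀ a ∈ Ω, ∑ i, a i ≤ 1 → a ∈ Ω₁) : DOK τ P Ω z := by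
  obtain ⟨η, hη, h⟩ := h
  refine ⟨η, hη, fun κ hκ => ?_⟩
  obtain ⟨η', hη', K, h⟩ := h κ hκ
  refine ⟨η', hη', K, fun J _ a q b ha hq hb hs => ?_⟩
  have h0 : 0 ≤ ∑ j, q j := sum_nonneg fun j _ => (hq j).elim ge_of_eq fun e => hκ.le.trans e.1
  exact (h J a q b (hΩ a ha (by linarith)) (fun j => (hq j).imp_right fun e => ⟨e.1, e.2.trans hz⟩)
    hb hs).imp_right fun e => ⟨e.1.imp_left hP, e.2⟩

theorem dok_empty : DOK τ P (∅ : Set (ι → ℝ)) z :=
  ⟨1, one_pos, fun _ _ => ⟨1, one_pos, 0, fun _ _ _ _ _ ha => ha.elim⟩⟩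

/-- combination of two statements -/
lemma dok_two (h1 : DOK τ P Ω₁ c) (h2 : DOK τ P' Ω' z')
    (h : ∀ (κ η η' : ℝ) (K : ℕ) (J : Type) [Fintype J] (a : ι → ℝ) (q : J → ℝ) (b : ℝ), 0 < κ →
      a ∈ Ω → (∀ j, q j = 0 ∨ κ ≤ q j ∧ q j ≤ z) → ∑ i, a i + ∑ j, q j + b = 1 →
      (a ∈ Ω₁ ∧ ∀ j, q j = 0 ∨ κ ≤ q j ∧ q j ≤ c) ∨ ∃ (a' : ι' → ℝ) (q' : J → ℝ), a' ∈ Ω' ∧
        (∀ j, q' j = 0 ∨ κ ≤ q' j ∧ q' j ≤ z') ∧ ∑ i, a' i + ∑ j, q' j + b = 1 ∧
        (E1pt τ η K (Sum.elim a' q') b → E1pt τ η K (Sum.elim a q) b) ∧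
        (S.Eval τ η' K (sh a' q' b) (1 / 2) → S.Eval τ η' K (sh a q b) (1 / 2)) ∧
        ((P' ∨ ∃ j, κ ≤ q' j) → P ∨ ∃ j, κ ≤ q j)) : DOK τ P Ω z := by
  obtain ⟨η1, hη1, h1⟩ := h1
  obtain ⟨η2, hη2, h2⟩ := h2
  refine ⟨min η1 η2, lt_min hη1 hη2, fun κ hκ => ?_⟩
  obtain ⟨e1, he1, K1, h1⟩ := h1 κ hκ
  obtain ⟨e2, he2, K2, h2⟩ := h2 κ hκ
  refine ⟨min e1 e2, lt_min he1 he2, max K1 K2, fun J _ a q b ha hq hb hs => ?_⟩
  rcases h κ η2 e2 K2 J a q b hκ ha hq hs with ⟨g1, g2⟩ | ⟨a', q', g1, g2, g3, g4, g5, g6⟩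
  · exact (h1 J a q b g1 g2 hb hs).imp (fun e => e.mono (le_max_left _ _) (min_le_left _ _))
      fun e => ⟨e.1, e.2.mono (le_max_left _ _) (min_le_left _ _) le_rfl⟩
  · exact (h2 J a' q' b g1 g2 hb g3).imp
      (fun e => (g4 e).mono (le_max_right _ _) (min_le_right _ _))
      fun e => ⟨g6 e.1, (g5 e.2).mono (le_max_right _ _) (min_le_right _ _) le_rfl⟩

theorem DOK.union (h1 : DOK τ P Ω₁ z) (h2 : DOK τ P Ω₂ z) (h : ∀ a ∈ Ω, a ∈ Ω₁ ∨ a ∈ Ω₂) :
    DOK τ P Ω z :=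
  dok_two h1 h2 fun _ _ _ _ _ _ a q _ _ ha hq hs => (h a ha).imp (fun e => ⟨e, hq⟩)
    fun e => ⟨a, q, e, hq, hs, id, id, id⟩

/-- merging of slots -/
noncomputable def mrg [DecidableEq ι'] (g : ι → ι') (a : ι → ℝ) : ι' → ℝ :=
  fun i => ∑ j ∈ univ.filter (fun j => g j = i), a j

lemma sum_mrg [DecidableEq ι'] (g : ι → ι') (a : ι → ℝ) : ∑ i, mrg g a i = ∑ j, a j :=
  sum_fiberwise univ g a

lemma sh_group {J J' : Type} [Fintype J] [Fintype J'] [DecidableEq ι'] [DecidableEq J']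
    {η : ℝ} {K : ℕ} {a : ι → ℝ} {a' : ι' → ℝ} {q : J → ℝ} {q' : J' → ℝ} {b s : ℝ}
    (g : ι ⊕ J → ι' ⊕ J') (h : S.Eval τ η K (sh a' q' b) s)
    (ha : ∀ i, mrg g (Sum.elim a q) i ≤ Sum.elim a' q' i) : S.Eval τ η K (sh a q b) s := by
  refine h.group (Option.map g) fun o => ?_
  rw [sum_filter, Fintype.sum_option]
  cases o with
  | none => simp [sh]
  | some i => simpa [sum_filter, sh, mrg] using ha i

theorem DOK.group [DecidableEq ι'] (h : DOK τ P Ω' z) (g : ι → ι')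
    (hg : ∀ a ∈ Ω, mrg g a ∈ Ω') : DOK τ P Ω z := by
  classical
  refine dok_two dok_empty (c := 0) h fun κ η η' K J _ a q b _ ha hq hs => Or.inr ?_
  have key : ∀ i, mrg (Sum.map g id) (Sum.elim a q) i ≤ Sum.elim (mrg g a) q i := by
    rintro (i | j) <;> simp [mrg, sum_filter]
  exact ⟨mrg g a, q, hg a ha, hq, by rwa [sum_mrg], fun e => e.group _ key,
    fun e => sh_group _ e key, id⟩

omit [Fintype ι'] in
lemma move_le {J : Type} [Fintype J] [DecidableEq J] [DecidableEq ι'] (g : ι → ι') (i₁ : ι')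
    (a : ι → ℝ) (q : J → ℝ) (j₀ : J) (o : ι' ⊕ J) :
    mrg (Sum.elim (fun i => Sum.inl (g i)) fun j => if j = j₀ then Sum.inl i₁ else Sum.inr j)
      (Sum.elim a q) o ≤ Sum.elim (fun i => mrg g a i + if i = i₁ then q j₀ else 0)
        (Function.update q j₀ 0) o := by
  refine le_of_eq ?_
  rcases o with i | j
  · simp only [mrg, sum_filter, Fintype.sum_sum_type, Sum.elim_inl, Sum.elim_inr, Sum.inl.injEq]
    congr 1
    rw [sum_eq_single j₀ (fun j _ hj => by simp [hj]) (by simp)]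
    simp [eq_comm]
  · simp only [mrg, sum_filter, Fintype.sum_sum_type, Sum.elim_inl, Sum.elim_inr]
    rw [sum_eq_single j (fun k _ hk => by by_cases e : k = j₀ <;> simp [e, hk]) (by simp)]
    by_cases e : j = j₀ <;> simp [e]

lemma move_sum {J : Type} [Fintype J] [DecidableEq J] [DecidableEq ι'] (g : ι → ι') (i₁ : ι')
    (a : ι → ℝ) (q : J → ℝ) (j₀ : J) :
    ∑ i, (mrg g a i + if i = i₁ then q j₀ else 0) + ∑ j, Function.update q j₀ 0 j =
      ∑ i, a i + ∑ j, q j := by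
  rw [sum_add_distrib, sum_mrg, sum_update_of_mem (mem_univ _),
    ← sum_sdiff (show ({j₀} : Finset J) ⊆ univ from subset_univ _) (f := q)]
  simp

lemma upd_ok {J : Type} [DecidableEq J] {κ : ℝ} {q : J → ℝ}
    (hq : ∀ j, q j = 0 ∨ κ ≤ q j ∧ q j ≤ z) (j₀ j : J) :
    Function.update q j₀ 0 j = 0 ∨ κ ≤ Function.update q j₀ 0 j ∧ Function.update q j₀ 0 j ≤ z := by
  by_cases e : j = j₀
  · simp [e]
  · simpa [e] using hq j

/-- recursion on a large prime: it is merged into the slot `i₁` -/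
theorem DOK.step [DecidableEq ι'] (h1 : DOK τ P Ω c) (h2 : DOK τ True Ω' z) (g : ι → ι')
    (i₁ : ι') (hg : ∀ a ∈ Ω, ∀ u, c ≤ u → u ≤ z →
      (fun i => mrg g a i + if i = i₁ then u else 0) ∈ Ω') : DOK τ P Ω z := by
  classical
  refine dok_two h1 h2 fun κ η η' K J _ a q b _ ha hq hs => ?_
  by_cases hc : ∀ j, q j = 0 ∨ κ ≤ q j ∧ q j ≤ c
  · exact Or.inl ⟨ha, hc⟩
  obtain ⟨j₀, hj⟩ := not_forall.1 hc
  rw [not_or, not_and, not_le] at hj
  obtain ⟨g1, g2⟩ := (hq j₀).resolve_left hj.1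
  exact Or.inr ⟨_, Function.update q j₀ 0, hg a ha _ (hj.2 g1).le g2, upd_ok hq j₀,
    by rwa [move_sum], fun e => e.group _ (move_le g i₁ a q j₀),
    fun e => sh_group _ e (move_le g i₁ a q j₀), fun _ => Or.inr ⟨j₀, g1⟩⟩

/-- type II with the whole free factor in one slot -/
theorem dok_two_of {η : ℝ} {K : ℕ} (hP : P) (hη : 0 < η)
    (h : ∀ a ∈ Ω, ∀ w, 0 ≤ w → ∑ i, a i + w = 1 →
      S.Eval τ η K (fun o : Option ι => o.elim w a) (1 / 2)) : DOK τ P Ω z := by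
  classical
  refine ⟨1, one_pos, fun κ hκ => ⟨η, hη, K, fun J _ a q b ha hq hb hs =>
    Or.inr ⟨Or.inl hP, ?_⟩⟩⟩
  have h0 : 0 ≤ ∑ j, q j := sum_nonneg fun j _ => (hq j).elim ge_of_eq fun e => hκ.le.trans e.1
  refine (h a ha (∑ j, q j + b) (by linarith) (by linarith)).group
    (fun o => o.bind (Sum.elim some fun _ => none)) fun o => le_of_eq ?_
  cases o <;> simp [sum_filter, sh, add_comm]

/-- the invariant set rule -/
theorem dok_inv [DecidableEq ι] [DecidableEq ι'] {η : ℝ} {K₁ : ℕ} (hη : 0 < η)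
    (h0 : DOK τ True Ω' z) (g : ι → ι') (i₂ : ι')
    (h1 : ∀ a ∈ Ω, ∀ b, 0 ≤ b → ∑ i, a i + b = 1 → E1pt τ η K₁ a b)
    (h2 : ∀ κ : ℝ, 0 < κ → ∃ η' : ℝ, 0 < η' ∧ ∃ K : ℕ, ∀ a ∈ Ω, ∀ u w, κ ≤ u → u ≤ z → 0 ≤ w →
      ∑ i, a i + u + w = 1 → S.Eval τ η' K (sh a (fun _ : Unit => u) w) (1 / 2) ∨
        (∃ i₁, (fun i => a i + if i = i₁ then u else 0) ∈ Ω) ∨
        (fun i => mrg g a i + if i = i₂ then u else 0) ∈ Ω') : DOK τ P Ω z := by
  classical
  obtain ⟨η0, hη0, h0⟩ := h0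
  refine ⟨min η η0, lt_min hη hη0, fun κ hκ => ?_⟩
  obtain ⟨e2, he2, K2, h2⟩ := h2 κ hκ
  obtain ⟨e0, he0, K0, h0⟩ := h0 κ hκ
  refine ⟨min e2 e0, lt_min he2 he0, max K₁ (max K2 K0), fun J _ a q b ha hq hb hs => ?_⟩
  have main : ∀ (T : Finset J) (a : ι → ℝ) (q : J → ℝ), (∀ j, j ∉ T → q j = 0) → a ∈ Ω →
      (∀ j, q j = 0 ∨ κ ≤ q j ∧ q j ≤ z) → ∑ i, a i + ∑ j, q j + b = 1 →
      E1pt τ (min η η0) (max K₁ (max K2 K0)) (Sum.elim a q) b ∨
        ((∃ j, κ ≤ q j) ∧ S.Eval τ (min e2 e0) (max K₁ (max K2 K0)) (sh a q b) (1 / 2)) := by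
    intro T
    induction T using Finset.induction_on with
    | empty =>
      intro a q h0 ha _ hs
      obtain rfl : q = fun _ => 0 := funext fun j => h0 j (notMem_empty j)
      have e := (h1 a ha b hb (by simpa using hs)).mono (le_max_left _ (max K2 K0))
        (min_le_left _ η0)
      refine Or.inl ⟨e.1, e.2.group (fun o => o.bind (Sum.elim some fun _ => none))
        fun o => le_of_eq ?_⟩
      cases o <;> simp [sum_filter]
    | insert j₀ T _ ih =>
      intro a q hT ha hq hs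
      rcases hq j₀ with e | e
      · exact ih a q (fun j hj => by
          by_cases c : j = j₀
          · rwa [c]
          · exact hT j (by simp [c, hj])) ha hq hs
      have hu : ∑ j, Function.update q j₀ 0 j + q j₀ = ∑ j, q j := by
        rw [sum_update_of_mem (mem_univ _),
          ← sum_sdiff (show ({j₀} : Finset J) ⊆ univ from subset_univ _) (f := q)]
        simp
      have h3 : 0 ≤ ∑ j, Function.update q j₀ 0 j :=
        sum_nonneg fun j _ => (upd_ok hq j₀ j).elim ge_of_eq fun e => hκ.le.trans e.1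
      rcases h2 a ha (q j₀) (∑ j, Function.update q j₀ 0 j + b) e.1 e.2 (by linarith)
        (by linarith) with c | ⟨i₁, c⟩ | c
      · refine Or.inr ⟨⟨j₀, e.1⟩, (c.mono ((le_max_left _ _).trans (le_max_right _ _))
          (min_le_left _ _) le_rfl).group (fun o : Option (ι ⊕ J) => o.bind (Sum.elim
          (fun i => some (Sum.inl i)) fun j => if j = j₀ then some (Sum.inr ()) else none))
          fun o => le_of_eq ?_⟩
        rw [sum_filter, Fintype.sum_option, Fintype.sum_sum_type]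
        rcases o with _ | i | i
        · simp only [sh, Option.bind, Option.elim, Sum.elim_inl, Sum.elim_inr, if_true,
            reduceCtorEq, if_false, sum_const_zero, zero_add]
          rw [add_comm]
          congr 1
          refine sum_congr rfl fun j _ => ?_
          by_cases c : j = j₀ <;> simp [c]
        · simp only [sh, Option.bind, Option.elim, Sum.elim_inl, Sum.elim_inr]
          rw [sum_eq_zero (s := (univ : Finset J)) fun j _ => by
            by_cases c : j = j₀ <;> simp [c]]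
          simp
        · simp only [sh, Option.bind, Option.elim, Sum.elim_inl, Sum.elim_inr]
          rw [sum_eq_single (s := (univ : Finset J)) j₀ (fun j _ hj => by simp [hj]) (by simp)]
          simp
      · have hm : mrg id a = a := funext fun i => by simp [mrg, sum_filter]
        have k1 := move_le id i₁ a q j₀
        have k2 := move_sum id i₁ a q j₀
        rw [hm] at k1 k2
        refine (ih _ (Function.update q j₀ 0) (fun j hj => by
          by_cases c : j = j₀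
          · simp [c]
          · simpa [c] using hT j (by simp [c, hj])) c (upd_ok hq j₀) (by rwa [k2])).imp
          (fun e => e.group _ k1) fun e' => ⟨⟨j₀, e.1⟩, sh_group _ e'.2 k1⟩
      · have k1 := move_le g i₂ a q j₀
        have m : K0 ≤ max K₁ (max K2 K0) := (le_max_right _ _).trans (le_max_right _ _)
        exact (h0 J _ (Function.update q j₀ 0) b c (upd_ok hq j₀) hb (by rwa [move_sum])).imp
          (fun e => (e.mono m (min_le_right _ _)).group _ k1)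
          fun e' => ⟨⟨j₀, e.1⟩, sh_group _ (e'.2.mono m (min_le_right _ _) le_rfl) k1⟩
  exact (main univ a q (by simp) ha hq hs).imp_right fun e => ⟨Or.inr e.1, e.2⟩

end rules

end Pool.Agent.MP_c853c5_nt.REG
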