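import Pool.Agent.MP_c853c5_nt.REG.In
import Pool.Agent.MP_c853c5_nt.REG.Dust

/-!
A checker for the small primes condition.
-/

set_option autoImplicit false

open Finset

namespace Pool.Agent.MP_c853c5_nt.REG

open Pool.Agent.MP_c853c5_nt.S

/-- a box of abstract slots, a coupling `fl ≤ slot 0 + slot 1`, a flag for a fixed prime factor
and the bound for the small primes -/
structure St where
  lo : List ℕ
  hi : List ℕ
  fl : ℕ
  p : Bool
  z : ℕ

def St.Om (s : St) {ι : Type} [Fintype ι] (G : ι → ℕ) : Set (ι → ℝ) :=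
  {a | (∀ j, 0 ≤ a j) ∧ InB s.lo.length s.lo s.hi (asum G a) ∧
    (s.fl : ℝ) / SC ≤ asum G a 0 + asum G a 1}

def St.Hold (tn : ℕ) (s : St) : Prop :=
  ∀ (ι : Type) [Fintype ι] (G : ι → ℕ), (∀ j, G j < s.lo.length) →
    DOK ((tn : ℝ) / SC) (s.p = true) (s.Om G) ((s.z : ℝ) / SC)

/-! ### sums over selected slots -/

def sel (φ : ℕ → Bool) (g v : List ℕ) : ℕ := sm (fun c l _ => bif φ c then l else 0) g v []

/-- the selected part of a point -/
noncomputable def selR (φ : ℕ → Bool) (g : List ℕ) (A : ℕ → ℝ) : ℝ :=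
  ∑ n ∈ range g.length, (if φ (g.getD n 0) then 1 else 0) * A n

lemma sel_cast (φ : ℕ → Bool) (g v : List ℕ) :
    (sel φ g v : ℝ) / SC = selR φ g fun n => (v.getD n 0 : ℝ) / SC := by
  rw [sel, sm_eq, Nat.cast_sum, sum_div]
  exact sum_congr rfl fun n _ => by cases φ (g.getD n 0) <;> simp

lemma selR_mono (φ : ℕ → Bool) (g : List ℕ) {A A' : ℕ → ℝ} (h : ∀ n < g.length, A n ≤ A' n) :
    selR φ g A ≤ selR φ g A' :=
  sum_le_sum fun n hn => mul_le_mul_of_nonneg_left (h n (mem_range.1 hn)) (by positivity)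

lemma selR_cons (φ : ℕ → Bool) (c : ℕ) (g : List ℕ) (A : ℕ → ℝ) :
    selR φ (c :: g) A = (if φ c then 1 else 0) * A 0 + selR φ g fun n => A (n + 1) := by
  rw [selR, List.length_cons, sum_range_succ', add_comm]
  rfl

lemma selR_asum {ι : Type} [Fintype ι] {G : ι → ℕ} {g : List ℕ} (hG : ∀ j, G j < g.length)
    (φ : ℕ → Bool) (a : ι → ℝ) :
    selR φ g (asum G a) = ∑ j, (if φ (g.getD (G j) 0) then 1 else 0) * a j :=
  sum_asum hG a fun n => if φ (g.getD n 0) then 1 else 0

/-- lower bound for the selected slots, with the coupling -/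
def lb (s : St) (φ : ℕ → Bool) (g : List ℕ) : ℕ :=
  sel φ g s.lo + match g with
    | c0 :: c1 :: _ => bif φ c0 && φ c1 then s.fl - (s.lo.getD 0 0 + s.lo.getD 1 0) else 0
    | _ => 0

lemma lb_ok {s : St} {φ : ℕ → Bool} {g : List ℕ} {A : ℕ → ℝ} (h : InB g.length s.lo s.hi A)
    (hf : (s.fl : ℝ) / SC ≤ A 0 + A 1) : (lb s φ g : ℝ) / SC ≤ selR φ g A := by
  have h0 : (sel φ g s.lo : ℝ) / SC ≤ selR φ g A := by
    rw [sel_cast]
    exact selR_mono φ g fun n hn => (h n hn).1
  unfold lb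
  split
  · rename_i c0 c1 g
    cases e : (φ c0 && φ c1)
    · simpa using h0
    rcases le_total s.fl (s.lo.getD 0 0 + s.lo.getD 1 0) with c | c
    · rw [Nat.sub_eq_zero_of_le c]
      simpa using h0
    rw [Bool.and_eq_true] at e
    have h1 := selR_mono φ g (A := fun n => (s.lo.getD (n + 1 + 1) 0 : ℝ) / SC)
      (A' := fun n => A (n + 1 + 1)) fun n hn => (h (n + 1 + 1) (by simp; omega)).1
    rw [cond_true, Nat.cast_add, add_div, sel_cast, Nat.cast_sub c, Nat.cast_add, sub_div, add_div]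
    simp only [selR_cons, e.1, e.2, if_true, zero_add, one_mul]
    linarith
  · simpa using h0

/-! ### the rules -/

variable {tn : ℕ} {s : St}

lemma St.tot {ι : Type} [Fintype ι] {G : ι → ℕ} (hG : ∀ j, G j < s.lo.length) (a : ι → ℝ) :
    selR (fun _ => true) s.lo (asum G a) = ∑ j, a j := by
  simp [selR_asum hG]

def zeroOK (s : St) (n : ℕ) : Bool :=
  Nat.blt SC (lb s (fun _ => true) s.lo) ||
    (Nat.blt n s.lo.length && Nat.blt (s.hi.getD n 0) (s.lo.getD n 0))

lemma hold_zero {n : ℕ} (h : zeroOK s n = true) : s.Hold tn := by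
  intro ι _ G hG
  refine dok_empty.mono id le_rfl fun a ha hs => ?_
  simp only [zeroOK, Bool.or_eq_true, Bool.and_eq_true, Nat.blt_eq] at h
  rcases h with h | h
  · have h1 := lb_ok (φ := fun _ => true) ha.2.1 ha.2.2
    rw [St.tot hG, div_le_iff₀ SC_pos] at h1
    have h2 : (SC : ℝ) < lb s (fun _ => true) s.lo := by exact_mod_cast h
    nlinarith [SC_pos]
  · have h1 := (ha.2.1 n h.1).1.trans (ha.2.1 n h.1).2
    rw [div_le_div_iff_of_pos_right SC_pos] at h1
    exact absurd h.2 (not_lt.2 (by exact_mod_cast h1))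

def St.grp (s : St) (m : ℕ) (g : List ℕ) : St :=
  ⟨(List.range m).map fun n => lb s (fun c => Nat.beq c n) g,
    (List.range m).map fun n =>
      min (sel (fun c => Nat.beq c n) g s.hi) (SC - lb s (fun c => !Nat.beq c n) g),
    0, s.p, s.z⟩

def grpOK (s : St) (m : ℕ) (g : List ℕ) : Bool :=
  Nat.beq g.length s.lo.length && g.all fun i => Nat.blt i m

lemma getD_range (f : ℕ → ℕ) {m n : ℕ} (h : n < m) : ((List.range m).map f).getD n 0 = f n := by
  simp [List.getD_eq_getElem?_getD, h]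

lemma hold_grp {m : ℕ} {g : List ℕ} (hg : grpOK s m g = true) (h : (s.grp m g).Hold tn) :
    s.Hold tn := by
  intro ι _ G hG
  simp only [grpOK, Bool.and_eq_true, Nat.beq_eq] at hg
  rw [← hg.1] at hG
  have hm : (s.grp m g).lo.length = m := by simp [St.grp]
  refine (h ι (fun j => g.getD (G j) 0) fun j => (all_lt hg.2 (hG j)).trans_eq hm.symm).mono id le_rfl
    fun a ha hs => ⟨ha.1, fun n hn => ?_, ?_⟩
  · rw [hm] at hn
    have hA : InB g.length s.lo s.hi (asum G a) := hg.1 ▸ ha.2.1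
    have e : asum (fun j => g.getD (G j) 0) a n = selR (fun c => Nat.beq c n) g (asum G a) := by
      rw [selR_asum hG, asum, sum_filter]
      exact sum_congr rfl fun j _ => by simp
    have e2 : selR (fun c => Nat.beq c n) g (asum G a) +
        selR (fun c => !Nat.beq c n) g (asum G a) = ∑ j, a j := by
      rw [selR_asum hG, selR_asum hG, ← sum_add_distrib]
      exact sum_congr rfl fun j _ => by cases Nat.beq (g.getD (G j) 0) n <;> simp
    have h1 := lb_ok (φ := fun c => !Nat.beq c n) hA ha.2.2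
    have h0 := asum_nonneg (fun j => g.getD (G j) 0) ha.1 n
    simp only [St.grp, getD_range _ hn]
    rw [e] at h0 ⊢
    refine ⟨lb_ok hA ha.2.2, ?_⟩
    rw [Nat.cast_min, ← min_div_div_right SC_pos.le]
    refine le_min ?_ ?_
    · rw [sel_cast]
      exact selR_mono _ g fun k hk => (hA k hk).2
    · have h2 : (SC : ℝ) - lb s (fun c => !Nat.beq c n) g ≤
          ((SC - lb s (fun c => !Nat.beq c n) g : ℕ) : ℝ) := by
        rw [sub_le_iff_le_add]
        exact_mod_cast le_tsub_add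
      rw [div_le_iff₀ SC_pos] at h1
      rw [le_div_iff₀ SC_pos]
      nlinarith [SC_pos]
  · simpa [St.grp] using add_nonneg (asum_nonneg _ ha.1 0) (asum_nonneg _ ha.1 1)

def cover (s t : St) : Bool :=
  Nat.beq t.lo.length s.lo.length && Nat.beq t.fl 0 && Nat.ble s.z t.z && (!t.p || s.p) &&
    (List.range s.lo.length).all fun n =>
      Nat.ble (t.lo.getD n 0) (s.lo.getD n 0) && Nat.ble (s.hi.getD n 0) (t.hi.getD n 0)

lemma cast_div_le {a b : ℕ} (h : a ≤ b) : (a : ℝ) / SC ≤ (b : ℝ) / SC :=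
  div_le_div_of_nonneg_right (by exact_mod_cast h) SC_pos.le

lemma hold_cover {t : St} (hc : cover s t = true) (h : t.Hold tn) : s.Hold tn := by
  intro ι _ G hG
  simp only [cover, Bool.and_eq_true, Nat.beq_eq, Nat.ble_eq, List.all_eq_true, List.mem_range,
    Bool.or_eq_true, Bool.not_eq_true'] at hc
  obtain ⟨⟨⟨⟨h1, h2⟩, h3⟩, h4⟩, h5⟩ := hc
  refine (h ι G (h1 ▸ hG)).mono (fun e => h4.resolve_left (by simp [e])) (cast_div_le h3)
    fun a ha _ => ⟨ha.1, fun n hn => ?_, ?_⟩
  · rw [h1] at hn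
    exact ⟨(cast_div_le (h5 n hn).1).trans (ha.2.1 n hn).1,
      (ha.2.1 n hn).2.trans (cast_div_le (h5 n hn).2)⟩
  · simpa [h2] using add_nonneg (asum_nonneg _ ha.1 0) (asum_nonneg _ ha.1 1)

def St.tight (s : St) : St :=
  match s.lo with
  | l0 :: l1 :: l =>
    ⟨max l0 (s.fl - s.hi.getD 1 0) :: max l1 (s.fl - s.hi.getD 0 0) :: l, s.hi, s.fl, s.p, s.z⟩
  | _ => s

lemma max_sub_le {l f h : ℕ} {x y : ℝ} (h1 : (l : ℝ) / SC ≤ x) (h2 : y ≤ (h : ℝ) / SC)
    (h3 : (f : ℝ) / SC ≤ x + y) : ((max l (f - h) : ℕ) : ℝ) / SC ≤ x := by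
  rcases le_total (f - h) l with c | c
  · rwa [max_eq_left c]
  rcases le_total f h with d | d
  · rw [Nat.sub_eq_zero_of_le d, max_eq_left (Nat.zero_le _)]
    exact h1
  · rw [max_eq_right c, Nat.cast_sub d, sub_div]
    linarith

lemma hold_tight (h : s.tight.Hold tn) : s.Hold tn := by
  obtain ⟨lo, hi, fl, p, z⟩ := s
  match lo, h with
  | [], h => exact h
  | [_], h => exact h
  | l0 :: l1 :: l, h =>
    intro ι _ G hG
    refine (h ι G hG).mono id le_rfl fun a ha _ => ⟨ha.1, fun n hn => ?_, ha.2.2⟩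
    have h0 := ha.2.1 0 (by simp)
    have h1 := ha.2.1 1 (by simp)
    refine ⟨?_, (ha.2.1 n hn).2⟩
    match n, hn with
    | 0, _ => exact max_sub_le h0.1 h1.2 ha.2.2
    | 1, _ => exact max_sub_le h1.1 h0.2 (ha.2.2.trans_eq (add_comm _ _))
    | n + 2, hn => exact (ha.2.1 (n + 2) hn).1

lemma getD_set (l : List ℕ) (n c k : ℕ) :
    (l.set n c).getD k 0 = l.getD k 0 ∨ (k = n ∧ (l.set n c).getD k 0 = c) := by
  simp only [List.getD_eq_getElem?_getD, List.getElem?_set]
  split_ifs with h1 h2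
  · exact Or.inr ⟨h1.symm, rfl⟩
  · left
    rw [← h1, List.getElem?_eq_none (not_lt.1 h2)]
  · exact Or.inl rfl

lemma hold_split {n c : ℕ} (h1 : St.Hold tn ⟨s.lo, s.hi.set n c, s.fl, s.p, s.z⟩)
    (h2 : St.Hold tn ⟨s.lo.set n c, s.hi, s.fl, s.p, s.z⟩) : s.Hold tn := by
  intro ι _ G hG
  refine (h1 ι G hG).union (h2 ι G (by simpa using hG)) fun a ha => ?_
  refine (le_total (asum G a n) ((c : ℝ) / SC)).imp
    (fun e => ⟨ha.1, fun k hk => ⟨(ha.2.1 k hk).1, ?_⟩, ha.2.2⟩)
    fun e => ⟨ha.1, fun k hk => ?_, ha.2.2⟩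
  · rcases getD_set s.hi n c k with e' | ⟨rfl, e'⟩ <;> rw [e']
    · exact (ha.2.1 k hk).2
    · exact e
  · have hk' : k < s.lo.length := by simpa using hk
    refine ⟨?_, (ha.2.1 k hk').2⟩
    rcases getD_set s.lo n c k with e' | ⟨rfl, e'⟩ <;> rw [e']
    · exact (ha.2.1 k hk').1
    · exact e

section opt

variable {ι : Type} [Fintype ι]

lemma asum_opt (G : ι → ℕ) (m : ℕ) (a : ι → ℝ) (u : ℝ) (n : ℕ) :
    asum (fun o : Option ι => o.elim m G) (fun o => o.elim u a) n =
      (if m = n then u else 0) + asum G a n := by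
  rw [asum, asum, sum_filter, sum_filter, Fintype.sum_option]
  rfl

lemma asum_zero {G : ι → ℕ} {m : ℕ} (hG : ∀ j, G j < m) (a : ι → ℝ) {n : ℕ} (hn : m ≤ n) :
    asum G a n = 0 :=
  sum_eq_zero fun j hj => absurd (mem_filter.1 hj).2 ((hG j).trans_le hn).ne

lemma mrg_some [DecidableEq ι] (a : ι → ℝ) (u : ℝ) :
    (fun i => mrg some a i + if i = none then u else 0) = fun o : Option ι => o.elim u a := by
  funext o
  cases o <;> simp [mrg, sum_filter]

/-- a new last slot -/
lemma om_snoc {G : ι → ℕ} (hG : ∀ j, G j < s.lo.length) (hl : s.hi.length = s.lo.length)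
    {a : ι → ℝ} (ha : a ∈ s.Om G) {c d : ℕ} {u : ℝ} (h1 : (c : ℝ) / SC ≤ u)
    (h2 : u ≤ (d : ℝ) / SC) (p : Bool) (z : ℕ) :
    (fun o : Option ι => o.elim u a) ∈ St.Om ⟨s.lo ++ [c], s.hi ++ [d], s.fl, p, z⟩
      fun o : Option ι => o.elim s.lo.length G := by
  have h0 : 0 ≤ u := (div_nonneg (Nat.cast_nonneg c) SC_pos.le).trans h1
  refine ⟨fun o => by cases o; exacts [h0, ha.1 _], fun n hn => ?_, ha.2.2.trans ?_⟩
  · rw [asum_opt]
    rcases Nat.lt_succ_iff_lt_or_eq.1 (by simpa using hn : n < s.lo.length + 1) with e | rfl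
    · rw [if_neg e.ne', zero_add, List.getD_append _ _ _ _ e, List.getD_append _ _ _ _ (hl ▸ e)]
      exact ha.2.1 n e
    · rw [if_pos rfl, asum_zero hG a le_rfl, add_zero, List.getD_append_right _ _ _ _ le_rfl,
        List.getD_append_right _ _ _ _ hl.le]
      simpa [hl] using ⟨h1, h2⟩
  · rw [asum_opt, asum_opt]
    split_ifs <;> linarith

omit [Fintype ι] in
lemma opt_lt {G : ι → ℕ} {m : ℕ} (hG : ∀ j, G j < m) (o : Option ι) : o.elim m G < m + 1 := by
  cases o
  · simp
  · exact (hG _).trans (Nat.lt_succ_self m)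

end opt

lemma hold_step {c : ℕ} (hl : s.hi.length = s.lo.length)
    (h1 : St.Hold tn ⟨s.lo, s.hi, s.fl, s.p, c⟩)
    (h2 : St.Hold tn ⟨s.lo ++ [c], s.hi ++ [s.z], s.fl, true, s.z⟩) : s.Hold tn := by
  classical
  intro ι _ G hG
  refine (h1 ι G hG).step ((h2 (Option ι) (fun o => o.elim s.lo.length G)
    (by simpa using opt_lt hG)).mono (fun _ => trivial) le_rfl fun _ h _ => h) some none
    fun a ha u e1 e2 => ?_
  rw [mrg_some]
  exact om_snoc hG hl ha e1 e2 _ _

def t2OK (L : Lib) (s : St) (id : ℕ) (g : List ℕ) : Bool :=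
  s.p && Nat.beq s.hi.length s.lo.length && Nat.beq g.length (s.lo.length + 1) &&
    in2 L id g (s.lo ++ [0]) (s.hi ++ [SC]) s.fl

lemma hold_t2 {L : Lib} (hL : LibOK tn L) {id : ℕ} {g : List ℕ} (h : t2OK L s id g = true) :
    s.Hold tn := by
  intro ι _ G hG
  simp only [t2OK, Bool.and_eq_true, Nat.beq_eq] at h
  obtain ⟨⟨⟨h1, h2⟩, h3⟩, h4⟩ := h
  refine dok_two_of (η := 1 / 10000) (K := 64) h1 (by norm_num) fun a ha w hw hs => ?_
  have h5 : 0 ≤ ∑ i, a i := sum_nonneg fun i _ => ha.1 i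
  have h6 := om_snoc hG h2 ha (c := 0) (d := SC) (u := w) (by simpa using hw)
    (by rw [div_self SC_pos.ne']; linarith) true 0
  refine in2_ok hL h4 _ (fun o : Option ι => o.elim s.lo.length G) (h3 ▸ opt_lt hG) h6.1
    (by simpa [h3] using h6.2.1) ?_ h6.2.2
  rw [Fintype.sum_option, add_comm]
  exact hs

/-- the window test; the slots marked `0` go with slot `0` -/
def winOK (tn th z0 : ℕ) (mask olo ohi : List ℕ) : Bool :=
  Nat.beq z0 0 || (Nat.beq mask.length olo.length && Nat.ble z0 100000 &&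
    Nat.ble (z0 + 2 * tn) SC &&
    Nat.ble (z0 + 2 * tn + 400) (2 * (th + sel (fun c => Nat.beq c 0) mask olo)) &&
    Nat.ble (z0 + 2 * tn + 400 + 2 * (th + sel (fun c => Nat.beq c 0) mask ohi)) (2 * SC))

lemma win_group {ι : Type} [Fintype ι] {τ η x u w : ℝ} {K : ℕ} {a : ι → ℝ}
    (h : S.Eval τ η K ![x, 1 - x - u, u] (1 / 2)) (φ : ι → Bool)
    (e : x = ∑ j, (if φ j then 1 else 0) * a j) (hs : ∑ i, a i + u + w = 1) :
    S.Eval τ η K (sh a (fun _ : Unit => u) w) (1 / 2) := by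
  refine h.group (fun o : Option (ι ⊕ Unit) => o.elim 1 (Sum.elim
    (fun j => if φ j then 0 else 1) fun _ => 2)) fun i => le_of_eq ?_
  rw [sum_filter, Fintype.sum_option, Fintype.sum_sum_type]
  have e1 : ∀ k : Fin 3, ∑ j, (if (if φ j then 0 else 1 : Fin 3) = k then a j else 0) =
      if k = 0 then x else if k = 1 then ∑ j, a j - x else 0 := by
    intro k
    rw [e, ← sum_sub_distrib]
    fin_cases k
    · exact sum_congr rfl fun j _ => by cases φ j <;> simp
    · exact sum_congr rfl fun j _ => by cases φ j <;> simp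
    · exact sum_eq_zero fun j _ => by cases φ j <;> simp
  refine (congrArg₂ (· + ·) rfl (congrArg₂ (· + ·) (e1 i) rfl)).trans ?_
  fin_cases i <;> simp [sh]
  linarith

/-- room for the new slot `1` -/
def sft : ℕ → ℕ
  | 0 => 0
  | n + 1 => n + 2

lemma inv_core {L : Lib} (hL : LibOK tn L) (h13 : SC ≤ 3 * tn) (h12 : 2 * tn ≤ SC)
    {l th id g0 z0 z : ℕ} {g mask olo ohi : List ℕ} (hg : g.length = olo.length + 1)
    (h1 : in1 L tn id g0 g (th :: ohi) = true) (hw : winOK tn th z0 mask olo ohi = true)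
    (h2 : z ≤ z0 ∨ St.Hold tn ⟨l :: z0 :: olo, th :: z :: ohi, th, true, z⟩)
    {ι : Type} [Fintype ι] (G : ι → ℕ) (hG : ∀ j, G j < olo.length + 1) (j₀ : ι) (hj : G j₀ = 0)
    (P : Prop) :
    DOK ((tn : ℝ) / SC) P (St.Om ⟨l :: olo, th :: ohi, 0, true, z⟩ G) ((z : ℝ) / SC) := by
  classical
  have hSC : (SC : ℝ) = 1000000 := by norm_num [SC]
  let G' : Option ι → ℕ := fun o => o.elim 1 fun j => sft (G j)
  have h0 : DOK ((tn : ℝ) / SC) True {a | ¬ z ≤ z0 ∧
      a ∈ St.Om ⟨l :: z0 :: olo, th :: z :: ohi, th, true, z⟩ G'} ((z : ℝ) / SC) := by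
    rcases h2 with h2 | h2
    · exact dok_empty.mono _root_.id le_rfl fun a ha _ => ha.1 h2
    · refine (h2 (Option ι) G' fun o => ?_).mono (fun _ => trivial) le_rfl fun a ha _ => ha.2
      cases o with
      | none => simp [G']
      | some j =>
        have := hG j
        simp only [G', Option.elim, List.length_cons]
        generalize G j = n at this
        cases n <;> simp only [sft] <;> omega
  refine dok_inv (η := 1 / 10000) (K₁ := 64) (by norm_num) h0 some none
    (fun a ha b _ hs => in1_ok hL h1 a b G (hg ▸ hG)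
      (fun n hn => (ha.2.1 n (by simpa [hg] using hn)).2) hs)
    fun κ hκ => ⟨min (κ / 2) (1 / 10000), by positivity, ⌈1 / κ⌉₊, fun a ha u w u1 u2 hw0 hs => ?_⟩
  have hu : 0 < u := hκ.trans_le u1
  have a0 := ha.2.1 0 (by simp)
  simp only [List.getD_cons_zero] at a0
  rcases le_total (asum G a 0 + u) ((th : ℝ) / SC) with c | c
  · have e : ∀ n, asum G (fun i => a i + if i = j₀ then u else 0) n =
        asum G a n + if n = 0 then u else 0 := fun n => by
      rw [asum, sum_add_distrib, sum_ite_eq']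
      simp only [mem_filter, mem_univ, true_and, hj, @eq_comm _ 0 n]
      rfl
    refine Or.inr (Or.inl ⟨j₀, fun i => add_nonneg (ha.1 i) (by positivity), fun n hn => ?_, ?_⟩)
    · rw [e]
      cases n with
      | zero => exact ⟨by simpa using a0.1.trans (by linarith), by simpa using c⟩
      | succ n => simpa using ha.2.1 (n + 1) hn
    · have := fun n => asum_nonneg G ha.1 n
      rw [e, e]
      simpa using add_nonneg (add_nonneg (this 0) hu.le) (this 1)
  rcases le_or_gt u ((z0 : ℝ) / SC) with d | d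
  · left
    have hz : z0 ≠ 0 := fun e => by
      rw [e] at d
      simp only [Nat.cast_zero, zero_div] at d
      linarith
    simp only [winOK, Bool.or_eq_true, Bool.and_eq_true, Nat.beq_eq, Nat.ble_eq, hz,
      false_or] at hw
    obtain ⟨⟨⟨⟨w1, w2⟩, w3⟩, w4⟩, w5⟩ := hw
    have hG' : ∀ j, G j < (0 :: mask).length := by simpa [w1] using hG
    have e := selR_asum hG' (fun c => Nat.beq c 0) a
    set R := selR (fun c => Nat.beq c 0) mask fun n => asum G a (n + 1) with hR
    have r1 : (sel (fun c => Nat.beq c 0) mask olo : ℝ) / SC ≤ R := by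
      rw [sel_cast]
      exact selR_mono _ _ fun n hn => (ha.2.1 (n + 1) (by simpa [← w1] using hn)).1
    have r2 : R ≤ (sel (fun c => Nat.beq c 0) mask ohi : ℝ) / SC := by
      rw [sel_cast]
      exact selR_mono _ _ fun n hn => (ha.2.1 (n + 1) (by simpa [← w1] using hn)).2
    rw [selR_cons, ← hR, Nat.beq_refl, if_pos rfl, one_mul] at e
    have v1 : (SC : ℝ) ≤ 3 * tn := by exact_mod_cast h13
    have v2 : 2 * (tn : ℝ) ≤ SC := by exact_mod_cast h12
    have v3 : (z0 : ℝ) ≤ 100000 := by exact_mod_cast w2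
    have v4 : (z0 : ℝ) + 2 * tn ≤ SC := by exact_mod_cast w3
    have v5 : (z0 : ℝ) + 2 * tn + 400 ≤ 2 * (th + sel (fun c => Nat.beq c 0) mask olo) := by
      exact_mod_cast w4
    have v6 : (z0 : ℝ) + 2 * tn + 400 + 2 * (th + sel (fun c => Nat.beq c 0) mask ohi) ≤
        2 * SC := by exact_mod_cast w5
    rw [hSC] at *
    have key := window (K := ⌈1 / κ⌉₊) (τ := (tn : ℝ) / 1000000) (κ := κ) (s := 1 / 5000)
      (η := min (κ / 2) (1 / 10000)) (a0 := asum G a 0 + R) (a1 := 1 - (asum G a 0 + R) - u)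
      (p := u) (by linarith) (by linarith) hκ u1 (by linarith) (by linarith) (by norm_num)
      (by ring) (by linarith) (by linarith [a0.2]) (Nat.le_ceil _) (min_le_left _ _)
      ((min_le_right _ _).trans (by norm_num))
    exact win_group key _ e hs
  · refine Or.inr (Or.inr ⟨fun e => ?_, ?_⟩)
    · linarith [cast_div_le e]
    rw [mrg_some]
    have e : ∀ n, asum G' (fun o => o.elim u a) (sft n) = asum G a n := fun n => by
      rw [asum_opt, if_neg (by cases n <;> simp [sft]), zero_add]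
      refine sum_congr (filter_congr fun j _ => ?_) fun _ _ => rfl
      beta_reduce
      generalize G j = k
      cases n <;> cases k <;> simp [sft]
    have e1 : asum G' (fun o => o.elim u a) 1 = u := by
      rw [asum_opt, if_pos rfl, asum, sum_eq_zero, add_zero]
      intro j hj
      have : sft (G j) = 1 := (mem_filter.1 hj).2
      generalize G j = k at this
      cases k <;> simp [sft] at this
    refine ⟨fun o => by cases o; exacts [hu.le, ha.1 _], fun n hn => ?_, ?_⟩
    · match n, hn with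
      | 0, _ => exact (e 0).symm ▸ a0
      | 1, _ => exact e1.symm ▸ ⟨d.le, u2⟩
      | n + 2, hn => exact (e (n + 1)).symm ▸ ha.2.1 (n + 1) (by simpa using hn)
    · rw [e1, show asum G' (fun o => o.elim u a) 0 = asum G a 0 from e 0]
      exact c

def invOK (L : Lib) (tn : ℕ) (s : St) (th id g0 z0 : ℕ) (g mask : List ℕ) : Bool :=
  Nat.blt 0 s.lo.length && Nat.beq g.length s.lo.length && Nat.ble (s.hi.headD 0) th &&
    in1 L tn id g0 g (th :: s.hi.tail) && winOK tn th z0 mask s.lo.tail s.hi.tail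

/-- the state after the threshold is crossed -/
def St.cross (s : St) (th z0 : ℕ) : St :=
  ⟨s.lo.headD 0 :: z0 :: s.lo.tail, th :: s.z :: s.hi.tail, th, true, s.z⟩

lemma hold_inv {L : Lib} (hL : LibOK tn L) (h13 : SC ≤ 3 * tn) (h12 : 2 * tn ≤ SC)
    {th id g0 z0 : ℕ} {g mask : List ℕ} (h : invOK L tn s th id g0 z0 g mask = true)
    (h2 : s.z ≤ z0 ∨ (s.cross th z0).Hold tn) : s.Hold tn := by
  classical
  obtain ⟨lo, hi, fl, p, z⟩ := s
  simp only [invOK, Bool.and_eq_true, Nat.blt_eq, Nat.beq_eq, Nat.ble_eq] at h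
  obtain ⟨⟨⟨⟨h0, h3⟩, h4⟩, h5⟩, h6⟩ := h
  match lo, h0, h3, h6, h2 with
  | l :: olo, _, h3, h6, h2 =>
    intro ι _ G hG
    refine (inv_core hL h13 h12 h3 h5 h6 h2 (fun o : Option ι => o.elim 0 G)
      (fun o => by cases o; exacts [Nat.succ_pos _, hG _]) none rfl _).group some fun a ha => ?_
    have e : mrg some a = fun o : Option ι => o.elim 0 a := by
      simpa using mrg_some a 0
    have e1 : ∀ n, asum (fun o : Option ι => o.elim 0 G) (fun o => o.elim 0 a) n = asum G a n :=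
      fun n => by rw [asum_opt, ite_self, zero_add]
    rw [e]
    refine ⟨fun o => by cases o; exacts [le_rfl, ha.1 _], fun n hn => ?_, ?_⟩
    · rw [e1]
      have := ha.2.1 n hn
      cases n with
      | zero => exact ⟨this.1, this.2.trans (cast_div_le (getD_zero' hi ▸ h4))⟩
      | succ n => exact ⟨this.1, this.2.trans_eq (by rw [getD_succ']; rfl)⟩
    · rw [e1, e1]
      simpa using add_nonneg (asum_nonneg _ ha.1 0) (asum_nonneg _ ha.1 1)

/-! ### certificates -/

/-- proved claims, in chunks of `64` -/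
abbrev Db : Type := List (List St)

def DbOK (tn : ℕ) (D : Db) : Prop := ∀ l ∈ D, ∀ s ∈ l, s.Hold tn

def Db.get (D : Db) (i : ℕ) : Option St := (D.getD (i / 64) [])[i % 64]?

lemma Db.get_ok {D : Db} (h : DbOK tn D) {i : ℕ} (hx : D.get i = some s) : s.Hold tn := by
  have h1 := List.mem_of_getElem? hx
  rw [List.getD_eq_getElem?_getD] at h1
  cases h2 : D[i / 64]? with
  | none => rw [h2] at h1; simp at h1
  | some l => rw [h2] at h1; exact h l (List.mem_of_getElem? h2) s h1

lemma dbOK_nil (tn : ℕ) : DbOK tn [] := by simp [DbOK]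

lemma DbOK.snoc {D : Db} {l : List St} (h : DbOK tn D) (hl : ∀ s ∈ l, s.Hold tn) :
    DbOK tn (D ++ [l]) := fun x hx =>
  (List.mem_append.1 hx).elim (h x) fun e => List.mem_singleton.1 e ▸ hl

lemma DbOK.append {D D' : Db} (h : DbOK tn D) (h' : DbOK tn D') : DbOK tn (D ++ D') :=
  fun x hx => (List.mem_append.1 hx).elim (h x) (h' x)

def refOK (D : Db) (s : St) (id : ℕ) (g : List ℕ) : Bool :=
  match D.get id with
  | none => false
  | some t => grpOK s t.lo.length g && cover (s.grp t.lo.length g) t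

lemma hold_ref {D : Db} (hD : DbOK tn D) {id : ℕ} {g : List ℕ} (h : refOK D s id g = true) :
    s.Hold tn := by
  unfold refOK at h
  split at h
  · simp at h
  rename_i t ht
  rw [Bool.and_eq_true] at h
  exact hold_grp h.1 (hold_cover h.2 (Db.get_ok hD ht))

inductive DT where
  | zero (n : ℕ) : DT
  | ref (id : ℕ) (g : List ℕ) : DT
  | two (id : ℕ) (g : List ℕ) : DT
  | grp (m : ℕ) (g : List ℕ) (t : DT) : DT
  | tight (t : DT) : DT
  | split (n c : ℕ) (t1 t2 : DT) : DT
  | step (c : ℕ) (t1 t2 : DT) : DT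
  | inv (th id g0 z0 : ℕ) (g mask : List ℕ) (t : DT) : DT

def dchk (L : Lib) (tn : ℕ) (D : Db) : DT → St → Bool
  | .zero n, s => zeroOK s n
  | .ref id g, s => refOK D s id g
  | .two id g, s => t2OK L s id g
  | .grp m g t, s => grpOK s m g && dchk L tn D t (s.grp m g)
  | .tight t, s => dchk L tn D t s.tight
  | .split n c t1 t2, s => dchk L tn D t1 ⟨s.lo, s.hi.set n c, s.fl, s.p, s.z⟩ &&
      dchk L tn D t2 ⟨s.lo.set n c, s.hi, s.fl, s.p, s.z⟩
  | .step c t1 t2, s => Nat.beq s.hi.length s.lo.length &&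
      dchk L tn D t1 ⟨s.lo, s.hi, s.fl, s.p, c⟩ &&
      dchk L tn D t2 ⟨s.lo ++ [c], s.hi ++ [s.z], s.fl, true, s.z⟩
  | .inv th id g0 z0 g mask t, s => invOK L tn s th id g0 z0 g mask &&
      (Nat.ble s.z z0 || dchk L tn D t (s.cross th z0))

theorem dchk_ok {L : Lib} (hL : LibOK tn L) (h13 : SC ≤ 3 * tn) (h12 : 2 * tn ≤ SC) {D : Db}
    (hD : DbOK tn D) (t : DT) : ∀ s : St, dchk L tn D t s = true → s.Hold tn := by
  induction t with
  | zero n => exact fun s h => hold_zero h
  | ref id g => exact fun s h => hold_ref hD h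
  | two id g => exact fun s h => hold_t2 hL h
  | grp m g t ih =>
    intro s h
    rw [dchk, Bool.and_eq_true] at h
    exact hold_grp h.1 (ih _ h.2)
  | tight t ih => exact fun s h => hold_tight (ih _ h)
  | split n c t1 t2 i1 i2 =>
    intro s h
    rw [dchk, Bool.and_eq_true] at h
    exact hold_split (i1 _ h.1) (i2 _ h.2)
  | step c t1 t2 i1 i2 =>
    intro s h
    simp only [dchk, Bool.and_eq_true, Nat.beq_eq] at h
    exact hold_step h.1.1 (i1 _ h.1.2) (i2 _ h.2)
  | inv th id g0 z0 g mask t ih =>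
    intro s h
    simp only [dchk, Bool.and_eq_true, Bool.or_eq_true, Nat.ble_eq] at h
    exact hold_inv hL h13 h12 h.1 (h.2.imp_right (ih _))

/-- one chunk of claims; a claim may use the earlier claims of its chunk -/
def allD (L : Lib) (tn : ℕ) (D : Db) : List St → List St → List DT → Bool
  | _, [], _ => true
  | _, _ :: _, [] => false
  | acc, s :: l, t :: ts => dchk L tn (D ++ [acc]) t s && allD L tn D (acc ++ [s]) l ts

theorem allD_ok {L : Lib} (hL : LibOK tn L) (h13 : SC ≤ 3 * tn) (h12 : 2 * tn ≤ SC) {D : Db}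
    (hD : DbOK tn D) (l : List St) : ∀ (acc : List St) (ts : List DT), (∀ s ∈ acc, s.Hold tn) →
      allD L tn D acc l ts = true → ∀ s ∈ l, s.Hold tn := by
  induction l with
  | nil => simp
  | cons s l ih =>
    intro acc ts ha h
    cases ts with
    | nil => simp [allD] at h
    | cons t ts =>
      rw [allD, Bool.and_eq_true] at h
      have h1 := dchk_ok hL h13 h12 (hD.snoc ha) t s h.1
      exact List.forall_mem_cons.2 ⟨h1, ih _ ts (fun x hx => (List.mem_append.1 hx).elim (ha x)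
        fun e => List.mem_singleton.1 e ▸ h1) h.2⟩

theorem DbOK.chunk {L : Lib} (hL : LibOK tn L) (h13 : SC ≤ 3 * tn) (h12 : 2 * tn ≤ SC) {D : Db}
    (hD : DbOK tn D) {l : List St} {ts : List DT} (h : allD L tn D [] l ts = true) :
    DbOK tn (D ++ [l]) :=
  hD.snoc (allD_ok hL h13 h12 hD l [] ts (by simp) h)

/-- from a claim to the leaf condition; the flag needs a block of primes -/
theorem St.Hold.dustOK (h13 : SC ≤ 3 * tn) (h : s.Hold tn) (hf : s.fl = 0) {r : ℕ}
    (B : Fin r → Blk) (hr : s.lo.length = r) (hB : Bnd B s.lo s.hi)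
    (hp : s.p = true → ∃ i, (B i).IsP ∧ 0 < (B i).lo) :
    DustOK ((tn : ℝ) / SC) B ((s.z : ℝ) / SC) := by
  have h3 : (SC : ℝ) ≤ 3 * tn := by exact_mod_cast h13
  refine DOK.dustOK (by rw [le_div_iff₀ SC_pos]; linarith) hp
    ((h (Fin r) (fun i => i) fun i => hr ▸ i.2).mono id le_rfl fun a ha hs => ?_)
  have hw : ∀ i, 0 ≤ a i := fun i => (ha i).1
  refine ⟨hw, fun n hn => ?_, ?_⟩
  · have as : asum (fun i : Fin r => (i : ℕ)) a n = a ⟨n, hr ▸ hn⟩ := by
      rw [asum, sum_eq_single_of_mem ⟨n, hr ▸ hn⟩ (by simp) fun j hj hne =>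
        (hne (Fin.ext (mem_filter.1 hj).2)).elim]
    rw [as]
    exact hB.le ha hs ⟨n, hr ▸ hn⟩
  · simpa [hf] using add_nonneg (asum_nonneg _ hw 0) (asum_nonneg _ hw 1)

/-- leaf test: claim `id` of the data base, grouping `g` of the blocks -/
theorem dust_ok (h13 : SC ≤ 3 * tn) {D : Db} (hD : DbOK tn D) {lo hi g : List ℕ} {p : Bool}
    {z id : ℕ} (h : refOK D ⟨lo, hi, 0, p, z⟩ id g = true) {r : ℕ} (B : Fin r → Blk)
    (hr : lo.length = r) (hB : Bnd B lo hi) (hp : p = true → ∃ i, (B i).IsP ∧ 0 < (B i).lo) :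
    DustOK ((tn : ℝ) / SC) B ((z : ℝ) / SC) :=
  (hold_ref hD h).dustOK h13 rfl B hr hB hp

end Pool.Agent.MP_c853c5_nt.REG
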