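import Pool.Agent.MP_c853c5_nt.REG.DChk

/-!
A fast checker for the claims on small primes: three slots, compact codes.
-/

set_option autoImplicit false

namespace Pool.Agent.MP_c853c5_nt.REG

/-- evaluate `x` before continuing -/
noncomputable def frc {α : Type} (x : ℕ) (f : ℕ → α) : α :=
  Nat.rec (motive := fun _ => α) (f 0) (fun n _ => f (Nat.succ n)) x

lemma frc_eq {α : Type} (x : ℕ) (f : ℕ → α) : frc x f = f x := by cases x <;> rfl

noncomputable def cb {α : Type} (b : Bool) (x y : α) : α := Bool.rec (motive := fun _ => α) y x b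

noncomputable def an (a b : Bool) : Bool := Bool.rec (motive := fun _ => Bool) false b a

noncomputable def nt (a : Bool) : Bool := Bool.rec (motive := fun _ => Bool) true false a

lemma an_iff {a b : Bool} : an a b = true ↔ a = true ∧ b = true := by
  cases a <;> cases b <;> simp [an]

lemma cb_true {a b : Bool} : cb a true b = true ↔ a = true ∨ b = true := by
  cases a <;> cases b <;> simp [cb]

inductive TB (α : Type) : Type
  | lf (x : α) : TB α
  | nd (n : ℕ) (l r : TB α) : TB α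

noncomputable def TB.find {α : Type} (t : TB α) : ℕ → α :=
  TB.rec (motive := fun _ => ℕ → α) (fun x _ => x)
    (fun n _ _ il ir i => cb (Nat.blt i n) (il i) (frc (Nat.sub i n) ir)) t

def TB.All {α : Type} (p : α → Prop) : TB α → Prop
  | .lf x => p x
  | .nd _ l r => l.All p ∧ r.All p

lemma TB.All.find {α : Type} {p : α → Prop} {t : TB α} (h : t.All p) (i : ℕ) : p (t.find i) := by
  induction t generalizing i with
  | lf x => exact h
  | nd n l r il ir =>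
    show p (cb (Nat.blt i n) (l.find i) (frc (Nat.sub i n) r.find))
    rw [frc_eq]
    cases Nat.blt i n
    exacts [ir h.2 _, il h.1 _]

/-! ### states with three slots -/

def S3 (l0 l1 l2 h0 h1 h2 fl : ℕ) (p : Bool) (z : ℕ) : St := ⟨[l0, l1, l2], [h0, h1, h2], fl, p, z⟩

def S2 (a b c d : ℕ) (p : Bool) (z : ℕ) : St := ⟨[a, b], [c, d], 0, p, z⟩

variable {tn a b c d a' b' c' d' l0 l1 l2 h0 h1 h2 fl z z' : ℕ} {p p' : Bool}

lemma beq_s : Nat.beq 0 1 = false ∧ Nat.beq 1 0 = false ∧ Nat.beq 0 2 = false ∧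
    Nat.beq 1 2 = false := ⟨rfl, rfl, rfl, rfl⟩

lemma pad_in (h : (S3 a b 0 c d 0 0 p z).Hold tn) : (S2 a b c d p z).Hold tn := by
  refine hold_grp (m := 3) (g := [0, 1]) rfl (hold_cover ?_ h)
  simp [cover, St.grp, S2, S3, lb, sel, sm, List.range_succ, beq_s]

lemma pad_out (h : (S2 a' b' c' d' p' z').Hold tn) (e1 : a' ≤ a) (e2 : b' ≤ b) (e3 : c ≤ c')
    (e4 : d ≤ d') (e5 : z ≤ z') (e6 : p' = true → p = true) :
    (S3 a b l2 c d 0 fl p z).Hold tn := by
  refine hold_grp (m := 2) (g := [0, 1, 1]) rfl (hold_cover ?_ h)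
  cases p' <;> simp [cover, St.grp, S2, S3, lb, sel, sm, List.range_succ, beq_s] at e6 ⊢ <;>
    (try simp only [e6, and_true]) <;> omega

noncomputable def s3 (f0 f1 f2 : Bool) (x0 x1 x2 : ℕ) : ℕ :=
  Nat.add (Nat.add (cb f0 x0 0) (cb f1 x1 0)) (cb f2 x2 0)

noncomputable def lw (f0 f1 f2 : Bool) (l0 l1 l2 fl : ℕ) : ℕ :=
  Nat.add (s3 f0 f1 f2 l0 l1 l2) (cb (an f0 f1) (Nat.sub fl (Nat.add l0 l1)) 0)

noncomputable def mn (x y : ℕ) : ℕ := cb (Nat.ble x y) x y

noncomputable def mx (x y : ℕ) : ℕ := cb (Nat.ble x y) y x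

lemma mn_eq (x y : ℕ) : mn x y = min x y := by
  unfold mn
  cases e : Nat.ble x y
  · exact (min_eq_right (le_of_lt (not_le.1 fun h =>
      Bool.false_ne_true (e ▸ Nat.ble_eq_true_of_le h)))).symm
  · exact (min_eq_left (Nat.le_of_ble_eq_true e)).symm

lemma mx_eq (x y : ℕ) : mx x y = max x y := by
  unfold mx
  cases e : Nat.ble x y
  · exact (max_eq_left (le_of_lt (not_le.1 fun h =>
      Bool.false_ne_true (e ▸ Nat.ble_eq_true_of_le h)))).symm
  · exact (max_eq_right (Nat.le_of_ble_eq_true e)).symm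

/-- two groups; the flags mark the second group -/
noncomputable def gp (f0 f1 f2 : Bool) (l0 l1 l2 h0 h1 h2 fl : ℕ) (K : ℕ → ℕ → ℕ → ℕ → Bool) :
    Bool :=
  frc (lw (nt f0) (nt f1) (nt f2) l0 l1 l2 fl) fun a => frc (lw f0 f1 f2 l0 l1 l2 fl) fun b =>
    frc (mn (s3 (nt f0) (nt f1) (nt f2) h0 h1 h2) (Nat.sub 1000000 b)) fun c =>
      frc (mn (s3 f0 f1 f2 h0 h1 h2) (Nat.sub 1000000 a)) fun d => K a b c d

lemma gp_ok {f0 f1 f2 : Bool} {K : ℕ → ℕ → ℕ → ℕ → Bool}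
    (hK : ∀ a b c d, K a b c d = true → (S2 a b c d p z).Hold tn)
    (h : gp f0 f1 f2 l0 l1 l2 h0 h1 h2 fl K = true) : (S3 l0 l1 l2 h0 h1 h2 fl p z).Hold tn := by
  simp only [gp, frc_eq, mn_eq] at h
  refine hold_grp (m := 2) (g := [cb f0 1 0, cb f1 1 0, cb f2 1 0]) ?_ (hold_cover ?_ (hK _ _ _ _ h))
  · cases f0 <;> cases f1 <;> cases f2 <;> rfl
  · cases f0 <;> cases f1 <;> cases f2 <;>
      simp [cover, St.grp, S2, S3, lb, sel, sm, List.range_succ, lw, s3, cb, an, nt, SC,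
        beq_s] <;> omega

def bt (M j : ℕ) : Bool := Nat.beq (Nat.mod (Nat.shiftRight M j) 2) 1

/-- fields of `24` bits -/
def g24 (v i : ℕ) : ℕ := Nat.mod (Nat.shiftRight v (Nat.mul 24 i)) 16777216

/-- the claim with code `v` -/
def clm (v : ℕ) : St := S2 (g24 v 0) (g24 v 1) (g24 v 2) (g24 v 3) (Nat.beq (g24 v 5) 1) (g24 v 4)

/-- the code of the claim `i` -/
noncomputable def code (G : TB ℕ) (i : ℕ) : ℕ :=
  Nat.mod (Nat.shiftRight (G.find (Nat.div i 64)) (Nat.mul 144 (Nat.mod i 64)))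
    (Nat.shiftLeft 1 144)

inductive FT where
  | zero : FT
  | ref (id M : ℕ) : FT
  | two (id : ℕ) (g : List ℕ) : FT
  | grp (M : ℕ) (t : FT) : FT
  | tight (t : FT) : FT
  | split (n c : ℕ) (t1 t2 : FT) : FT
  | step (c : ℕ) (t1 t2 : FT) : FT
  | inv (th id z0 : ℕ) (g mask : List ℕ) (t : FT) : FT

noncomputable def fchk (L : TB PE) (tn : ℕ) (G : TB ℕ) (n : ℕ) (t : FT) :
    ℕ → ℕ → ℕ → ℕ → ℕ → ℕ → ℕ → Bool → ℕ → Bool :=
  FT.rec (motive := fun _ => ℕ → ℕ → ℕ → ℕ → ℕ → ℕ → ℕ → Bool → ℕ → Bool)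
    (fun l0 l1 l2 h0 h1 h2 fl _ _ => cb (Nat.blt 1000000 (lw true true true l0 l1 l2 fl)) true
      (cb (Nat.blt h0 l0) true (cb (Nat.blt h1 l1) true (Nat.blt h2 l2))))
    (fun id M l0 l1 l2 h0 h1 h2 fl p z => an (Nat.blt id n)
      (gp (bt M 0) (bt M 1) (bt M 2) l0 l1 l2 h0 h1 h2 fl fun a b c d => frc (code G id) fun v =>
        an (an (an (Nat.ble (g24 v 0) a) (Nat.ble (g24 v 1) b))
          (an (Nat.ble c (g24 v 2)) (Nat.ble d (g24 v 3))))
          (an (Nat.ble z (g24 v 4)) (cb p true (nt (Nat.beq (g24 v 5) 1))))))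
    (fun id g l0 l1 l2 h0 h1 h2 fl p z => t2OK [[L.find id]] (S3 l0 l1 l2 h0 h1 h2 fl p z) 0 g)
    (fun M _ ih l0 l1 l2 h0 h1 h2 fl p z =>
      gp (bt M 0) (bt M 1) (bt M 2) l0 l1 l2 h0 h1 h2 fl fun a b c d => ih a b 0 c d 0 0 p z)
    (fun _ ih l0 l1 l2 h0 h1 h2 fl p z => frc (mx l0 (Nat.sub fl h1)) fun a =>
      frc (mx l1 (Nat.sub fl h0)) fun b => ih a b l2 h0 h1 h2 fl p z)
    (fun m c _ _ i1 i2 l0 l1 l2 h0 h1 h2 fl p z =>
      cb (Nat.beq m 0) (an (i1 l0 l1 l2 c h1 h2 fl p z) (i2 c l1 l2 h0 h1 h2 fl p z))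
        (cb (Nat.beq m 1) (an (i1 l0 l1 l2 h0 c h2 fl p z) (i2 l0 c l2 h0 h1 h2 fl p z))
          (an (i1 l0 l1 l2 h0 h1 c fl p z) (i2 l0 l1 c h0 h1 h2 fl p z))))
    (fun c _ _ i1 i2 l0 l1 _ h0 h1 h2 _ p z => an (Nat.beq h2 0)
      (an (i1 l0 l1 0 h0 h1 0 0 p c) (i2 l0 l1 c h0 h1 z 0 true z)))
    (fun th id z0 g mask _ ih l0 l1 _ h0 h1 h2 _ p z => an (Nat.beq h2 0)
      (an (invOK [[L.find id]] tn (S2 l0 l1 h0 h1 p z) th 0 0 z0 g mask)
        (cb (Nat.ble z z0) true (ih l0 z0 l1 th z h1 th true z)))) t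

lemma lib_one {L : TB PE} (hL : L.All (PE.Good tn)) (id : ℕ) : LibOK tn [[L.find id]] :=
  LibOK.cons (by simpa using hL.find id) (libOK_nil tn)

theorem fchk_ok {L : TB PE} (hL : L.All (PE.Good tn)) (h13 : SC ≤ 3 * tn) (h12 : 2 * tn ≤ SC)
    {G : TB ℕ} {n : ℕ} (hG : ∀ i < n, (clm (code G i)).Hold tn) (t : FT) :
    ∀ (l0 l1 l2 h0 h1 h2 fl : ℕ) (p : Bool) (z : ℕ), fchk L tn G n t l0 l1 l2 h0 h1 h2 fl p z = true →
      (S3 l0 l1 l2 h0 h1 h2 fl p z).Hold tn := by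
  induction t with
  | zero =>
    intro l0 l1 l2 h0 h1 h2 fl p z h
    simp only [fchk, cb_true, Nat.blt_eq] at h
    rcases h with h | h | h | h
    · refine hold_zero (n := 0) ?_
      simp [zeroOK, S3, lb, sel, sm, SC]
      simp [lw, s3, cb, an] at h
      omega
    · exact hold_zero (n := 0) (by simp [zeroOK, S3, h])
    · exact hold_zero (n := 1) (by simp [zeroOK, S3, h])
    · exact hold_zero (n := 2) (by simp [zeroOK, S3, h])
  | ref id M =>
    intro l0 l1 l2 h0 h1 h2 fl p z h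
    simp only [fchk, an_iff, Nat.blt_eq] at h
    refine gp_ok (fun a b c d e => ?_) h.2
    simp only [frc_eq, an_iff, Nat.ble_eq, cb_true] at e
    refine pad_in (pad_out (hG id h.1) e.1.1.1 e.1.1.2 e.1.2.1 e.1.2.2 e.2.1 fun q => ?_)
    exact e.2.2.resolve_right (by rw [q]; simp [nt])
  | two id g => exact fun _ _ _ _ _ _ _ _ _ h => hold_t2 (lib_one hL id) h
  | grp M t ih => exact fun _ _ _ _ _ _ _ _ _ h => gp_ok (fun a b c d e => pad_in (ih _ _ _ _ _ _ _ _ _ e)) h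
  | tight t ih =>
    intro l0 l1 l2 h0 h1 h2 fl p z h
    replace h : (frc (mx l0 (Nat.sub fl h1)) fun a => frc (mx l1 (Nat.sub fl h0)) fun b =>
      fchk L tn G n t a b l2 h0 h1 h2 fl p z) = true := h
    rw [frc_eq, frc_eq, mx_eq, mx_eq] at h
    exact hold_tight (ih _ _ _ _ _ _ _ _ _ h)
  | split m c t1 t2 i1 i2 =>
    intro l0 l1 l2 h0 h1 h2 fl p z h
    simp only [fchk] at h
    generalize Nat.beq m 0 = u at h
    generalize Nat.beq m 1 = w at h
    cases u <;> cases w <;> simp only [cb, an_iff] at h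
    · exact hold_split (n := 2) (i1 _ _ _ _ _ _ _ _ _ h.1) (i2 _ _ _ _ _ _ _ _ _ h.2)
    · exact hold_split (n := 1) (i1 _ _ _ _ _ _ _ _ _ h.1) (i2 _ _ _ _ _ _ _ _ _ h.2)
    · exact hold_split (n := 0) (i1 _ _ _ _ _ _ _ _ _ h.1) (i2 _ _ _ _ _ _ _ _ _ h.2)
    · exact hold_split (n := 0) (i1 _ _ _ _ _ _ _ _ _ h.1) (i2 _ _ _ _ _ _ _ _ _ h.2)
  | step c t1 t2 i1 i2 =>
    intro l0 l1 l2 h0 h1 h2 fl p z h
    simp only [fchk, an_iff, Nat.beq_eq] at h
    obtain ⟨rfl, e1, e2⟩ := h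
    exact pad_out (hold_step (s := S2 l0 l1 h0 h1 p z) rfl (pad_in (i1 _ _ _ _ _ _ _ _ _ e1))
      (i2 _ _ _ _ _ _ _ _ _ e2)) le_rfl le_rfl le_rfl le_rfl le_rfl id
  | inv th id z0 g mask t ih =>
    intro l0 l1 l2 h0 h1 h2 fl p z h
    simp only [fchk, an_iff, Nat.beq_eq, cb_true, Nat.ble_eq] at h
    obtain ⟨rfl, e1, e2⟩ := h
    exact pad_out (hold_inv (lib_one hL id) h13 h12 e1 (e2.imp_right (ih _ _ _ _ _ _ _ _ _)))
      le_rfl le_rfl le_rfl le_rfl le_rfl _root_.id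

/-! ### codes -/

/-- read `b` bits -/
noncomputable def rd {α : Type} (b s : ℕ) (f : ℕ → ℕ → α) : α :=
  frc (Nat.mod s (Nat.shiftLeft 1 b)) fun v => frc (Nat.shiftRight s b) fun r => f v r

noncomputable def rdN {α : Type} (n : ℕ) : ℕ → (List ℕ → ℕ → α) → α :=
  Nat.rec (motive := fun _ => ℕ → (List ℕ → ℕ → α) → α) (fun s K => K [] s)
    (fun _ ih s K => rd 3 s fun v r => ih r fun l r' => K (v :: l) r') n

noncomputable def dec (fuel : ℕ) : ℕ → (FT → ℕ → FT × ℕ) → FT × ℕ :=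
  Nat.rec (motive := fun _ => ℕ → (FT → ℕ → FT × ℕ) → FT × ℕ) (fun s K => K .zero s)
    (fun _ ih s0 K => rd 3 s0 fun tag s =>
      cb (Nat.blt tag 4)
        (cb (Nat.blt tag 2)
          (cb (Nat.beq tag 0) (K .zero s)
            (rd 16 s fun id r => rd 3 r fun M r => K (.ref id M) r))
          (cb (Nat.beq tag 2) (rd 12 s fun id r => rdN 4 r fun g r => K (.two id g) r)
            (rd 3 s fun M r => ih r fun t r => K (.grp M t) r)))
        (cb (Nat.blt tag 6)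
          (cb (Nat.beq tag 4) (ih s fun t r => K (.tight t) r)
            (rd 2 s fun n r => rd 20 r fun c r => ih r fun t1 r => ih r fun t2 r =>
              K (.split n c t1 t2) r))
          (cb (Nat.beq tag 6)
            (rd 20 s fun c r => ih r fun t1 r => ih r fun t2 r => K (.step c t1 t2) r)
            (rd 20 s fun th r => rd 12 r fun id r => rd 20 r fun z0 r =>
              rdN 2 r fun g r => rdN 1 r fun mask r => ih r fun t r =>
                K (.inv th id z0 g mask t) r)))) fuel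

/-- the claims `i, …, i + m - 1`; `s` is the code of their certificates -/
noncomputable def allF (L : TB PE) (tn : ℕ) (G : TB ℕ) (m : ℕ) : ℕ → ℕ → Bool :=
  Nat.rec (motive := fun _ => ℕ → ℕ → Bool) (fun _ _ => true)
    (fun _ ih i s => Prod.rec (motive := fun _ => Bool)
      (fun t r => an (frc (code G i) fun v => frc (g24 v 0) fun a => frc (g24 v 1) fun b =>
          frc (g24 v 2) fun c => frc (g24 v 3) fun d => frc (g24 v 4) fun z =>
            fchk L tn G i t a b 0 c d 0 0 (Nat.beq (g24 v 5) 1) z)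
        (frc (Nat.succ i) fun j => ih j r)) (dec 200 s Prod.mk)) m

def FOK (tn : ℕ) (G : TB ℕ) (n : ℕ) : Prop := ∀ i < n, (clm (code G i)).Hold tn

lemma fOK_zero (tn : ℕ) (G : TB ℕ) : FOK tn G 0 := fun _ h => absurd h (Nat.not_lt_zero _)

theorem allF_ok {L : TB PE} (hL : L.All (PE.Good tn)) (h13 : SC ≤ 3 * tn) (h12 : 2 * tn ≤ SC)
    {G : TB ℕ} (m : ℕ) : ∀ i s, allF L tn G m i s = true → FOK tn G i → FOK tn G (i + m) := by
  induction m with
  | zero => exact fun _ _ _ h => h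
  | succ m ih =>
    intro i s h hG
    replace h : Prod.rec (motive := fun _ => Bool)
      (fun t r => an (frc (code G i) fun v => frc (g24 v 0) fun a => frc (g24 v 1) fun b =>
          frc (g24 v 2) fun c => frc (g24 v 3) fun d => frc (g24 v 4) fun z =>
            fchk L tn G i t a b 0 c d 0 0 (Nat.beq (g24 v 5) 1) z)
        (frc (Nat.succ i) fun j => allF L tn G m j r)) (dec 200 s Prod.mk) = true := h
    generalize dec 200 s Prod.mk = x at h
    obtain ⟨t, r⟩ := x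
    simp only [an_iff, frc_eq] at h
    rw [← Nat.add_assoc, Nat.add_right_comm]
    refine ih (i + 1) r h.2 fun j hj => ?_
    rcases Nat.lt_succ_iff_lt_or_eq.1 hj with e | rfl
    · exact hG j e
    · exact pad_in (fchk_ok hL h13 h12 hG t _ _ _ _ _ _ _ _ _ h.1)

end Pool.Agent.MP_c853c5_nt.REG
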