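import Pool.Agent.MP_c853c5_nt.REG.GDust
import Pool.Agent.MP_c853c5_nt.REG.DChk

/-!
Boxes of five slots and two sieved factors: the rules.
-/

set_option autoImplicit false

open Finset Function

namespace Pool.Agent.MP_c853c5_nt.REG

open Pool.Agent.MP_c853c5_nt.S Pool.Agent.MP_c853c5_nt.R Pool.Agent.MP_c853c5_nt.Y
open Pool.Agent.MP_c853c5_nt.DT

/-- bounds for the slots `0, …, 4` and for the rests `5, 6` of the sieved factors, a coupling
`fl ≤ slot 0 + slot 1`, flags (`n < 5`: the slot is a prime; `5`: some fixed factor is prime) and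
the bound for the small primes -/
structure GS where
  lo : ℕ → ℕ
  hi : ℕ → ℕ
  fl : ℕ
  pm : ℕ
  z : ℕ

def GS.In (s : GS) (V : ℕ → ℝ) : Prop :=
  (∀ n < 7, (s.lo n : ℝ) ≤ V n ∧ V n ≤ s.hi n) ∧ (s.fl : ℝ) ≤ V 0 + V 1

def ix (t : Bool) : ℕ := cond t 6 5

def G7 : Bool ⊕ Fin 5 → ℕ := Sum.elim ix Fin.val

noncomputable def vv (a : Fin 5 → ℝ) (R : Bool → ℝ) (n : ℕ) : ℝ := SC * asum G7 (Sum.elim R a) n

def GS.Hold (tn : ℕ) (s : GS) : Prop :=
  DG ((tn : ℝ) / SC) (s.pm.testBit 5 = true) (fun i : Fin 5 => s.pm.testBit i = true)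
    (fun a R => s.In (vv a R)) ((s.z : ℝ) / SC)

structure Pt7 (V : ℕ → ℝ) : Prop where
  nn : ∀ n, 0 ≤ V n
  tot : ∑ n ∈ range 7, V n = SC

section vec

variable {a : Fin 5 → ℝ} {R : Bool → ℝ}

lemma G7_lt (l : Bool ⊕ Fin 5) : G7 l < 7 := by revert l; decide

lemma G7_inj : Injective G7 := by decide

lemma vv_G (l : Bool ⊕ Fin 5) : vv a R (G7 l) = SC * Sum.elim R a l := by
  rw [vv, asum, sum_eq_single_of_mem l (by simp) fun j hj e => (e (G7_inj (mem_filter.1 hj).2)).elim]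

lemma vv_a (i : Fin 5) : vv a R i = SC * a i := vv_G (Sum.inr i)

lemma vv_R (t : Bool) : vv a R (ix t) = SC * R t := vv_G (Sum.inl t)

lemma vv_ad (i : Fin 5) (t : Bool) (u x : ℝ) (n : ℕ) : vv (ad a i u) (ad R t x) n =
    vv a R n + (if n = i then SC * u else 0) + if n = ix t then SC * x else 0 := by
  have key : ∀ (w : Bool ⊕ Fin 5 → ℝ) (l : Bool ⊕ Fin 5) (y : ℝ),
      asum G7 (ad w l y) n = asum G7 w n + if n = G7 l then y else 0 := fun w l y => by
    simp only [asum, ad, sum_add_distrib, sum_ite_eq', mem_filter, mem_univ, true_and,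
      @eq_comm _ n]
  have e : Sum.elim (ad R t x) (ad a i u) =
      ad (ad (Sum.elim R a) (Sum.inr i) u) (Sum.inl t) x := by
    funext l
    cases l <;> simp [ad]
  rw [vv, vv, e, key, key, mul_add, mul_add, mul_ite, mul_ite, mul_zero]
  rfl

lemma Bas.w0 (h : Bas a R) (l : Bool ⊕ Fin 5) : 0 ≤ Sum.elim R a l := by
  cases l
  exacts [h.r0 _, h.a0 _]

lemma Bas.w1 (h : Bas a R) : ∑ l, Sum.elim R a l = 1 := by
  have := h.tot
  simp only [Fintype.sum_sum_type, Sum.elim_inl, Sum.elim_inr, Fintype.sum_bool]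
  linarith

lemma Bas.pt (h : Bas a R) : Pt7 (vv a R) :=
  ⟨fun n => mul_nonneg SC_pos.le (asum_nonneg _ h.w0 n), by
    have := sum_asum G7_lt (Sum.elim R a) fun _ => 1
    simp only [one_mul, h.w1] at this
    simp only [vv, ← mul_sum, this, mul_one]⟩

end vec

variable {tn fl pm pm' z : ℕ} {lo hi lo' hi' : ℕ → ℕ} {s t : GS}

lemma hold_sub (h : t.Hold tn) (hz : s.z ≤ t.z) (hm : ∀ n, t.pm.testBit n = true → s.pm.testBit n = true)
    (hΩ : ∀ V, Pt7 V → s.In V → t.In V) : s.Hold tn :=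
  h.mono (hm 5) (cast_div_le hz) (fun i => hm i) fun _ _ hB => hΩ _ hB.pt

lemma hold_void (h : ∀ V, Pt7 V → ¬ s.In V) : s.Hold tn := dg_empty fun _ _ hB => h _ hB.pt

lemma In.up_lo {V : ℕ → ℝ} (h : GS.In ⟨lo, hi, fl, pm, z⟩ V) {n c : ℕ} (hc : (c : ℝ) ≤ V n) :
    GS.In ⟨update lo n c, hi, fl, pm, z⟩ V := ⟨fun k hk => ⟨by
  by_cases e : k = n
  · simpa [e] using hc
  · simpa [e] using (h.1 k hk).1, (h.1 k hk).2⟩, h.2⟩

lemma In.up_hi {V : ℕ → ℝ} (h : GS.In ⟨lo, hi, fl, pm, z⟩ V) {n c : ℕ} (hc : V n ≤ c) :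
    GS.In ⟨lo, update hi n c, fl, pm, z⟩ V := ⟨fun k hk => ⟨(h.1 k hk).1, by
  by_cases e : k = n
  · simpa [e] using hc
  · simpa [e] using (h.1 k hk).2⟩, h.2⟩

lemma ghold_split {n c : ℕ} (h1 : GS.Hold tn ⟨lo, update hi n c, fl, pm, z⟩)
    (h2 : GS.Hold tn ⟨update lo n c, hi, fl, pm, z⟩) : GS.Hold tn ⟨lo, hi, fl, pm, z⟩ :=
  h1.union h2 fun a R h => (le_total (vv a R n) c).imp (In.up_hi h) (In.up_lo h)

lemma sub_le_of {a b : ℕ} {x : ℝ} (h0 : 0 ≤ x) (h : (a : ℝ) ≤ x + b) : ((a - b : ℕ) : ℝ) ≤ x := by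
  rcases le_total a b with c | c
  · rwa [Nat.sub_eq_zero_of_le c, Nat.cast_zero]
  · rw [Nat.cast_sub c]
    linarith

lemma le_sub_of {a b : ℕ} {x : ℝ} (h : x + b ≤ a) : x ≤ ((a - b : ℕ) : ℝ) := by
  have : (a : ℝ) ≤ ((a - b : ℕ) : ℝ) + b := by exact_mod_cast le_tsub_add
  linarith

lemma max_le_of {a b : ℕ} {x : ℝ} (h1 : (a : ℝ) ≤ x) (h2 : (b : ℝ) ≤ x) :
    ((max a b : ℕ) : ℝ) ≤ x := by
  rw [Nat.cast_max]
  exact max_le h1 h2

lemma ghold_tight (h : GS.Hold tn ⟨update (update lo 0 (max (lo 0) (fl - hi 1))) 1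
    (max (lo 1) (fl - hi 0)), hi, fl, pm, z⟩) : GS.Hold tn ⟨lo, hi, fl, pm, z⟩ :=
  hold_sub h le_rfl (fun _ => id) fun V hV h => by
    have h0 := h.1 0 (by omega)
    have h1 := h.1 1 (by omega)
    have h2 := h.2
    dsimp only at h0 h1 h2
    exact In.up_lo (In.up_lo h (max_le_of h0.1 (sub_le_of (hV.nn 0) (by linarith))))
      (max_le_of h1.1 (sub_le_of (hV.nn 1) (by linarith)))

/-- the excess of the coupling -/
lemma In.exc {V : ℕ → ℝ} (h : GS.In ⟨lo, hi, fl, pm, z⟩ V) :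
    ((fl - (lo 0 + lo 1) : ℕ) : ℝ) ≤ V 0 - lo 0 + (V 1 - lo 1) := by
  have h0 := h.1 0 (by omega)
  have h1 := h.1 1 (by omega)
  have h2 := h.2
  dsimp only at h0 h1 h2
  exact sub_le_of (by linarith) (by push_cast; linarith)

lemma In.low {V : ℕ → ℝ} (h : GS.In ⟨lo, hi, fl, pm, z⟩ V) (φ : ℕ → Prop) [DecidablePred φ] :
    ((∑ n ∈ range 7, (if φ n then lo n else 0) +
      (if φ 0 ∧ φ 1 then fl - (lo 0 + lo 1) else 0) : ℕ) : ℝ) ≤
      ∑ n ∈ range 7, if φ n then V n else 0 := by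
  have key : ∀ n < 7, ((if φ n then lo n else 0 : ℕ) : ℝ) ≤ if φ n then V n else 0 := fun n hn => by
    split_ifs
    exacts [(h.1 n hn).1, by simp]
  have e := In.exc h
  rw [Nat.cast_add, Nat.cast_sum]
  split_ifs with c
  · have k2 := key 2 (by omega)
    have k3 := key 3 (by omega)
    have k4 := key 4 (by omega)
    have k5 := key 5 (by omega)
    have k6 := key 6 (by omega)
    simp only [sum_range_succ, sum_range_zero, if_pos c.1, if_pos c.2]
    linarith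
  · simpa using sum_le_sum fun n hn => key n (mem_range.1 hn)

lemma In.upp {V : ℕ → ℝ} (h : GS.In ⟨lo, hi, fl, pm, z⟩ V) (φ : ℕ → Prop) [DecidablePred φ] :
    (∑ n ∈ range 7, if φ n then V n else 0) ≤
      ((∑ n ∈ range 7, if φ n then hi n else 0 : ℕ) : ℝ) := by
  rw [Nat.cast_sum]
  refine sum_le_sum fun n hn => ?_
  split_ifs
  exacts [(h.1 n (mem_range.1 hn)).2, by simp]

lemma ghold_zero (h : SC < ∑ n ∈ range 7, lo n + (fl - (lo 0 + lo 1)) ∨
    (∑ n ∈ range 7, hi n < SC ∨ ∃ n < 7, hi n < lo n)) : GS.Hold tn ⟨lo, hi, fl, pm, z⟩ :=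
  hold_void fun V hV hI => by
    rcases h with h | h | ⟨n, hn, h⟩
    · have := In.low hI fun _ => True
      simp only [if_true, and_self, hV.tot] at this
      exact absurd h (not_lt.2 (by exact_mod_cast this))
    · have := In.upp hI fun _ => True
      simp only [if_true, hV.tot] at this
      exact absurd h (not_lt.2 (by exact_mod_cast this))
    · exact absurd h (not_lt.2 (by exact_mod_cast (hI.1 n hn).1.trans (hI.1 n hn).2))

lemma sum_off {β : Type} [AddCommMonoid β] (f : ℕ → β) {n : ℕ} (hn : n < 7) :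
    (∑ k ∈ range 7, if k ≠ n then f k else 0) + f n = ∑ k ∈ range 7, f k := by
  rw [← sum_filter, filter_ne', sum_erase_add _ _ (mem_range.2 hn)]

/-- the total size is one -/
lemma ghold_tot {n : ℕ} (hn : n < 7) (h : GS.Hold tn
    ⟨update lo n (max (lo n) (SC + hi n - ∑ k ∈ range 7, hi k)),
      update hi n (min (hi n) (SC + lo n - (∑ k ∈ range 7, lo k +
        if n < 2 then 0 else fl - (lo 0 + lo 1)))), fl, pm, z⟩) :
    GS.Hold tn ⟨lo, hi, fl, pm, z⟩ :=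
  hold_sub h le_rfl (fun _ => id) fun V hV h => by
    have e1 := In.low h fun k => k ≠ n
    have e2 := In.upp h fun k => k ≠ n
    have e3 := sum_off V hn
    have e4 : (((∑ k ∈ range 7, if k ≠ n then lo k else 0) + lo n : ℕ) : ℝ) =
      (∑ k ∈ range 7, lo k : ℕ) := by rw [sum_off lo hn]
    have e5 : (((∑ k ∈ range 7, if k ≠ n then hi k else 0) + hi n : ℕ) : ℝ) =
      (∑ k ∈ range 7, hi k : ℕ) := by rw [sum_off hi hn]
    have e6 : (if 0 ≠ n ∧ 1 ≠ n then fl - (lo 0 + lo 1) else 0) =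
        if n < 2 then 0 else fl - (lo 0 + lo 1) := by
      split_ifs <;> omega
    rw [e6, Nat.cast_add] at e1
    rw [Nat.cast_add] at e4 e5
    rw [hV.tot] at e3
    refine In.up_lo (In.up_hi h ?_) (max_le_of (h.1 n hn).1 (sub_le_of (hV.nn n) ?_))
    · rw [Nat.cast_min]
      refine le_min (h.1 n hn).2 (le_sub_of ?_)
      rw [Nat.cast_add, Nat.cast_add]
      linarith
    · rw [Nat.cast_add]
      linarith

/-- sums over the groups -/
def gsum (g f : ℕ → ℕ) (n : ℕ) : ℕ :=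
  if n < 5 then ∑ j ∈ range 5, if g j = n then f j else 0 else f n

lemma ghold_grp {g : ℕ → ℕ} (hg : ∀ j, g j < 5) (h : GS.Hold tn ⟨lo', gsum g hi, 0, pm', z⟩)
    (hl : ∀ n < 7, lo' n ≤ gsum g lo n + if g 0 = n ∧ g 1 = n then fl - (lo 0 + lo 1) else 0)
    (h5 : pm'.testBit 5 = true → pm.testBit 5 = true)
    (hm : ∀ n < 5, pm'.testBit n = true →
      ∃ j < 5, pm.testBit j = true ∧ g j = n ∧ gsum g hi n ≤ hi j) :
    GS.Hold tn ⟨lo, hi, fl, pm, z⟩ := by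
  refine h.group (fun j => ⟨g j, hg j⟩) h5 le_rfl fun a R hB hI => ?_
  have hV := hB.pt
  have e1 : ∀ n : Fin 5, SC * mrg (fun j : Fin 5 => (⟨g j, hg j⟩ : Fin 5)) a n =
      ∑ j ∈ range 5, if g j = n then vv a R j else 0 := fun n => by
    rw [mrg, sum_filter, mul_sum, ← Fin.sum_univ_eq_sum_range
      fun j => if g j = n then vv a R j else 0]
    exact sum_congr rfl fun j _ => by simp [vv_a, Fin.ext_iff]
  have e7 : ∀ {β : Type} [AddCommMonoid β] (f : ℕ → β) (n : ℕ),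
      (∑ j ∈ range 7, if j < 5 ∧ g j = n then f j else 0) =
        ∑ j ∈ range 5, if g j = n then f j else 0 := fun f n => by
    simp [sum_range_succ]
  have nn := (hB.a0 · : ∀ i, 0 ≤ a i)
  refine ⟨⟨fun n hn => ?_, ?_⟩, fun n hn => ?_⟩
  · by_cases c : n < 5
    · have e2 := In.low hI fun j => j < 5 ∧ g j = n
      have e3 := In.upp hI fun j => j < 5 ∧ g j = n
      rw [e7, e7] at e2 e3
      have e4 := hl n hn
      rw [gsum, if_pos c] at e4
      rw [show n = (⟨n, c⟩ : Fin 5) from rfl, vv_a, e1]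
      refine ⟨le_trans ?_ e2, by simpa only [gsum, if_pos c] using e3⟩
      simpa only [Nat.cast_le, Nat.ofNat_pos, true_and, Nat.one_lt_ofNat] using e4
    · have e4 := hl n hn
      rw [if_neg fun e : g 0 = n ∧ g 1 = n => c (e.1 ▸ hg 0), add_zero, gsum, if_neg c] at e4
      obtain ⟨t, rfl⟩ : ∃ t, n = ix t := by
        obtain rfl | rfl : n = 5 ∨ n = 6 := by omega
        exacts [⟨false, rfl⟩, ⟨true, rfl⟩]
      have := hI.1 _ hn
      rw [vv_R] at this ⊢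
      exact ⟨le_trans (by exact_mod_cast e4) this.1, by simpa only [gsum, if_neg c] using this.2⟩
  · have k : ∀ l, 0 ≤ Sum.elim R (mrg (fun j : Fin 5 => (⟨g j, hg j⟩ : Fin 5)) a) l := by
      rintro (l | l)
      · exact hB.r0 _
      · rw [Sum.elim_inr, mrg]
        exact sum_nonneg fun _ _ => nn _
    rw [Nat.cast_zero]
    exact add_nonneg (mul_nonneg SC_pos.le (asum_nonneg _ k _))
      (mul_nonneg SC_pos.le (asum_nonneg _ k _))
  · obtain ⟨j, hj, m1, m2, m3⟩ := hm n n.2 hn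
    refine ⟨⟨j, hj⟩, m1, Fin.ext m2, le_of_mul_le_mul_left ?_ SC_pos⟩
    rw [e1, ← vv_a (R := R), ← add_sum_erase _ _ (mem_range.2 hj), if_pos m2]
    rw [gsum, if_pos n.2, ← add_sum_erase _ _ (mem_range.2 hj), if_pos m2, add_le_iff_nonpos_right,
      Nat.le_zero, sum_eq_zero_iff] at m3
    refine add_le_of_nonpos_right (sum_nonpos fun k hk => ?_)
    have := m3 k hk
    split_ifs at this ⊢
    · have h7 := (hI.1 k (by have := mem_range.1 (mem_of_mem_erase hk); omega)).2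
      simpa only [this, Nat.cast_zero] using h7
    · exact le_rfl

lemma bit34 {pm k : ℕ} (h : (pm ||| 34).testBit k = true) (h5 : k < 5) :
    k = 1 ∨ k ≠ 1 ∧ pm.testBit k = true := by
  rw [Nat.testBit_or, Bool.or_eq_true] at h
  by_cases e : k = 1
  · exact Or.inl e
  · refine Or.inr ⟨e, h.resolve_right ?_⟩
    interval_cases k <;> simp_all (config := { decide := true })

lemma new_ok {a : Fin 5 → ℝ} {R : Bool → ℝ} (h : vv a R 1 ≤ 0) (k : Fin 5)
    (hk : (pm ||| 34).testBit k = true) : k = 1 ∧ a 1 ≤ 0 ∨ k ≠ 1 ∧ pm.testBit k = true :=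
  (bit34 hk k.2).imp (fun e => ⟨Fin.ext e, by
    have := vv_a (a := a) (R := R) 1
    exact nonpos_of_mul_nonpos_right (this ▸ h) SC_pos⟩) fun e => ⟨fun c => e.1 (c ▸ rfl), e.2⟩

lemma le_sc {c : ℕ} {u : ℝ} : (c : ℝ) / SC ≤ u ↔ (c : ℝ) ≤ SC * u := by
  rw [div_le_iff₀ SC_pos, mul_comm]

lemma sc_le {c : ℕ} {u : ℝ} : u ≤ (c : ℝ) / SC ↔ SC * u ≤ c := by
  rw [le_div_iff₀ SC_pos, mul_comm]

lemma ghold_step {c : ℕ} (h0 : hi 1 = 0) (h1 : GS.Hold tn ⟨lo, hi, fl, pm, c⟩)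
    (h2 : ∀ t, hi (ix t) ≤ c - 1 ∨ GS.Hold tn ⟨update (update lo 1 c) (ix t) (lo (ix t) - z),
      update (update hi 1 z) (ix t) (hi (ix t) - c), fl, pm ||| 34, z⟩) :
    GS.Hold tn ⟨lo, hi, fl, pm, z⟩ := by
  have k : ∀ t, DG ((tn : ℝ) / SC) True (fun i : Fin 5 => (pm ||| 34).testBit i = true)
      (fun a R => ¬ hi (ix t) ≤ c - 1 ∧ GS.In ⟨update (update lo 1 c) (ix t) (lo (ix t) - z),
        update (update hi 1 z) (ix t) (hi (ix t) - c), fl, pm ||| 34, z⟩ (vv a R))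
      ((z : ℝ) / SC) := fun t => (h2 t).elim (fun e => dg_empty fun _ _ _ h => h.1 e)
    fun e => e.mono (fun _ => trivial) le_rfl (fun _ => id) fun _ _ _ h => h.2
  refine h1.step ((k false).union (k true) fun _ _ => id) 1
    (fun a R h => new_ok (by simpa [h0] using (h.1 1 (by omega)).2))
    fun a R hB h t u u0 u1 u2 u3 => ?_
  rw [le_sc] at u1
  rw [sc_le] at u2
  have hV := hB.pt
  have u4 := mul_pos SC_pos u0
  have t1 : ix t < 7 ∧ ix t ≠ 1 ∧ ix t ≠ 0 := by cases t <;> decide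
  have u5 : SC * u ≤ vv a R (ix t) := vv_R t ▸ mul_le_mul_of_nonneg_left u3 SC_pos.le
  have b1 := h.1 1 (by omega)
  have b2 := h.1 _ t1.1
  have b3 := hV.nn 1
  dsimp only at b1 b2
  rw [h0, Nat.cast_zero] at b1
  have key : ¬ hi (ix t) ≤ c - 1 ∧ GS.In ⟨update (update lo 1 c) (ix t) (lo (ix t) - z),
      update (update hi 1 z) (ix t) (hi (ix t) - c), fl, pm ||| 34, z⟩
      (vv (ad a 1 u) (ad R t (-u))) := by
    refine ⟨fun e => ?_, fun n hn => ?_, ?_⟩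
    · have e1 : c ≤ hi (ix t) := by exact_mod_cast u1.trans (u5.trans b2.2)
      have e2 : 0 < hi (ix t) := by exact_mod_cast u4.trans_le (u5.trans b2.2)
      omega
    · rw [vv_ad]
      by_cases e : n = ix t
      · subst e
        simp only [update_self, Fin.val_one, if_neg t1.2.1, if_true, add_zero]
        exact ⟨sub_le_of (by linarith) (by linarith), le_sub_of (by linarith)⟩
      by_cases e' : n = 1
      · subst e'
        simp only [update_of_ne e, update_self, Fin.val_one, if_true, if_neg e, add_zero]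
        constructor <;> linarith
      · simpa only [update_of_ne e, update_of_ne e', Fin.val_one, if_neg e, if_neg e', add_zero]
          using h.1 n hn
    · have := h.2
      simp only [vv_ad, Fin.val_one, if_neg t1.2.1.symm, if_neg t1.2.2.symm, zero_ne_one, if_false,
        if_true] at this ⊢
      linarith
  cases t
  exacts [Or.inl key, Or.inr key]

lemma ghold_inv {th : ℕ} (h0 : hi 1 = 0) (h3 : hi 0 ≤ th) (m0 : pm'.testBit 0 = false)
    (hm : ∀ n, pm'.testBit n = true → pm.testBit n = true)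
    (h1 : GS.Hold tn ⟨update (update lo 5 (lo 0 + lo 5 - th)) 6 (lo 0 + lo 6 - th),
      update hi 0 th, 0, pm', 0⟩)
    (h2 : GS.Hold tn ⟨update (update lo 5 (lo 0 + lo 5 - (th + z))) 6 (lo 0 + lo 6 - (th + z)),
      update (update hi 0 th) 1 z, th, pm' ||| 34, z⟩) : GS.Hold tn ⟨lo, hi, fl, pm, z⟩ := by
  let Ω : (ℕ → ℝ) → Prop := fun V => (∀ n < 5, (lo n : ℝ) ≤ V n) ∧
    (∀ n < 7, V n ≤ update hi 0 th n) ∧ ∀ t, (lo 0 : ℝ) + lo (ix t) ≤ V 0 + V (ix t)
  have low : ∀ (V : ℕ → ℝ) (d : ℕ), (∀ n < 5, (lo n : ℝ) ≤ V n) → (∀ t, 0 ≤ V (ix t)) →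
      (∀ t, (lo 0 : ℝ) + lo (ix t) ≤ V (ix t) + d) → ∀ n < 7,
      (update (update lo 5 (lo 0 + lo 5 - d)) 6 (lo 0 + lo 6 - d) n : ℝ) ≤ V n := by
    intro V d a1 a2 a3 n hn
    by_cases e : n < 5
    · rw [update_of_ne (by omega), update_of_ne (by omega)]
      exact a1 n e
    obtain rfl | rfl : n = 5 ∨ n = 6 := by omega
    · rw [update_of_ne (by omega), update_self]
      exact sub_le_of (a2 false) (by push_cast; exact a3 false)
    · rw [update_self]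
      exact sub_le_of (a2 true) (by push_cast; exact a3 true)
  refine DG.mono (P' := pm'.testBit 5 = true) (pr₁ := fun i : Fin 5 => pm'.testBit i = true)
    (Ω₁ := fun a R => Ω (vv a R)) ?_ (hm 5) le_rfl (fun i => hm i) fun a R _ h =>
      ⟨fun n hn => (h.1 n (by omega)).1, fun n hn => ?_, fun t => add_le_add (h.1 0 (by omega)).1
        (h.1 _ (by cases t <;> decide)).1⟩
  swap
  · by_cases e : n = 0
    · subst e
      exact (h.1 0 hn).2.trans (by exact_mod_cast h3)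
    · simpa only [update_of_ne e] using (h.1 n hn).2
  refine DG.inv (h1.mono id (by simp) (fun _ => id) fun a R hB h => ?_)
    (h2.mono (fun _ => trivial) le_rfl (fun _ => id) fun _ _ _ => id) 0 1 (by simp [m0])
    (fun a R h => new_ok (by simpa [h0] using h.2.1 1 (by omega)))
    fun a R hB h t u u0 u2 u3 => ?_
  · have b0 := h.2.1 0 (by omega)
    rw [update_self] at b0
    exact ⟨fun n hn => ⟨low _ _ h.1 (fun _ => hB.pt.nn _) (fun t => by linarith [h.2.2 t]) n hn,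
      h.2.1 n hn⟩, by simpa using add_nonneg (hB.pt.nn 0) (hB.pt.nn 1)⟩
  rw [sc_le] at u2
  have hV := hB.pt
  have u4 := mul_pos SC_pos u0
  have t1 : ∀ t, 5 ≤ ix t := by decide
  have u5 : SC * u ≤ vv a R (ix t) := vv_R t ▸ mul_le_mul_of_nonneg_left u3 SC_pos.le
  have b0 := h.2.1 0 (by omega)
  have b1 := h.2.1 1 (by omega)
  have b3 := hV.nn 1
  rw [update_self] at b0
  rw [update_of_ne one_ne_zero, h0, Nat.cast_zero] at b1
  have t0 : ∀ n < 5, n ≠ ix t := fun n hn => by have := t1 t; omega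
  refine (le_total (vv a R 0 + SC * u) th).imp (fun c => ⟨fun n hn => ?_, fun n hn => ?_,
    fun t' => ?_⟩) fun c => ⟨fun n hn => ⟨low _ _ (fun n hn => ?_) (fun t' => ?_) (fun t' => ?_) n hn,
      ?_⟩, ?_⟩
  · rw [vv_ad, if_neg (t0 n hn)]
    split_ifs <;> linarith [h.1 n hn]
  · rw [vv_ad]
    by_cases e : n = 0
    · subst e
      rw [update_self, if_pos (show 0 = ((0 : Fin 5) : ℕ) from rfl), if_neg (t0 0 (by omega))]
      linarith
    · rw [if_neg (show n ≠ ((0 : Fin 5) : ℕ) from e)]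
      split_ifs <;> linarith [h.2.1 n hn]
  · rw [vv_ad, vv_ad, if_pos (show 0 = ((0 : Fin 5) : ℕ) from rfl), if_neg (t0 0 (by omega)),
      if_neg (show ix t' ≠ ((0 : Fin 5) : ℕ) by have := t1 t'; simp; omega)]
    split_ifs <;> linarith [h.2.2 t']
  · rw [vv_ad, if_neg (t0 n hn)]
    split_ifs <;> linarith [h.1 n hn]
  · rw [vv_ad, if_neg (show ix t' ≠ ((1 : Fin 5) : ℕ) by have := t1 t'; simp; omega)]
    split_ifs with e
    · rw [e]
      linarith
    · linarith [hV.nn (ix t')]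
  · rw [vv_ad, if_neg (show ix t' ≠ ((1 : Fin 5) : ℕ) by have := t1 t'; simp; omega)]
    push_cast
    split_ifs <;> linarith [h.2.2 t']
  · rw [vv_ad]
    by_cases e : n = 1
    · subst e
      dsimp only
      rw [update_self, if_pos (show 1 = ((1 : Fin 5) : ℕ) from rfl), if_neg (t0 1 (by omega))]
      linarith
    · dsimp only
      rw [update_of_ne e, if_neg (show n ≠ ((1 : Fin 5) : ℕ) from e)]
      split_ifs <;> linarith [h.2.1 n hn]
  · rw [vv_ad, vv_ad, if_neg (t0 0 (by omega)), if_neg (t0 1 (by omega)),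
      if_pos (show 1 = ((1 : Fin 5) : ℕ) from rfl), if_neg (show 0 ≠ ((1 : Fin 5) : ℕ) by decide)]
    dsimp only
    linarith

lemma In.inB {a : Fin 5 → ℝ} {R : Bool → ℝ} (h : GS.In ⟨lo, hi, fl, pm, z⟩ (vv a R)) :
    InB 7 ((List.range 7).map lo) ((List.range 7).map hi) (asum G7 (Sum.elim R a)) ∧
      (fl : ℝ) / SC ≤ asum G7 (Sum.elim R a) 0 + asum G7 (Sum.elim R a) 1 :=
  ⟨fun n hn => by
    rw [getD_range _ hn, getD_range _ hn, le_sc, sc_le]
    exact h.1 n hn, by rw [le_sc, mul_add]; exact h.2⟩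

lemma ghold_two {x : PE} (hx : x.Good tn) {g : List ℕ} (hg : g.length = 7)
    (hp : pm.testBit 5 = true)
    (h : in2 [[x]] 0 g ((List.range 7).map lo) ((List.range 7).map hi) fl = true) :
    GS.Hold tn ⟨lo, hi, fl, pm, z⟩ :=
  dg_leaf fun _ _ => ⟨1 / 10000, by norm_num, 64, fun _ _ hB hI _ => Or.inl ⟨hp,
    in2_ok (LibOK.cons (by simpa using hx) (libOK_nil tn)) h _ G7 (hg ▸ G7_lt) hB.w0
      (hg ▸ (In.inB hI).1) hB.w1 (In.inB hI).2⟩⟩

lemma ghold_three {k n : ℕ} {P : Poly} (hx : Good3 tn k P) {g : List ℕ} (hg : g.length = 7)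
    (hp : pm.testBit 5 = true) (hn : n < 5) (hm : pm.testBit n = true)
    (h : in3 k P n g ((List.range 7).map lo) ((List.range 7).map hi) fl = true) :
    GS.Hold tn ⟨lo, hi, fl, pm, z⟩ :=
  dg_leaf fun _ _ => ⟨1 / 10000, by norm_num, 64, fun _ _ hB hI _ => by
    obtain ⟨A, h1, h2⟩ := in3_ok hx h _ G7 (Sum.inr ⟨n, hn⟩) (hg ▸ G7_lt)
      (fun j => G7_inj.eq_iff (b := Sum.inr ⟨n, hn⟩)) hB.w0 (hg ▸ (In.inB hI).1) hB.w1
      (In.inB hI).2
    exact h2.imp (fun e => ⟨hp, e⟩) fun e => ⟨A, _, h1, hm, e⟩⟩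

lemma ghold_win {n d : ℕ} (φ : ℕ → Prop) [DecidablePred φ]
    (hC : Crs sysD ((tn : ℝ) / SC) ((hi n : ℝ) / SC) ((d : ℝ) / SC))
    (hp : pm.testBit 5 = true) (hn : n < 5) (hm : pm.testBit n = true) (h0 : ¬ φ n)
    (h1 : 2 * (tn + d) ≤ SC)
    (h2 : tn + d ≤ ∑ k ∈ range 7, (if φ k ∨ k = n then lo k else 0) +
      if (φ 0 ∨ 0 = n) ∧ (φ 1 ∨ 1 = n) then fl - (lo 0 + lo 1) else 0)
    (h3 : (∑ k ∈ range 7, if φ k then hi k else 0) + (tn + d) < SC) :
    GS.Hold tn ⟨lo, hi, fl, pm, z⟩ := by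
  classical
  refine dg_leaf fun κ hκ => ?_
  obtain ⟨η, hη, K, -, hC⟩ := hC κ 7 hκ (by norm_num)
  refine ⟨η, hη, K, fun a R hB hI hk => ?_⟩
  have e1 := In.low hI fun k => φ k ∨ k = n
  have e2 := In.upp hI φ
  have key : ∀ (ψ : ℕ → Prop) [DecidablePred ψ], (∑ k ∈ range 7, if ψ k then vv a R k else 0) =
      SC * ∑ l, if ψ (G7 l) then Sum.elim R a l else 0 := fun ψ _ => by
    have := sum_asum G7_lt (Sum.elim R a) fun k => if ψ k then 1 else 0
    simp only [ite_mul, one_mul, zero_mul] at this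
    rw [← this, mul_sum]
    exact sum_congr rfl fun k _ => by simp [vv]
  rw [key] at e1 e2
  have e3 : (∑ l, if φ (G7 l) ∨ G7 l = n then Sum.elim R a l else 0) =
      (∑ l, if φ (G7 l) then Sum.elim R a l else 0) + a ⟨n, hn⟩ := by
    have : a ⟨n, hn⟩ = ∑ l, if l = Sum.inr ⟨n, hn⟩ then Sum.elim R a l else 0 := by simp
    rw [this, ← sum_add_distrib]
    refine sum_congr rfl fun l _ => ?_
    by_cases c : l = Sum.inr ⟨n, hn⟩
    · subst c
      simp [G7, h0]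
    · have : G7 l ≠ n := fun e => c (G7_inj e)
      simp [c, this]
  rw [e3] at e1
  set x := ∑ l, if φ (G7 l) then Sum.elim R a l else 0 with hx
  have u1 := hk ⟨n, hn⟩ hm
  have u2 : a ⟨n, hn⟩ ≤ (hi n : ℝ) / SC := sc_le.2 (vv_a (R := R) ⟨n, hn⟩ ▸ (hI.1 n (by omega)).2)
  have v1 : 2 * ((tn : ℝ) + d) ≤ SC := by exact_mod_cast h1
  have v2 : (tn : ℝ) + d ≤ SC * (x + a ⟨n, hn⟩) := le_trans (by exact_mod_cast h2) e1
  have v3 : SC * x + ((tn : ℝ) + d) < SC := (add_le_add e2 le_rfl).trans_lt (by exact_mod_cast h3)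
  have hSC : (SC : ℝ) = 1000000 := by norm_num [SC]
  have w1 : (tn : ℝ) / SC + d / SC ≤ 1 - tn / SC - d / SC := by
    rw [hSC] at v1 ⊢
    linarith
  have w2 : x < 1 - tn / SC - d / SC := by
    rw [hSC] at v3 ⊢
    linarith
  have w3 : (tn : ℝ) / SC + d / SC ≤ x + a ⟨n, hn⟩ := by
    rw [hSC] at v2 ⊢
    linarith
  have w4 : x < max ((tn : ℝ) / SC + d / SC) (min (x + a ⟨n, hn⟩) (1 - tn / SC - d / SC)) :=
    lt_max_of_lt_right (lt_min (by linarith) w2)
  have hq := hC _ (Sum.elim R a) (Sum.elim (fun _ => False) fun i : Fin 5 => pm.testBit i = true)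
    (fun l => φ (G7 l)) (fun l => l = Sum.inr ⟨n, hn⟩)
    (max ((tn : ℝ) / SC + d / SC) (min (x + a ⟨n, hn⟩) (1 - tn / SC - d / SC))) (le_max_left _ _)
    (by linarith [max_le w1 (min_le_right (x + a ⟨n, hn⟩) _)])
    (by rintro _ rfl; exact h0) (by rintro _ rfl; exact ⟨hm, u1, u2⟩) hB.w0 hB.w1
    (lt_of_eq_of_lt (sum_congr rfl fun _ _ => by congr) w4)
    ((max_le w3 (min_le_left _ _)).trans_eq (congrArg₂ (· + ·) (sum_congr rfl fun _ _ => by congr)
      (by simp)))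
    (by simp)
  rcases hq with e | ⟨A, i, j, r, q1, q2, q3, -, -, q4, -, q5, q6⟩
  exacts [Or.inl ⟨hp, e.2⟩, Or.inr ⟨A, i, q3, q4, r, q1, q2, q5, q6⟩]

lemma ghold_one {lab : List ℕ} (hl : lab.length = 6)
    (h : in1W tn lab [hi 0, hi 1, hi 2, hi 3, hi 4, hi 6] = true) :
    GS.Hold tn ⟨lo, hi, fl, pm, 0⟩ :=
  dg_one (η := 1 / 10000) (K := 64) (by norm_num) (by simp) 0 fun a R hB hI => Or.inl
    (in1W_ok h _ _ (fun o : Option (Fin 5) => o.elim 5 Fin.val)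
      (by rw [hl]; decide) (fun n hn => by
        have k := fun i : Fin 5 => sc_le.2 (vv_a (R := R) i ▸ (hI.1 i (by omega)).2)
        have k6 := sc_le.2 (vv_R (a := a) true ▸ (hI.1 6 (by omega)).2)
        rw [hl] at hn
        interval_cases n <;> simp [asum, sum_filter, Fin.sum_univ_five]
        exacts [k 0, k 1, k 2, k 3, k 4, k6])
      (by
        have := hB.tot
        simp only [Fintype.sum_option, Option.elim]
        linarith))

lemma ghold_one2 (h13 : SC ≤ 3 * tn) {lab : List ℕ} (hl : lab.length = 5)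
    (h : in12W tn lab [hi 0, hi 1, hi 2, hi 3, hi 4] = true) : GS.Hold tn ⟨lo, hi, fl, pm, 0⟩ :=
  dg_one (η := 1 / 10000) (K := 64) (by norm_num) (by simp) 0 fun a R hB hI =>
    in12W_ok h13 h _ _ _ Fin.val (by rw [hl]; exact Fin.is_lt) (fun n hn => by
        have k := fun i : Fin 5 => sc_le.2 (vv_a (R := R) i ▸ (hI.1 i (by omega)).2)
        rw [hl] at hn
        interval_cases n <;> simp [asum, sum_filter, Fin.sum_univ_five]
        exacts [k 0, k 1, k 2, k 3, k 4])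
      (by linarith [hB.tot])

lemma lt7 {n : ℕ} (hn : n < 7) : (∃ i : Fin 5, n = i) ∨ n = ix false ∨ n = ix true := by
  by_cases e : n < 5
  · exact Or.inl ⟨⟨n, e⟩, rfl⟩
  · simp only [ix, cond]
    omega

lemma ghold_swap (h : GS.Hold tn ⟨update (update lo 5 (lo 6)) 6 (lo 5),
    update (update hi 5 (hi 6)) 6 (hi 5), fl, pm, z⟩) : GS.Hold tn ⟨lo, hi, fl, pm, z⟩ :=
  h.swap fun a R hI => ⟨fun n hn => by
    rcases lt7 hn with ⟨i, rfl⟩ | rfl | rfl
    · have := hI.1 _ hn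
      rw [vv_a] at this ⊢
      simpa only [update_of_ne (show (i : ℕ) ≠ 5 by omega), update_of_ne (show (i : ℕ) ≠ 6 by omega)]
        using this
    · have := hI.1 (ix true) (by decide)
      rw [vv_R] at this ⊢
      exact this
    · have := hI.1 (ix false) (by decide)
      rw [vv_R] at this ⊢
      exact this, by
    have := hI.2
    rw [show vv a R 0 = _ from vv_a 0, show vv a R 1 = _ from vv_a 1] at this
    rwa [show vv a _ 0 = _ from vv_a 0, show vv a _ 1 = _ from vv_a 1]⟩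

lemma ghold_frz {n : ℕ} (hn : n < 5) (m0 : pm'.testBit n = false)
    (hm : ∀ n, pm'.testBit n = true → pm.testBit n = true)
    (h : GS.Hold tn ⟨update (update lo n (lo n + lo 6)) 6 0, update (update hi n (hi n + hi 6)) 6 0,
      fl, pm', z⟩) : GS.Hold tn ⟨lo, hi, fl, pm, z⟩ := by
  refine (h.mono (hm 5) le_rfl (fun _ => id) fun _ _ _ => id).frz ⟨n, hn⟩
    (fun k hk => ⟨fun e => by simp [e, m0] at hk, hm k hk⟩) fun a R hB hI => ?_
  have e : (fun t => cond t 0 (R false)) = ad R true (-R true) := by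
    funext t
    cases t <;> simp [ad]
  have b6 := hI.1 (ix true) (by decide)
  have r0 := hB.pt.nn (ix true)
  rw [vv_R] at b6 r0
  rw [e]
  refine ⟨fun k hk => ?_, ?_⟩
  · have b := hI.1 k hk
    rw [vv_ad]
    by_cases c : k = 6
    · subst c
      rw [if_neg (show 6 ≠ n by omega), if_pos (show 6 = ix true from rfl),
        show vv a R 6 = _ from vv_R true]
      simp
    rw [if_neg (show k ≠ ix true from c)]
    dsimp only at b b6 ⊢
    rw [update_of_ne c, update_of_ne c]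
    by_cases c' : k = n
    · subst c'
      rw [if_pos rfl, update_self, update_self]
      push_cast
      exact ⟨by linarith [b.1, show (lo 6 : ℝ) ≤ _ from b6.1],
        by linarith [b.2, show _ ≤ (hi 6 : ℝ) from b6.2]⟩
    · simpa only [update_of_ne c', if_neg c', add_zero] using b
  · have := hI.2
    rw [vv_ad, vv_ad, if_neg (show 0 ≠ ix true by decide), if_neg (show 1 ≠ ix true by decide)]
    split_ifs <;> linarith

/-! ### the leaves -/

section fin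

variable {r : ℕ} {B : Fin r → Blk} {G : Fin r → ℕ}

lemma GS.Hold.pull (h : s.Hold tn) (hG : ∀ j, G j < 5) (hf : s.fl = 0)
    (hm : ∀ n < 5, s.pm.testBit n = true →
      ∃ i, (B i).IsP ∧ 0 < (B i).lo ∧ ∀ j, G j = n ↔ j = i) {x : ℝ} (hz : x ≤ (s.z : ℝ) / SC)
    {Ω : (Fin r → ℝ) → (Bool → ℝ) → Prop}
    (hw : ∀ a R, Bas a R → Ω a R →
      (∀ n < 5, (s.lo n : ℝ) / SC ≤ asum G a n ∧ asum G a n ≤ (s.hi n : ℝ) / SC) ∧
        ∀ t, (s.lo (ix t) : ℝ) / SC ≤ R t ∧ R t ≤ (s.hi (ix t) : ℝ) / SC) :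
    DG ((tn : ℝ) / SC) (s.pm.testBit 5 = true) (fun i => (B i).IsP ∧ 0 < (B i).lo) Ω x := by
  refine h.group (fun j => ⟨G j, hG j⟩) id hz fun a R hB hΩ => ?_
  obtain ⟨w1, w2⟩ := hw a R hB hΩ
  have e : ∀ n : Fin 5, mrg (fun j => (⟨G j, hG j⟩ : Fin 5)) a n = asum G a n := fun n =>
    sum_congr (filter_congr fun j _ => by simp [Fin.ext_iff]) fun _ _ => rfl
  refine ⟨⟨fun n hn => ?_, ?_⟩, fun n hn => ?_⟩
  · rcases lt7 hn with ⟨i, rfl⟩ | rfl | rfl
    · rw [vv_a, e, ← le_sc, ← sc_le]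
      exact w1 i i.2
    · rw [vv_R, ← le_sc, ← sc_le]
      exact w2 _
    · rw [vv_R, ← le_sc, ← sc_le]
      exact w2 _
  · rw [hf, Nat.cast_zero, show vv _ R 0 = _ from vv_a 0, show vv _ R 1 = _ from vv_a 1, e, e]
    exact add_nonneg (mul_nonneg SC_pos.le (asum_nonneg _ hB.a0 _))
      (mul_nonneg SC_pos.le (asum_nonneg _ hB.a0 _))
  · obtain ⟨i, i1, i2, i3⟩ := hm n n.2 hn
    refine ⟨i, ⟨i1, i2⟩, Fin.ext ((i3 i).2 rfl), ?_⟩
    rw [e, asum, sum_eq_single_of_mem i (by simp [i3]) fun j hj c =>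
      (c ((i3 j).1 (mem_filter.1 hj).2)).elim]

/-- one sieved factor, of size `1 - ∑ w` -/
theorem GS.Hold.dust1 (h : s.Hold tn) (h13 : SC ≤ 3 * tn) (hG : ∀ j, G j < 5) (hf : s.fl = 0)
    (h6 : s.lo 6 = 0) (hp : s.pm.testBit 5 = true → ∃ i, (B i).IsP ∧ 0 < (B i).lo)
    (hm : ∀ n < 5, s.pm.testBit n = true →
      ∃ i, (B i).IsP ∧ 0 < (B i).lo ∧ ∀ j, G j = n ↔ j = i) {x : ℝ} (hz : x ≤ (s.z : ℝ) / SC)
    (hw : ∀ w, InBox B w → ∑ j, w j ≤ 1 →
      (∀ n < 5, (s.lo n : ℝ) / SC ≤ asum G w n ∧ asum G w n ≤ (s.hi n : ℝ) / SC) ∧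
        (s.lo 5 : ℝ) / SC ≤ 1 - ∑ j, w j ∧ 1 - ∑ j, w j ≤ (s.hi 5 : ℝ) / SC) :
    DustOKG sysD ((tn : ℝ) / SC) B x := by
  have h3 : (SC : ℝ) ≤ 3 * tn := by exact_mod_cast h13
  refine DG.dust1 (by rw [le_div_iff₀ SC_pos]; linarith) hp (fun _ => id)
    (h.pull hG hf hm hz fun a R hB hΩ => ?_)
  have e := hB.tot
  rw [hΩ.2] at e
  obtain ⟨w1, w2⟩ := hw a hΩ.1 (by linarith [hB.r0 false])
  refine ⟨w1, fun t => ?_⟩
  cases t
  · rwa [show R false = 1 - ∑ j, a j by linarith]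
  · rw [hΩ.2, show s.lo (ix true) = 0 from h6]
    exact ⟨by simp, div_nonneg (Nat.cast_nonneg _) SC_pos.le⟩

/-- two sieved factors, of sizes `1 - ∑ w - y` and `y` -/
theorem GS.Hold.dust2 (h : s.Hold tn) (h13 : SC ≤ 3 * tn) (hG : ∀ j, G j < 5) (hf : s.fl = 0)
    (hp : s.pm.testBit 5 = true → ∃ i, (B i).IsP ∧ 0 < (B i).lo)
    (hm : ∀ n < 5, s.pm.testBit n = true →
      ∃ i, (B i).IsP ∧ 0 < (B i).lo ∧ ∀ j, G j = n ↔ j = i) {z1 z2 l u : ℝ}
    (hz1 : z1 ≤ (s.z : ℝ) / SC) (hz2 : z2 ≤ (s.z : ℝ) / SC) (hl : (s.lo 6 : ℝ) / SC ≤ l)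
    (hu : u ≤ (s.hi 6 : ℝ) / SC)
    (hw : ∀ w y, InBox B w → l ≤ y → y ≤ u → 0 ≤ y → ∑ j, w j + y ≤ 1 →
      (∀ n < 5, (s.lo n : ℝ) / SC ≤ asum G w n ∧ asum G w n ≤ (s.hi n : ℝ) / SC) ∧
        (s.lo 5 : ℝ) / SC ≤ 1 - ∑ j, w j - y ∧ 1 - ∑ j, w j - y ≤ (s.hi 5 : ℝ) / SC) :
    DustOK2G sysD ((tn : ℝ) / SC) B z1 z2 l u := by
  have h3 : (SC : ℝ) ≤ 3 * tn := by exact_mod_cast h13
  refine DG.dust2 (by rw [le_div_iff₀ SC_pos]; linarith) hp (fun _ => id) hz1 hz2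
    (h.pull hG hf hm le_rfl fun a R hB hΩ => ?_)
  have e := hB.tot
  obtain ⟨w1, w2⟩ := hw a _ hΩ.1 hΩ.2.1 hΩ.2.2 (hB.r0 _) (by linarith [hB.r0 false])
  refine ⟨w1, fun t => ?_⟩
  cases t
  · rwa [show R false = 1 - ∑ j, a j - R true by linarith]
  · exact ⟨hl.trans hΩ.2.1, hΩ.2.2.trans hu⟩

end fin

end Pool.Agent.MP_c853c5_nt.REG
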