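import Pool.Agent.MP_c853c5_nt.REG.InW
import Pool.Agent.MP_c853c5_nt.REG.Dust

/-!
Rules for the small primes, with the mixed fourth moment, the dispersion bound and two sieved
factors: pure real arithmetic.
-/

set_option autoImplicit false

open Finset

namespace Pool.Agent.MP_c853c5_nt.REG

open Pool.Agent.MP_c853c5_nt.S Pool.Agent.MP_c853c5_nt.R Pool.Agent.MP_c853c5_nt.Y
open Pool.Agent.MP_c853c5_nt.DT

section two

variable {Λ Λ' : Type} [Fintype Λ] [Fintype Λ'] {τ η η' : ℝ} {K K' : ℕ} {P P' : Prop}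
  {pr pr₁ : Λ → Prop} {pr' : Λ' → Prop} {w : Λ → ℝ} {w' : Λ' → ℝ}

open Classical in
/-- the dispersion bound with first group `A` and prime `i` -/
def D3 (τ η : ℝ) (K : ℕ) (w : Λ → ℝ) (A : Finset Λ) (i : Λ) : Prop := ∃ r : ℕ, 2 ≤ r ∧ r ≤ K ∧
  DispOK τ η r (∑ l ∈ A, w l) (w i) (∑ l ∈ (univ \ A).erase i, w l) ∧
  S.Eval τ η K (fun o : Option Λ => o.elim τ fun l => if l ∈ A then 0 else w l)
    ((τ + ∑ l ∈ univ \ A, w l) / 2)

/-- type II in a form that is stable under merging -/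
def T2 (τ η : ℝ) (K : ℕ) (P : Prop) (pr : Λ → Prop) (w : Λ → ℝ) : Prop :=
  P ∧ S.Eval τ η K w (1 / 2) ∨ ∃ A i, i ∉ A ∧ pr i ∧ D3 τ η K w A i

lemma D3.big {A : Finset Λ} {i : Λ} (h : D3 τ η K w A i) : 1 / 400 + η ≤ w i := by
  obtain ⟨r, -, -, h, -⟩ := h
  linarith [h.2.2.2.2.1, le_max_left 0 (τ - ∑ l ∈ A, w l)]

lemma T2.mono (h : T2 τ η K P pr w) (hK : K ≤ K') (hη : η' ≤ η) (hP : P → P')
    (hp : ∀ i, pr i → pr₁ i) : T2 τ η' K' P' pr₁ w := by
  rcases h with h | ⟨A, i, h1, h2, r, h3, h4, ⟨d1, d2, d3, d4, d5, d6, d7, d8, d9⟩, h9⟩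
  · exact Or.inl ⟨hP h.1, h.2.mono hK hη le_rfl⟩
  · exact Or.inr ⟨A, i, h1, hp i h2, r, h3, h4.trans hK,
      ⟨by linarith, by linarith, by linarith, by linarith, by linarith, by linarith, by linarith,
        by linarith, by linarith⟩, h9.mono hK hη le_rfl⟩

lemma T2.group [DecidableEq Λ'] (h : T2 τ η K P' pr' w') (g : Λ → Λ') (hη : 0 < η)
    (h0 : ∀ l, 0 ≤ w l) (hw : ∀ i, mrg g w i = w' i) (hP : P' → P)
    (hp : ∀ i', pr' i' → 0 < w' i' → ∃ i, pr i ∧ g i = i' ∧ w' i' ≤ w i) : T2 τ η K P pr w := by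
  classical
  rcases h with h | ⟨A, i', h1, h2, h3⟩
  · exact Or.inl ⟨hP h.1, h.2.group g fun i => (hw i).le⟩
  obtain ⟨i, g1, rfl, g3⟩ := hp i' h2 (by linarith [h3.big])
  obtain ⟨r, r1, r2, r3, r4⟩ := h3
  have key : ∀ B : Finset Λ', ∑ l ∈ univ.filter (fun l => g l ∈ B), w l = ∑ l ∈ B, w' l := by
    intro B
    rw [← sum_fiberwise_eq_sum_filter]
    exact sum_congr rfl fun l _ => hw l
  have e1 : w i = w' (g i) := le_antisymm
    ((single_le_sum (f := w) (fun l _ => h0 l) (by simp)).trans_eq (hw (g i))) g3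
  have e2 : univ \ univ.filter (fun l => g l ∈ A) = univ.filter fun l => g l ∈ univ \ A := by
    ext l
    simp
  have hi : i ∉ univ.filter fun l => g l ∈ A := by simpa using h1
  have e3 := sum_erase_add _ w (mem_sdiff.2 ⟨mem_univ _, hi⟩)
  have e4 := sum_erase_add _ w' (mem_sdiff.2 ⟨mem_univ _, h1⟩)
  have e5 : ∑ l ∈ univ \ univ.filter (fun l => g l ∈ A), w l = ∑ l ∈ univ \ A, w' l := by
    rw [e2, key]
  refine Or.inr ⟨univ.filter fun l => g l ∈ A, i, hi, g1, r, r1, r2, ?_, ?_⟩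
  · convert r3 using 1
    · exact key A
    · convert (show ∑ l ∈ (univ \ univ.filter (fun l => g l ∈ A)).erase i, w l =
        ∑ l ∈ (univ \ A).erase (g i), w' l by linarith)
  · have := r4.group (b := fun o : Option Λ => o.elim τ fun l => if g l ∈ A then 0 else w l)
      (Option.map g) fun o => by
        rw [fib_W]
        cases o with
        | none => exact le_rfl
        | some n =>
          simp only [Option.elim]
          split_ifs with c
          · exact (sum_eq_zero fun l hl => if_pos ((mem_filter.1 hl).2 ▸ c)).le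
          · exact ((sum_congr rfl fun l hl => if_neg ((mem_filter.1 hl).2 ▸ c)).trans (hw n)).le
    convert this using 4
    · simp
    · convert e5

lemma T2.q2 {c N : ℝ} (h : T2 τ η K P pr w) (hη : 0 < η) (hτ : 1 / 3 ≤ τ) (hw : ∀ j, 0 ≤ w j)
    (hs : ∑ j, w j = 1) (hP : P → ∃ i, pr i ∧ c ≤ w i) (hc0 : 0 < c) (hc : c ≤ 1 / 400)
    (hN : (Fintype.card Λ : ℝ) ≤ N) : sysD.q2 τ (eta3 η c N K) K pr w := by
  rcases h with h | ⟨A, i, h1, h2, h3⟩
  · obtain ⟨i, h1, h2⟩ := hP h.1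
    exact T3.q2 (A := ∅) (Or.inl h.2) hη hτ hw hs (notMem_empty i) h1 hc0 h2 hN
  · exact T3.q2 (Or.inr h3) hη hτ hw hs h1 h2 hc0 (by linarith [h3.big]) hN

lemma TwoW.mono {b1 b2 : ℝ} (h : TwoW τ η K w b1 b2) (hK : K ≤ K') (hη : η' ≤ η) :
    TwoW τ η' K' w b1 b2 :=
  h.imp (·.mono hK hη) (Or.imp (·.mono hK hη) (·.mono hK hη))

lemma TwoW.group [DecidableEq Λ'] {b1 b2 : ℝ} (h : TwoW τ η K w' b1 b2) (g : Λ → Λ')
    (hw : ∀ i, mrg g w i ≤ w' i) : TwoW τ η K w b1 b2 := by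
  have key : ∀ (x : ℝ) (o : Option Λ'),
      ∑ j ∈ univ.filter (fun j : Option Λ => j.map g = o), j.elim x w ≤ o.elim x w' := by
    intro x o
    rw [fib_W]
    cases o
    exacts [le_rfl, hw _]
  exact h.imp (·.group _ (key _)) (Or.imp (·.group _ (key _)) (·.group g hw))

lemma TwoW.swap {b1 b2 : ℝ} (h : TwoW τ η K w b2 b1) : TwoW τ η K w b1 b2 := by
  classical
  rcases h with h | h | h
  exacts [Or.inr (Or.inl h), Or.inl h, Or.inr (Or.inr ⟨h.2.1, h.1, h.2.2.group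
    (fun o => o.elim (some none) fun o' => o'.elim none fun i => some (some i))
    (by rintro (_ | _ | i) <;> simp [sum_filter])
    (by
      rintro _ (rfl | rfl)
      · exact ⟨some none, Or.inr rfl, by rintro (_ | _ | j) <;> simp⟩
      · exact ⟨none, Or.inl rfl, by rintro (_ | _ | j) <;> simp⟩)⟩)]

/-- general factors `c` and two smooth factors `b` -/
def Fn (τ η η' : ℝ) (K : ℕ) (P : Prop) (pr : Λ → Prop) (c : Λ → ℝ) (b : Bool → ℝ) : Prop :=
  TwoW τ η K c (b false) (b true) ∨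
    T2 τ η' K P (Sum.elim (fun _ => False) pr) (Sum.elim b c)

lemma Fn.mono {e e' : ℝ} {b : Bool → ℝ} (h : Fn τ η e K P pr w b) (hK : K ≤ K') (hη : η' ≤ η)
    (he : e' ≤ e) : Fn τ η' e' K' P pr w b :=
  h.imp (·.mono hK hη) (·.mono hK he id fun _ => id)

lemma Fn.group [DecidableEq Λ'] {b : Bool → ℝ} (h : Fn τ η η' K P' pr' w' b) (g : Λ → Λ')
    (hη : 0 < η') (h0 : ∀ l, 0 ≤ w l) (hb : ∀ t, 0 ≤ b t) (hw : ∀ i, mrg g w i = w' i)
    (hP : P' → P) (hp : ∀ i', pr' i' → 0 < w' i' → ∃ i, pr i ∧ g i = i' ∧ w' i' ≤ w i) :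
    Fn τ η η' K P pr w b := by
  refine h.imp (·.group g fun i => (hw i).le) fun h => h.group (Sum.map id g) hη
    (by rintro (t | l); exacts [hb t, h0 l]) ?_ hP ?_
  · rintro (t | l)
    · simp [mrg, sum_filter]
    · simpa [mrg, sum_filter] using hw l
  · rintro (t | l) h1 h2
    · exact h1.elim
    · obtain ⟨i, g1, g2, g3⟩ := hp l h1 h2
      exact ⟨Sum.inr i, g1, congrArg _ g2, g3⟩

end two

/-- what is left of the sieved factor `t` -/
noncomputable def rm {J : Type} [Fintype J] (q : J → ℝ) (s : J → Bool) (b : Bool → ℝ) :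
    Bool → ℝ := fun t => b t + ∑ j, if s j = t then q j else 0

structure Adm {ι J : Type} [Fintype ι] [Fintype J] (κ z : ℝ) (pr : ι → Prop) (a : ι → ℝ)
    (q : J → ℝ) (b : Bool → ℝ) : Prop where
  a0 : ∀ i, 0 ≤ a i
  ap : ∀ i, pr i → κ ≤ a i
  q0 : ∀ j, q j = 0 ∨ κ ≤ q j ∧ q j ≤ z
  b0 : ∀ t, 0 ≤ b t
  tot : ∑ i, a i + ∑ j, q j + (b false + b true) = 1

structure Bas {ι : Type} [Fintype ι] (a : ι → ℝ) (R : Bool → ℝ) : Prop where
  a0 : ∀ i, 0 ≤ a i
  r0 : ∀ t, 0 ≤ R t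
  tot : ∑ i, a i + (R false + R true) = 1

/-- the small primes condition on a set of points; `P` says that a fixed factor is prime, the
slots in `pr` are primes -/
def DG (τ : ℝ) {ι : Type} [Fintype ι] (P : Prop) (pr : ι → Prop)
    (Ω : (ι → ℝ) → (Bool → ℝ) → Prop) (z : ℝ) : Prop :=
  ∃ η : ℝ, 0 < η ∧ ∀ κ : ℝ, 0 < κ → ∃ η' : ℝ, 0 < η' ∧ ∃ K : ℕ,
    ∀ (J : Type) [Fintype J] (a : ι → ℝ) (q : J → ℝ) (s : J → Bool) (b : Bool → ℝ),
      Adm κ z pr a q b → Ω a (rm q s b) →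
      Fn τ η η' K (P ∨ ∃ j, κ ≤ q j) (Sum.elim pr fun _ => True) (Sum.elim a q) b

section adm

variable {ι J : Type} [Fintype ι] [Fintype J] {κ z : ℝ} {pr pr' : ι → Prop} {a : ι → ℝ}
  {q : J → ℝ} {b : Bool → ℝ}

lemma Adm.q1 (h : Adm κ z pr a q b) (hκ : 0 < κ) (j : J) : 0 ≤ q j :=
  (h.q0 j).elim ge_of_eq fun e => hκ.le.trans e.1

lemma Adm.c0 (h : Adm κ z pr a q b) (hκ : 0 < κ) (l : ι ⊕ J) : 0 ≤ Sum.elim a q l := by
  cases l
  exacts [h.a0 _, h.q1 hκ _]

lemma rm_sum (q : J → ℝ) (s : J → Bool) (b : Bool → ℝ) :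
    rm q s b false + rm q s b true = ∑ j, q j + (b false + b true) := by
  have : ∑ j, q j = (∑ j, if s j = false then q j else 0) + ∑ j, if s j = true then q j else 0 := by
    rw [← sum_add_distrib]
    exact sum_congr rfl fun j _ => by cases s j <;> simp
  simp only [rm]
  linarith

lemma Adm.bas (h : Adm κ z pr a q b) (hκ : 0 < κ) (s : J → Bool) : Bas a (rm q s b) :=
  ⟨h.a0, fun t => add_nonneg (h.b0 t) (sum_nonneg fun j _ => by
    split_ifs
    exacts [h.q1 hκ j, le_rfl]), by rw [rm_sum, ← add_assoc, h.tot]⟩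

/-- the slot `i` grows by `u` -/
def ad {ι : Type} [DecidableEq ι] (a : ι → ℝ) (i : ι) (u : ℝ) : ι → ℝ :=
  fun k => a k + if k = i then u else 0

/-- a small prime is merged into the slot `i` -/
lemma Adm.move [DecidableEq ι] [DecidableEq J] (h : Adm κ z pr a q b) (hκ : 0 < κ) (s : J → Bool)
    {j : J} (hj : κ ≤ q j) (i : ι) (hp : ∀ k, pr' k → k = i ∧ a i ≤ 0 ∨ k ≠ i ∧ pr k) :
    q j ≤ rm q s b (s j) ∧ Adm κ z pr' (ad a i (q j)) (Function.update q j 0) b ∧
      rm (Function.update q j 0) s b = ad (rm q s b) (s j) (-q j) ∧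
      ∀ (τ η η' : ℝ) (K : ℕ) (P P' : Prop), 0 < η' →
        Fn τ η η' K P' (Sum.elim pr' fun _ => True)
          (Sum.elim (ad a i (q j)) (Function.update q j 0)) b →
        Fn τ η η' K (P ∨ ∃ j, κ ≤ q j) (Sum.elim pr fun _ => True) (Sum.elim a q) b := by
  have hm : mrg id a = a := funext fun i => by simp [mrg, sum_filter]
  have k2 := move_sum id i a q j
  rw [hm] at k2
  have e : rm (Function.update q j 0) s b = ad (rm q s b) (s j) (-q j) := by
    funext t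
    simp only [rm, ad]
    rw [← add_sum_erase _ _ (mem_univ j), ← add_sum_erase _ (fun j => if s j = t then q j else 0)
      (mem_univ j), sum_congr rfl fun k hk => by rw [Function.update_of_ne (ne_of_mem_erase hk)]]
    simp only [Function.update_self, ite_self, @eq_comm _ t]
    split_ifs <;> ring
  have h1 : Adm κ z pr' (ad a i (q j)) (Function.update q j 0) b :=
    ⟨fun k => add_nonneg (h.a0 k) (by split_ifs; exacts [h.q1 hκ j, le_rfl]),
      fun k hk => by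
        rcases hp k hk with c | c
        · simp only [ad, if_pos c.1]
          linarith [h.a0 k]
        · simpa only [ad, if_neg c.1, add_zero] using h.ap k c.2,
      upd_ok h.q0 j, h.b0, by rw [← h.tot, ← k2]; rfl⟩
  refine ⟨?_, h1, e, fun τ η η' K P P' hη hF => hF.group
    (Sum.elim Sum.inl fun k => if k = j then Sum.inl i else Sum.inr k) hη (h.c0 hκ) h.b0 ?_
    (fun _ => Or.inr ⟨j, hj⟩) ?_⟩
  · have := (h1.bas hκ s).r0 (s j)
    rw [e] at this
    simp only [ad, if_true] at this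
    linarith
  · rintro (k | k)
    · simp only [mrg, sum_filter, Fintype.sum_sum_type, Sum.elim_inl, Sum.elim_inr, Sum.inl.injEq,
        ad]
      rw [sum_eq_single (s := univ) j (fun j _ hj => by simp [hj]) (by simp)]
      simp [eq_comm]
    · simp only [mrg, sum_filter, Fintype.sum_sum_type, Sum.elim_inl, Sum.elim_inr]
      rw [sum_eq_single k (fun l _ hl => by by_cases e : l = j <;> simp [e, hl]) (by simp)]
      by_cases e : k = j <;> simp [e]
  · rintro (k | k) g1 g2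
    · rcases hp k g1 with c | c
      · refine ⟨Sum.inr j, trivial, by simp [c.1], ?_⟩
        simp only [Sum.elim_inl, Sum.elim_inr, ad, c.1, if_true]
        linarith [c.2]
      · exact ⟨Sum.inl k, c.2, rfl, by simp [ad, c.1]⟩
    · have e : k ≠ j := by
        rintro rfl
        simp at g2
      exact ⟨Sum.inr k, trivial, by simp [e], by simp [e]⟩

end adm

section rules

variable {ι ι' : Type} [Fintype ι] [Fintype ι'] {τ z z' c : ℝ} {P P' : Prop} {pr pr₁ : ι → Prop}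
  {pr' : ι' → Prop} {Ω Ω₁ Ω₂ : (ι → ℝ) → (Bool → ℝ) → Prop} {Ω' : (ι' → ℝ) → (Bool → ℝ) → Prop}

theorem dg_empty (h : ∀ a R, Bas a R → ¬ Ω a R) : DG τ P pr Ω z :=
  ⟨1, one_pos, fun _ hκ => ⟨1, one_pos, 0, fun _ _ _ _ s _ ha hΩ => (h _ _ (ha.bas hκ s) hΩ).elim⟩⟩

/-- combination of two statements -/
lemma dg_two (h1 : DG τ P pr Ω₁ c) (h2 : DG τ P' pr' Ω' z')
    (h : ∀ (κ η η' : ℝ) (K : ℕ) (J : Type) [Fintype J] (a : ι → ℝ) (q : J → ℝ) (s : J → Bool)
      (b : Bool → ℝ), 0 < κ → 0 < η' → Adm κ z pr a q b → Ω a (rm q s b) →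
      (Ω₁ a (rm q s b) ∧ ∀ j, q j = 0 ∨ κ ≤ q j ∧ q j ≤ c) ∨
        ∃ (a' : ι' → ℝ) (q' : J → ℝ) (s' : J → Bool) (b' : Bool → ℝ), Adm κ z' pr' a' q' b' ∧
          Ω' a' (rm q' s' b') ∧
          (Fn τ η η' K (P' ∨ ∃ j, κ ≤ q' j) (Sum.elim pr' fun _ => True) (Sum.elim a' q') b' →
            Fn τ η η' K (P ∨ ∃ j, κ ≤ q j) (Sum.elim pr fun _ => True) (Sum.elim a q) b)) :
    DG τ P pr Ω z := by
  obtain ⟨η1, hη1, h1⟩ := h1
  obtain ⟨η2, hη2, h2⟩ := h2
  refine ⟨min η1 η2, lt_min hη1 hη2, fun κ hκ => ?_⟩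
  obtain ⟨e1, he1, K1, h1⟩ := h1 κ hκ
  obtain ⟨e2, he2, K2, h2⟩ := h2 κ hκ
  refine ⟨min e1 e2, lt_min he1 he2, max K1 K2, fun J _ a q s b ha hΩ => ?_⟩
  rcases h κ η2 e2 K2 J a q s b hκ he2 ha hΩ with ⟨g1, g2⟩ | ⟨a', q', s', b', g1, g2, g3⟩
  · exact (h1 J a q s b ⟨ha.a0, ha.ap, g2, ha.b0, ha.tot⟩ g1).mono (le_max_left _ _)
      (min_le_left _ _) (min_le_left _ _)
  · exact (g3 (h2 J a' q' s' b' g1 g2)).mono (le_max_right _ _) (min_le_right _ _)
      (min_le_right _ _)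

theorem DG.union (h1 : DG τ P pr Ω₁ z) (h2 : DG τ P pr Ω₂ z)
    (h : ∀ a R, Ω a R → Ω₁ a R ∨ Ω₂ a R) : DG τ P pr Ω z :=
  dg_two h1 h2 fun _ _ _ _ _ _ a q s b _ _ ha hΩ => (h _ _ hΩ).imp (fun e => ⟨e, ha.q0⟩)
    fun e => ⟨a, q, s, b, ha, e, id⟩

theorem DG.group [DecidableEq ι'] (h : DG τ P' pr' Ω' z') (g : ι → ι') (hP : P' → P) (hz : z ≤ z')
    (hg : ∀ a R, Bas a R → Ω a R → Ω' (mrg g a) R ∧
      ∀ i', pr' i' → ∃ i, pr i ∧ g i = i' ∧ mrg g a i' ≤ a i) : DG τ P pr Ω z := by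
  classical
  refine dg_two (dg_empty (Ω := fun _ _ => False) fun _ _ _ => id) (c := 0) h
    fun κ η η' K J _ a q s b hκ hη ha hΩ => Or.inr ?_
  obtain ⟨g1, g2⟩ := hg _ _ (ha.bas hκ s) hΩ
  refine ⟨mrg g a, q, s, b, ⟨fun i => sum_nonneg fun j _ => ha.a0 j, fun i hi => ?_,
    fun j => (ha.q0 j).imp_right fun e => ⟨e.1, e.2.trans hz⟩, ha.b0, by rw [sum_mrg, ha.tot]⟩,
    g1, fun e => e.group (Sum.map g id) hη (ha.c0 hκ) ha.b0 ?_ (Or.imp_left hP) ?_⟩
  · obtain ⟨k, k1, rfl, -⟩ := g2 i hi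
    exact (ha.ap k k1).trans (single_le_sum (f := a) (fun l _ => ha.a0 l) (by simp))
  · rintro (i | j) <;> simp [mrg, sum_filter]
  · rintro (i | j) h1 -
    · obtain ⟨k, k1, k2, k3⟩ := g2 i h1
      exact ⟨Sum.inl k, k1, congrArg _ k2, k3⟩
    · exact ⟨Sum.inr j, trivial, rfl, le_rfl⟩

lemma mrg_id [DecidableEq ι] (a : ι → ℝ) : mrg id a = a :=
  funext fun i => by simp [mrg, sum_filter]

theorem DG.mono (h : DG τ P' pr₁ Ω₁ z') (hP : P' → P) (hz : z ≤ z') (hp : ∀ i, pr₁ i → pr i)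
    (hΩ : ∀ a R, Bas a R → Ω a R → Ω₁ a R) : DG τ P pr Ω z := by
  classical
  refine h.group id hP hz fun a R h1 h2 => ?_
  rw [mrg_id]
  exact ⟨hΩ a R h1 h2, fun i hi => ⟨i, hp i hi, rfl, le_rfl⟩⟩

/-- recursion on a large prime: it is merged into the slot `i` -/
theorem DG.step [DecidableEq ι] (h1 : DG τ P pr Ω c) (h2 : DG τ True pr₁ Ω₁ z) (i : ι)
    (hp : ∀ a R, Ω a R → ∀ k, pr₁ k → k = i ∧ a i ≤ 0 ∨ k ≠ i ∧ pr k)
    (hg : ∀ a R, Bas a R → Ω a R → ∀ t u, 0 < u → c ≤ u → u ≤ z → u ≤ R t →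
      Ω₁ (ad a i u) (ad R t (-u))) : DG τ P pr Ω z := by
  classical
  refine dg_two h1 h2 fun κ η η' K J _ a q s b hκ hη ha hΩ => ?_
  by_cases hc : ∀ j, q j = 0 ∨ κ ≤ q j ∧ q j ≤ c
  · exact Or.inl ⟨hΩ, hc⟩
  obtain ⟨j, hj⟩ := not_forall.1 hc
  rw [not_or, not_and, not_le] at hj
  obtain ⟨g1, g2⟩ := (ha.q0 j).resolve_left hj.1
  obtain ⟨m1, m2, m3, m4⟩ := ha.move hκ s g1 i (hp _ _ hΩ)
  exact Or.inr ⟨_, _, s, b, m2, m3 ▸ hg _ _ (ha.bas hκ s) hΩ _ _ (hκ.trans_le g1) (hj.2 g1).le g2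
    m1, m4 _ _ _ _ _ _ hη⟩

/-- the invariant set rule -/
theorem DG.inv [DecidableEq ι] (h1 : DG τ P pr Ω 0) (h2 : DG τ True pr₁ Ω₁ z) (i₀ i : ι)
    (h0 : ¬ pr i₀) (hp : ∀ a R, Ω a R → ∀ k, pr₁ k → k = i ∧ a i ≤ 0 ∨ k ≠ i ∧ pr k)
    (hg : ∀ a R, Bas a R → Ω a R → ∀ t u, 0 < u → u ≤ z → u ≤ R t →
      Ω (ad a i₀ u) (ad R t (-u)) ∨ Ω₁ (ad a i u) (ad R t (-u))) : DG τ P pr Ω z := by
  classical
  obtain ⟨η1, hη1, h1⟩ := h1
  obtain ⟨η2, hη2, h2⟩ := h2
  refine ⟨min η1 η2, lt_min hη1 hη2, fun κ hκ => ?_⟩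
  obtain ⟨e1, he1, K1, h1⟩ := h1 κ hκ
  obtain ⟨e2, he2, K2, h2⟩ := h2 κ hκ
  refine ⟨min e1 e2, lt_min he1 he2, max K1 K2, fun J _ a q s b ha hΩ => ?_⟩
  have main : ∀ (T : Finset J) (a : ι → ℝ) (q : J → ℝ), (∀ j, j ∉ T → q j = 0) →
      Adm κ z pr a q b → Ω a (rm q s b) → Fn τ (min η1 η2) (min e1 e2) (max K1 K2)
        (P ∨ ∃ j, κ ≤ q j) (Sum.elim pr fun _ => True) (Sum.elim a q) b := by
    intro T
    induction T using Finset.induction_on with
    | empty =>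
      intro a q hT ha hΩ
      exact (h1 J a q s b ⟨ha.a0, ha.ap, fun j => Or.inl (hT j (notMem_empty j)), ha.b0, ha.tot⟩
        hΩ).mono (le_max_left _ _) (min_le_left _ _) (min_le_left _ _)
    | insert j T _ ih =>
      intro a q hT ha hΩ
      rcases ha.q0 j with e | e
      · exact ih a q (fun k hk => by
          by_cases c : k = j
          · rwa [c]
          · exact hT k (by simp [c, hk])) ha hΩ
      obtain ⟨m1, m2, m3, m4⟩ := ha.move (pr' := pr) hκ s e.1 i₀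
        fun k hk => Or.inr ⟨fun c => h0 (c ▸ hk), hk⟩
      obtain ⟨-, n2, -, n4⟩ := ha.move hκ s e.1 i (hp _ _ hΩ)
      rcases hg _ _ (ha.bas hκ s) hΩ _ _ (hκ.trans_le e.1) e.2 m1 with c | c
      · exact m4 _ _ _ _ _ _ (lt_min he1 he2) (ih _ _ (fun k hk => by
          by_cases c : k = j
          · simp [c]
          · simpa [c] using hT k (by simp [c, hk])) m2 (m3 ▸ c))
      · exact (n4 _ _ _ _ _ _ he2 (h2 J _ _ s b n2 (m3 ▸ c))).mono (le_max_right _ _)
          (min_le_right _ _) (min_le_right _ _)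
  exact main univ a q (by simp) ha hΩ

/-- no small primes: type I -/
theorem dg_one {η : ℝ} {K : ℕ} (hη : 0 < η) (hz : z ≤ 0) (i : ι)
    (h : ∀ a R, Bas a R → Ω a R → TwoW τ η K a (R false) (R true)) : DG τ P pr Ω z := by
  classical
  refine ⟨η, hη, fun κ hκ => ⟨1, one_pos, K, fun J _ a q s b ha hΩ => Or.inl ?_⟩⟩
  obtain rfl : q = fun _ => 0 := funext fun j => (ha.q0 j).resolve_right fun e => by
    linarith [e.1, e.2]
  have e : rm (fun _ : J => (0 : ℝ)) s b = b := funext fun t => by simp [rm]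
  have h1 := h _ _ (ha.bas hκ s) hΩ
  rw [e] at h1
  refine h1.group (Sum.elim (fun k => k) fun _ => i) fun k => le_of_eq ?_
  rw [mrg, sum_filter, Fintype.sum_sum_type]
  exact (congrArg₂ (· + ·) ((sum_eq_single k (fun j _ hj => if_neg hj) (by simp)).trans
    (if_pos rfl)) (sum_eq_zero fun j _ => ite_self _)).trans (add_zero _)

/-- type II with the rest of each sieved factor in one slot -/
theorem dg_leaf (h : ∀ κ : ℝ, 0 < κ → ∃ η : ℝ, 0 < η ∧ ∃ K : ℕ, ∀ a R, Bas a R → Ω a R →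
    (∀ i, pr i → κ ≤ a i) → T2 τ η K P (Sum.elim (fun _ => False) pr) (Sum.elim R a)) :
    DG τ P pr Ω z := by
  classical
  refine ⟨1, one_pos, fun κ hκ => ?_⟩
  obtain ⟨η, hη, K, h⟩ := h κ hκ
  refine ⟨η, hη, K, fun J _ a q s b ha hΩ => Or.inr ((h _ _ (ha.bas hκ s) hΩ ha.ap).group
    (Sum.elim Sum.inl (Sum.elim Sum.inr fun j => Sum.inl (s j))) hη
    (by rintro (t | l); exacts [ha.b0 t, ha.c0 hκ l]) ?_ Or.inl ?_)⟩
  · rintro (t | i) <;> simp [mrg, sum_filter, rm]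
  · rintro (t | i) h1 -
    exacts [h1.elim, ⟨Sum.inr (Sum.inl i), h1, rfl, le_rfl⟩]

theorem DG.swap (h : DG τ P pr Ω₁ z) (hΩ : ∀ a R, Ω a R → Ω₁ a fun t => R (!t)) :
    DG τ P pr Ω z := by
  classical
  refine dg_two (dg_empty (Ω := fun _ _ => False) fun _ _ _ => id) (c := 0) h
    fun κ η η' K J _ a q s b hκ hη ha hΩ' => Or.inr ⟨a, q, fun j => !s j, fun t => b (!t),
      ⟨ha.a0, ha.ap, ha.q0, fun _ => ha.b0 _, by simpa [add_comm] using ha.tot⟩, ?_,
      Or.imp TwoW.swap fun e => e.group (Sum.map not id) hη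
        (by rintro (t | l); exacts [ha.b0 t, ha.c0 hκ l]) ?_ id ?_⟩
  · convert hΩ _ _ hΩ' using 2 with t
    simp only [rm]
    congr 1
    exact sum_congr rfl fun j _ => by cases t <;> by_cases e : s j = true <;> simp [e]
  · rintro ((_ | _) | i) <;> simp [mrg, sum_filter]
  · rintro (t | i) h1 -
    exacts [h1.elim, ⟨Sum.inr i, h1, rfl, le_rfl⟩]

/-- the rest of the second sieved factor is merged into the slot `i` -/
theorem DG.frz [DecidableEq ι] (h : DG τ P pr₁ Ω₁ z) (i : ι) (hp : ∀ k, pr₁ k → k ≠ i ∧ pr k)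
    (hΩ : ∀ a R, Bas a R → Ω a R → Ω₁ (ad a i (R true)) fun t => cond t 0 (R false)) :
    DG τ P pr Ω z := by
  classical
  refine dg_two (dg_empty (Ω := fun _ _ => False) fun _ _ _ => id) (c := 0) h
    fun κ η η' K J _ a q s b hκ hη ha hΩ' => Or.inr ?_
  have hB := ha.bas hκ s
  have e1 : ∑ j, (if s j = true then 0 else q j) = ∑ j, if s j = false then q j else 0 :=
    sum_congr rfl fun j _ => by by_cases e : s j = true <;> simp [e]
  refine ⟨ad a i (rm q s b true), fun j => if s j then 0 else q j, s, fun t => cond t 0 (b false),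
    ⟨fun k => add_nonneg (ha.a0 k) (by split_ifs; exacts [hB.r0 _, le_rfl]),
      fun k hk => by simpa only [ad, if_neg (hp k hk).1, add_zero] using ha.ap k (hp k hk).2,
      fun j => by split_ifs; exacts [Or.inl rfl, ha.q0 j],
      fun t => by cases t; exacts [ha.b0 _, le_rfl], ?_⟩, ?_, fun e => ?_⟩
  · have := hB.tot
    simp only [ad, sum_add_distrib, sum_ite_eq', mem_univ, if_true, cond, e1]
    simp only [rm] at this ⊢
    linarith
  · convert hΩ _ _ hB hΩ' using 2 with t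
    cases t
    · simp only [rm, cond]
      congr 1
      exact sum_congr rfl fun j _ => by by_cases e : s j = true <;> simp [e]
    · simp only [rm, cond, zero_add]
      exact sum_eq_zero fun j _ => by by_cases e : s j = true <;> simp [e]
  rcases e with (e | e | e) | e
  · refine Or.inl (Or.inl (e.group (fun o : Option (ι ⊕ J) => o.elim (some (Sum.inl i))
      (Sum.elim (fun k => some (Sum.inl k))
        fun j => if s j then some (Sum.inl i) else some (Sum.inr j))) fun o => le_of_eq ?_))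
    rw [sum_filter, Fintype.sum_option, Fintype.sum_sum_type]
    rcases o with _ | k | k
    · simp only [Option.elim, Sum.elim_inl, Sum.elim_inr, reduceCtorEq, if_false, sum_const_zero,
        zero_add, cond]
      exact sum_eq_zero fun j _ => by by_cases e : s j = true <;> simp [e]
    · by_cases c : k = i
      · subst c
        simp only [Option.elim, Sum.elim_inl, Sum.elim_inr, if_true, Option.some.injEq,
          Sum.inl.injEq, sum_ite_eq', mem_univ, ad, rm]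
        rw [sum_congr rfl (g := fun j => if s j = true then q j else 0) fun j _ => by
          by_cases e : s j = true <;> simp [e]]
        ring
      · simp only [Option.elim, Sum.elim_inl, Sum.elim_inr, Option.some.injEq,
          Sum.inl.injEq, sum_ite_eq', mem_univ, ad, if_true, if_neg c, if_neg (Ne.symm c)]
        rw [sum_eq_zero fun j _ => by by_cases e : s j = true <;> simp [e, Ne.symm c]]
        ring
    · simp only [Option.elim, Sum.elim_inl, Sum.elim_inr, Option.some.injEq, reduceCtorEq,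
        if_false, sum_const_zero, zero_add]
      rw [sum_eq_single k (fun j _ hj => by by_cases e : s j = true <;> simp [e, hj]) (by simp)]
      by_cases e : s k = true <;> simp [e]
  · exact absurd e.1 (by norm_num [cond])
  · exact absurd e.2.1 (by norm_num [cond])
  refine Or.inr (e.group (Sum.elim (fun t => cond t (Sum.inr (Sum.inl i)) (Sum.inl false))
    (Sum.elim (fun k => Sum.inr (Sum.inl k))
      fun j => if s j then Sum.inr (Sum.inl i) else Sum.inr (Sum.inr j))) hη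
    (by rintro (t | l); exacts [ha.b0 t, ha.c0 hκ l]) ?_
    (Or.imp_right fun ⟨j, hj⟩ => ⟨j, by
      dsimp only at hj
      split_ifs at hj
      exacts [absurd hj (not_le.2 hκ), hj]⟩) ?_)
  · intro o
    rw [mrg, sum_filter, Fintype.sum_sum_type, Fintype.sum_sum_type, Fintype.sum_bool]
    rcases o with t | k | k
    · rw [sum_eq_zero (s := (univ : Finset J)) fun j _ => by by_cases e : s j = true <;> simp [e]]
      cases t <;> simp
    · by_cases c : k = i
      · subst c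
        rw [sum_congr (s₁ := (univ : Finset J)) rfl (g := fun j => if s j = true then q j else 0)
          fun j _ => by by_cases e : s j = true <;> simp [e]]
        simp [ad, rm]
        ring
      · rw [sum_eq_zero (s := (univ : Finset J)) fun j _ => by by_cases e : s j = true <;> simp [e, Ne.symm c]]
        simp [ad, c, Ne.symm c]
    · rw [sum_eq_single (s := (univ : Finset J)) k (fun j _ hj => by by_cases e : s j = true <;> simp [e, hj])
        (by simp)]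
      by_cases e : s k = true <;> simp [e]
  · rintro (t | k | k) h1 h2
    · exact h1.elim
    · exact ⟨Sum.inr (Sum.inl k), (hp k h1).2, rfl, by simp [ad, (hp k h1).1]⟩
    · have c : s k = false := by
        by_contra c
        simp [Bool.of_not_eq_false c] at h2
      exact ⟨Sum.inr (Sum.inr k), trivial, by simp [c], by simp [c]⟩

end rules

section fin

variable {r : ℕ} {τ z : ℝ} {B : Fin r → Blk} {P : Prop} {pr : Fin r → Prop}

lemma exists_c (f : Fin r → ℝ) {κ : ℝ} (hκ : 0 < κ) :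
    ∃ c : ℝ, 0 < c ∧ c ≤ κ ∧ c ≤ 1 / 400 ∧ ∀ i, 0 < f i → c ≤ f i := by
  obtain ⟨o, ho⟩ := Finite.exists_min fun o : Option (Fin r) =>
    o.elim (min κ (1 / 400)) fun i => if 0 < f i then f i else 1
  refine ⟨_, ?_, (ho none).trans (min_le_left _ _), (ho none).trans (min_le_right _ _),
    fun i hi => (ho (some i)).trans_eq (if_pos hi)⟩
  cases o with
  | none => exact lt_min hκ (by norm_num)
  | some i =>
    simp only [Option.elim]
    split_ifs with c
    exacts [c, one_pos]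

theorem DG.dust1 (hτ : 1 / 3 ≤ τ) (hP : P → ∃ i, (B i).IsP ∧ 0 < (B i).lo)
    (hp : ∀ i, pr i → (B i).IsP ∧ 0 < (B i).lo)
    (h : DG τ P pr (fun a R => InBox B a ∧ R true = 0) z) : DustOKG sysD τ B z := by
  classical
  obtain ⟨η, hη, h⟩ := h
  refine ⟨η, hη, fun κ hκ => ?_⟩
  obtain ⟨c, c0, c1, c2, c3⟩ := exists_c (fun i => (B i).lo) hκ
  obtain ⟨η', hη', K, h⟩ := h c c0
  refine ⟨_, eta3_pos (c := c) (N := r + 1 / κ + 1) K hη' c0 (by positivity), K,
    fun j a q b ha hq hb hs => ?_⟩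
  have hA : Adm c z pr a q fun t => cond t 0 b := ⟨fun i => (ha i).1,
    fun i hi => (c3 i (hp i hi).2).trans (ha i).2.1, fun i => Or.inr ⟨c1.trans (hq i).1, (hq i).2⟩,
    fun t => by cases t; exacts [hb, le_rfl], by simpa using hs⟩
  have h0 : ∀ o : Option (Fin r ⊕ Fin j), 0 ≤ o.elim b (Sum.elim a q) := by
    rintro (_ | o)
    exacts [hb, hA.c0 c0 o]
  rcases h _ a q (fun _ => false) _ hA ⟨ha, by simp [rm]⟩ with (e | e | e) | e
  · exact Or.inl (e.group some (by rintro (_ | o) <;> simp [sum_filter]))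
  · exact absurd e.1 (by norm_num [cond])
  · exact absurd e.2.1 (by norm_num [cond])
  have h3 : 0 ≤ ∑ i, a i := sum_nonneg fun i _ => (ha i).1
  have h4 := card_le_of hκ hq (by linarith)
  refine Or.inr ((e.group (fun o : Option (Fin r ⊕ Fin j) => o.elim (Sum.inl false) Sum.inr) hη' h0
    (by rintro ((_ | _) | o) <;> simp [mrg, sum_filter]) id ?_).q2 hη' hτ h0 ?_ ?_ c0 c2 ?_)
  · rintro (t | i | i) h1 -
    exacts [h1.elim, ⟨some (Sum.inl i), (hp i h1).1, rfl, le_rfl⟩,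
      ⟨some (Sum.inr i), trivial, rfl, le_rfl⟩]
  · rw [Fintype.sum_option, Fintype.sum_sum_type, add_comm]
    exact hs
  · rintro (e | ⟨i, e⟩)
    · obtain ⟨i, e1, e2⟩ := hP e
      exact ⟨some (Sum.inl i), e1, (c3 i e2).trans (ha i).2.1⟩
    · exact ⟨some (Sum.inr i), trivial, e⟩
  · simp only [Fintype.card_option, Fintype.card_sum, Fintype.card_fin]
    push_cast
    linarith

theorem DG.dust2 {z1 z2 lo hi : ℝ} (hτ : 1 / 3 ≤ τ) (hP : P → ∃ i, (B i).IsP ∧ 0 < (B i).lo)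
    (hp : ∀ i, pr i → (B i).IsP ∧ 0 < (B i).lo) (hz1 : z1 ≤ z) (hz2 : z2 ≤ z)
    (h : DG τ P pr (fun a R => InBox B a ∧ lo ≤ R true ∧ R true ≤ hi) z) :
    DustOK2G sysD τ B z1 z2 lo hi := by
  classical
  obtain ⟨η, hη, h⟩ := h
  refine ⟨η, hη, fun κ hκ => ?_⟩
  obtain ⟨c, c0, c1, c2, c3⟩ := exists_c (fun i => (B i).lo) hκ
  obtain ⟨η', hη', K, h⟩ := h c c0
  refine ⟨_, eta3_pos (c := c) (N := r + 1 / κ + 1 / κ + 2) K hη' c0 (by positivity), K,
    fun j1 j2 a q1 q2 b1 b2 ha hq1 hq2 hb1 hb2 hs l1 l2 => ?_⟩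
  have hA : Adm c z pr a (Sum.elim q1 q2) fun t => cond t b2 b1 := ⟨fun i => (ha i).1,
    fun i hi => (c3 i (hp i hi).2).trans (ha i).2.1, by
      rintro (i | i)
      exacts [Or.inr ⟨c1.trans (hq1 i).1, (hq1 i).2.trans hz1⟩,
        Or.inr ⟨c1.trans (hq2 i).1, (hq2 i).2.trans hz2⟩],
    fun t => by cases t; exacts [hb1, hb2], by simpa [add_assoc] using hs⟩
  have h0 : ∀ o : Option (Option (Fin r ⊕ Fin j1 ⊕ Fin j2)),
      0 ≤ o.elim b1 fun o' => o'.elim b2 (Sum.elim a (Sum.elim q1 q2)) := by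
    rintro (_ | _ | o)
    exacts [hb1, hb2, hA.c0 c0 o]
  rcases h _ a _ (Sum.elim (fun _ => false) fun _ => true) _ hA
    ⟨ha, by simpa [rm, add_comm] using l1, by simpa [rm, add_comm] using l2⟩ with e | e
  · exact Or.inr e
  have h3 : 0 ≤ ∑ i, a i := sum_nonneg fun i _ => (ha i).1
  have h4 : 0 ≤ ∑ i, q1 i := sum_nonneg fun i _ => hκ.le.trans (hq1 i).1
  have h5 : 0 ≤ ∑ i, q2 i := sum_nonneg fun i _ => hκ.le.trans (hq2 i).1
  have h6 := card_le_of hκ hq1 (by linarith)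
  have h7 := card_le_of hκ hq2 (by linarith)
  refine Or.inl ((e.group (fun o : Option (Option (Fin r ⊕ Fin j1 ⊕ Fin j2)) =>
    o.elim (Sum.inl false) fun o' => o'.elim (Sum.inl true) Sum.inr) hη' h0
    (by rintro ((_ | _) | o) <;> simp [mrg, sum_filter]) id ?_).q2 hη' hτ h0 ?_ ?_ c0 c2 ?_)
  · rintro (t | i | i) h1 -
    exacts [h1.elim, ⟨some (some (Sum.inl i)), (hp i h1).1, rfl, le_rfl⟩,
      ⟨some (some (Sum.inr i)), trivial, rfl, le_rfl⟩]
  · simp only [Fintype.sum_option, Fintype.sum_sum_type, Option.elim, Sum.elim_inl, Sum.elim_inr]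
    linarith
  · rintro (e | ⟨i, e⟩)
    · obtain ⟨i, e1, e2⟩ := hP e
      exact ⟨some (some (Sum.inl i)), e1, (c3 i e2).trans (ha i).2.1⟩
    · exact ⟨some (some (Sum.inr i)), trivial, e⟩
  · simp only [Fintype.card_option, Fintype.card_sum, Fintype.card_fin]
    push_cast
    linarith

end fin

end Pool.Agent.MP_c853c5_nt.REG
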