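import Pool.Agent.MP_c853c5_nt.REG.Chk

/-!
Containment of boxes in the polytopes of the library.
-/

set_option autoImplicit false

open Finset

namespace Pool.Agent.MP_c853c5_nt.REG

open Pool.Agent.MP_c853c5_nt.E Pool.Agent.MP_c853c5_nt.S

lemma SC_pos : (0 : ℝ) < SC := by norm_num [SC]

/-- total size of the abstract slot `n` -/
noncomputable def asum {ι : Type} [Fintype ι] (G : ι → ℕ) (w : ι → ℝ) (n : ℕ) : ℝ :=
  ∑ j ∈ univ.filter (fun j => G j = n), w j

lemma asum_nonneg {ι : Type} [Fintype ι] (G : ι → ℕ) {w : ι → ℝ} (hw : ∀ j, 0 ≤ w j) (n : ℕ) :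
    0 ≤ asum G w n := sum_nonneg fun j _ => hw j

lemma sum_asum {ι : Type} [Fintype ι] {G : ι → ℕ} {M : ℕ} (hG : ∀ j, G j < M) (w : ι → ℝ)
    (F : ℕ → ℝ) : ∑ n ∈ range M, F n * asum G w n = ∑ j, F (G j) * w j := by
  rw [← sum_fiberwise_of_maps_to (s := univ) (t := range M) (g := G)
    (fun j _ => mem_range.2 (hG j))]
  refine sum_congr rfl fun n _ => ?_
  rw [asum, mul_sum]
  exact sum_congr rfl fun j hj => by rw [(mem_filter.1 hj).2]

lemma Good.gen {k tn e : ℕ} {P R : Poly} (h : Good k tn e P R) {ι : Type} [Fintype ι]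
    (w : ι → ℝ) (g : ι → ℕ) (hg : ∀ j, g j < k) (hw : ∀ j, 0 ≤ w j)
    (hP : ∀ x ∈ P, ∑ j, (x.1.getD (g j) 0 : ℝ) * w j ≤ (x.2 : ℝ) / SC)
    (hR : ∀ x ∈ R, (x.2 : ℝ) / SC ≤ ∑ j, (x.1.getD (g j) 0 : ℝ) * w j) :
    S.Eval ((tn : ℝ) / SC) ((e : ℝ) / 10000) 64 w (1 / 2 - (1 - (e : ℝ)) / 10000) := by
  have key : ∀ c : List ℕ, dot c (fun i : Fin k => asum g w i) =
      ∑ j, (c.getD (g j) 0 : ℝ) * w j := fun c => by
    have := sum_asum hg w fun n => (c.getD n 0 : ℝ)
    rw [dot, Fin.sum_univ_eq_sum_range (fun n => (c.getD n 0 : ℝ) * asum g w n), this]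
  refine (h (fun i => asum g w i) (fun i => asum_nonneg g hw _) (fun x hx => ?_)
    fun x hx => ?_).group (fun j => (⟨g j, hg j⟩ : Fin k)) fun i => le_of_eq ?_
  · rw [key]
    exact hP x hx
  · rw [key]
    exact hR x hx
  · exact sum_congr (filter_congr fun j _ => by simp [Fin.ext_iff]) fun _ _ => rfl

/-- sum of `F c lo hi` over the slots -/
def sm (F : ℕ → ℕ → ℕ → ℕ) : List ℕ → List ℕ → List ℕ → ℕ
  | [], _, _ => 0
  | c :: cs, lo, hi => F c (lo.headD 0) (hi.headD 0) + sm F cs lo.tail hi.tail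

lemma getD_zero' (l : List ℕ) : l.getD 0 0 = l.headD 0 := by cases l <;> simp

lemma getD_succ' (l : List ℕ) (i : ℕ) : l.getD (i + 1) 0 = l.tail.getD i 0 := by
  cases l <;> simp

lemma sm_eq (F : ℕ → ℕ → ℕ → ℕ) (c lo hi : List ℕ) :
    sm F c lo hi = ∑ n ∈ range c.length, F (c.getD n 0) (lo.getD n 0) (hi.getD n 0) := by
  induction c generalizing lo hi with
  | nil => simp [sm]
  | cons a c ih =>
    rw [sm, List.length_cons, sum_range_succ', ih, add_comm, getD_zero' lo, getD_zero' hi]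
    simp only [getD_succ' lo, getD_succ' hi, List.getD_cons_succ, List.getD_cons_zero]

/-- the slots lie in the box -/
def InB (M : ℕ) (lo hi : List ℕ) (A : ℕ → ℝ) : Prop :=
  ∀ n < M, (lo.getD n 0 : ℝ) / SC ≤ A n ∧ A n ≤ (hi.getD n 0 : ℝ) / SC

lemma InB.tail {M : ℕ} {lo hi : List ℕ} {A : ℕ → ℝ} (h : InB (M + 1) lo hi A) :
    InB M lo.tail hi.tail fun n => A (n + 1) := fun n hn => by
  rw [← getD_succ', ← getD_succ']
  exact h (n + 1) (by omega)

def pos (lam : ℕ) (c lo hi : List ℕ) : ℕ := sm (fun c _ h => (c - lam) * h) c lo hi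

def neg (lam : ℕ) (c lo hi : List ℕ) : ℕ := sm (fun c l _ => (lam - c) * l) c lo hi

lemma term_le (c lam l h : ℕ) {a : ℝ} (h1 : (l : ℝ) / SC ≤ a) (h2 : a ≤ (h : ℝ) / SC) :
    ((c : ℝ) - lam) * a * SC ≤ (((c - lam) * h : ℕ) : ℝ) - (((lam - c) * l : ℕ) : ℝ) := by
  rw [div_le_iff₀ SC_pos] at h1
  rw [le_div_iff₀ SC_pos] at h2
  rcases le_total c lam with hc | hc
  · have : (c : ℝ) ≤ lam := by exact_mod_cast hc
    rw [Nat.sub_eq_zero_of_le hc]
    push_cast [Nat.cast_sub hc]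
    nlinarith
  · have : (lam : ℝ) ≤ c := by exact_mod_cast hc
    rw [Nat.sub_eq_zero_of_le hc]
    push_cast [Nat.cast_sub hc]
    nlinarith

lemma lin_le (lam : ℕ) (c lo hi : List ℕ) {A : ℕ → ℝ} (h : InB c.length lo hi A) :
    (∑ n ∈ range c.length, (c.getD n 0 : ℝ) * A n - lam * ∑ n ∈ range c.length, A n) * SC ≤
      (pos lam c lo hi : ℝ) - neg lam c lo hi := by
  rw [pos, neg, sm_eq, sm_eq, Nat.cast_sum, Nat.cast_sum, ← sum_sub_distrib, mul_sum,
    ← sum_sub_distrib, sum_mul]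
  refine sum_le_sum fun n hn => ?_
  have := term_le (c.getD n 0) lam _ _ (h n (mem_range.1 hn)).1 (h n (mem_range.1 hn)).2
  linarith

/-- a row with multiplier `lam` for the total and `lam' - lam` for `fl ≤ A 0 + A 1` -/
def rowG (lam lam' fl e : ℕ) (c lo hi : List ℕ) : Bool :=
  match c with
  | c0 :: c1 :: c =>
    Nat.ble (lam' * SC + (c0 - lam) * hi.headD 0 + (c1 - lam) * hi.tail.headD 0 +
        pos lam' c lo.tail.tail hi.tail.tail)
      (e + (lam' - lam) * fl + (lam - c0) * lo.headD 0 + (lam - c1) * lo.tail.headD 0 +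
        neg lam' c lo.tail.tail hi.tail.tail)
  | _ => false

lemma rowG_ok {lam lam' fl e : ℕ} {c lo hi : List ℕ} (h : rowG lam lam' fl e c lo hi = true)
    (hl : lam ≤ lam') {A : ℕ → ℝ} (hA : InB c.length lo hi A)
    (hs : ∑ n ∈ range c.length, A n = 1) (hf : (fl : ℝ) / SC ≤ A 0 + A 1) :
    ∑ n ∈ range c.length, (c.getD n 0 : ℝ) * A n ≤ (e : ℝ) / SC := by
  match c, h, hA, hs with
  | c0 :: c1 :: c, h, hA, hs =>
    simp only [rowG, Nat.ble_eq] at h
    simp only [List.length_cons, sum_range_succ', List.getD_cons_succ, List.getD_cons_zero]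
      at hs hA ⊢
    have t0 := term_le c0 lam _ _ (hA 0 (by omega)).1 (hA 0 (by omega)).2
    have t1 := term_le c1 lam _ _ (hA 1 (by omega)).1 (hA 1 (by omega)).2
    have t2 := lin_le lam' c _ _ hA.tail.tail
    rw [getD_zero', getD_zero'] at t0
    rw [getD_succ', getD_succ', getD_zero', getD_zero'] at t1
    have h' : ((lam' * SC + (c0 - lam) * hi.headD 0 + (c1 - lam) * hi.tail.headD 0 +
        pos lam' c lo.tail.tail hi.tail.tail : ℕ) : ℝ) ≤
        ((e + (lam' - lam) * fl + (lam - c0) * lo.headD 0 + (lam - c1) * lo.tail.headD 0 +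
        neg lam' c lo.tail.tail hi.tail.tail : ℕ) : ℝ) := by exact_mod_cast h
    rw [Nat.cast_add, Nat.cast_add, Nat.cast_add, Nat.cast_add, Nat.cast_add, Nat.cast_add,
      Nat.cast_add, Nat.cast_mul lam', Nat.cast_mul (lam' - lam), Nat.cast_sub hl] at h'
    rw [div_le_iff₀ SC_pos] at hf
    rw [le_div_iff₀ SC_pos]
    have hl' : (0 : ℝ) ≤ lam' - lam := sub_nonneg.2 (by exact_mod_cast hl)
    have := mul_le_mul_of_nonneg_left hf hl'
    have e1 : ∑ n ∈ range c.length, A (n + 1 + 1) = 1 - A 0 - A 1 := by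
      simp only [zero_add] at hs; linarith
    rw [e1] at t2
    simp only [zero_add]
    linarith

def rowOK (fl e : ℕ) (c lo hi : List ℕ) : Bool :=
  c.any fun l => rowG l l fl e c lo hi ||
    (Nat.blt 0 fl && Nat.ble (c.headD 0) l && rowG (c.headD 0) l fl e c lo hi)

lemma rowOK_ok {fl e : ℕ} {c lo hi : List ℕ} (h : rowOK fl e c lo hi = true)
    {A : ℕ → ℝ} (hA : InB c.length lo hi A)
    (hs : ∑ n ∈ range c.length, A n = 1) (hf : (fl : ℝ) / SC ≤ A 0 + A 1) :
    ∑ n ∈ range c.length, (c.getD n 0 : ℝ) * A n ≤ (e : ℝ) / SC := by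
  simp only [rowOK, List.any_eq_true, Bool.or_eq_true, Bool.and_eq_true, Nat.ble_eq] at h
  obtain ⟨l, -, h | h⟩ := h
  · exact rowG_ok h le_rfl hA hs hf
  · exact rowG_ok h.2 h.1.2 hA hs hf

/-- the library, in chunks of `64` -/
abbrev Lib : Type := List (List PE)

def LibOK (tn : ℕ) (L : Lib) : Prop := ∀ l ∈ L, ∀ x ∈ l, x.Good tn

def Lib.get (L : Lib) (i : ℕ) : Option PE := (L.getD (i / 64) [])[i % 64]?

lemma Lib.get_ok {tn : ℕ} {L : Lib} (h : LibOK tn L) {i : ℕ} {x : PE} (hx : L.get i = some x) :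
    Good x.k tn x.e x.P x.R := by
  have h1 := List.mem_of_getElem? hx
  rw [List.getD_eq_getElem?_getD] at h1
  cases h2 : L[i / 64]? with
  | none => rw [h2] at h1; simp at h1
  | some l => rw [h2] at h1; exact h l (List.mem_of_getElem? h2) x h1

lemma libOK_nil (tn : ℕ) : LibOK tn [] := by simp [LibOK]

lemma LibOK.cons {tn : ℕ} {l : List PE} {L : Lib} (h : ∀ x ∈ l, x.Good tn)
    (hL : LibOK tn L) : LibOK tn (l :: L) := List.forall_mem_cons.2 ⟨h, hL⟩

/-- coefficients on the abstract slots -/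
def cf (g c : List ℕ) : List ℕ := g.map fun i => c.getD i 0

lemma cf_getD (g c : List ℕ) {n : ℕ} (hn : n < g.length) :
    (cf g c).getD n 0 = c.getD (g.getD n 0) 0 := by
  simp [cf, List.getD_eq_getElem?_getD, List.getElem?_eq_getElem hn]

lemma all_lt {g : List ℕ} {k : ℕ} (h : (g.all fun i => Nat.blt i k) = true) {n : ℕ}
    (hn : n < g.length) : g.getD n 0 < k := by
  simp only [List.all_eq_true, Nat.blt_eq] at h
  rw [List.getD_eq_getElem _ _ hn]
  exact h _ (List.getElem_mem hn)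

/-- type II test: polytope `id`, grouping `g` of the abstract slots -/
def in2 (L : Lib) (id : ℕ) (g lo hi : List ℕ) (fl : ℕ) : Bool :=
  match L.get id with
  | none => false
  | some x => Nat.beq x.e 1 && (g.all fun i => Nat.blt i x.k) &&
      (x.P.all fun y => rowOK fl y.2 (cf g y.1) lo hi) &&
      x.R.all fun y => Nat.ble y.2 SC && (cf g y.1).all fun c => Nat.ble 1 c

theorem in2_ok {tn : ℕ} {L : Lib} (hL : LibOK tn L) {id fl : ℕ} {g lo hi : List ℕ}
    (h : in2 L id g lo hi fl = true) {ι : Type} [Fintype ι] (w : ι → ℝ) (G : ι → ℕ)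
    (hG : ∀ j, G j < g.length) (hw : ∀ j, 0 ≤ w j) (hA : InB g.length lo hi (asum G w))
    (hs : ∑ j, w j = 1) (hf : (fl : ℝ) / SC ≤ asum G w 0 + asum G w 1) :
    S.Eval ((tn : ℝ) / SC) (1 / 10000) 64 w (1 / 2) := by
  unfold in2 at h
  split at h
  · simp at h
  rename_i x hx
  simp only [Bool.and_eq_true, Nat.beq_eq] at h
  obtain ⟨⟨⟨h1, h2⟩, h3⟩, h4⟩ := h
  have := (Lib.get_ok hL hx).gen w (fun j => g.getD (G j) 0) (fun j => all_lt h2 (hG j)) hw
    (fun y hy => by
      have hlen : (cf g y.1).length = g.length := by simp [cf]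
      have := rowOK_ok (List.all_eq_true.1 h3 y hy) (A := asum G w) (by rwa [hlen])
        (by
          have := sum_asum hG w fun _ => 1
          simp only [one_mul] at this
          rw [hlen, this, hs]) hf
      rw [hlen, sum_asum hG w fun n => ((cf g y.1).getD n 0 : ℝ)] at this
      simpa only [cf_getD g y.1 (hG _)] using this)
    fun y hy => by
      have hlen : (cf g y.1).length = g.length := by simp [cf]
      have hr := List.all_eq_true.1 h4 y hy
      simp only [Bool.and_eq_true, Nat.ble_eq, List.all_eq_true] at hr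
      have r1 : (y.2 : ℝ) / SC ≤ 1 := (div_le_one SC_pos).2 (by exact_mod_cast hr.1)
      refine r1.trans (hs.symm.le.trans (sum_le_sum fun j _ => le_mul_of_one_le_left (hw j) ?_))
      rw [← cf_getD g y.1 (hG j), List.getD_eq_getElem _ _ (hlen ▸ hG j)]
      exact_mod_cast hr.2 _ (List.getElem_mem _)
  rw [h1] at this
  simpa using this

/-- value of a row at the upper corner: `c0` is the coefficient of the smooth factor -/
def val1 (tn c0 : ℕ) (c hi : List ℕ) : ℕ := c0 * (tn + hi.sum - SC) + pos 0 c [] hi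

lemma sum_getD (l : List ℕ) : l.sum = ∑ n ∈ range l.length, l.getD n 0 := by
  induction l with
  | nil => simp
  | cons a l ih => simp [sum_range_succ', ih, add_comm]

/-- type I test: `g0` is the group of the smooth factor -/
def in1 (L : Lib) (tn id g0 : ℕ) (g hi : List ℕ) : Bool :=
  match L.get id with
  | none => false
  | some x => Nat.beq x.e 0 && Nat.blt g0 x.k && (g.all fun i => Nat.blt i x.k) &&
      Nat.beq hi.length g.length && Nat.ble hi.sum 900000 &&
      (x.P.all fun y => Nat.ble (val1 tn (y.1.getD g0 0) (cf g y.1) hi) y.2) &&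
      x.R.all fun y => Nat.ble y.2 (val1 tn (y.1.getD g0 0) (cf g y.1) hi)

theorem in1_ok {tn : ℕ} {L : Lib} (hL : LibOK tn L) {id g0 : ℕ} {g hi : List ℕ}
    (h : in1 L tn id g0 g hi = true) {ι : Type} [Fintype ι] (a : ι → ℝ) (b : ℝ) (G : ι → ℕ)
    (hG : ∀ j, G j < g.length)
    (hA : ∀ n < g.length, asum G a n ≤ (hi.getD n 0 : ℝ) / SC) (hs : ∑ j, a j + b = 1) :
    E1pt ((tn : ℝ) / SC) (1 / 10000) 64 a b := by
  unfold in1 at h
  split at h
  · simp at h
  rename_i x hx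
  simp only [Bool.and_eq_true, Nat.beq_eq, Nat.blt_eq, Nat.ble_eq] at h
  obtain ⟨⟨⟨⟨⟨⟨h1, h0⟩, h2⟩, h4⟩, h5⟩, h3⟩, h6⟩ := h
  have tot : (∑ j, a j) * SC ≤ (hi.sum : ℝ) := by
    have := sum_asum hG a fun _ => 1
    simp only [one_mul] at this
    rw [← this, sum_getD, h4, Nat.cast_sum, sum_mul]
    exact sum_le_sum fun n hn => (le_div_iff₀ SC_pos).1 (hA n (mem_range.1 hn))
  have h5' : (hi.sum : ℝ) ≤ 900000 := by exact_mod_cast h5
  have hSC : (SC : ℝ) = 1000000 := by norm_num [SC]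
  refine ⟨by rw [hSC] at tot; linarith, ?_⟩
  have key : ∀ c : List ℕ, ∑ o : Option (Fin g.length),
      (c.getD (o.elim g0 fun n => g.getD n 0) 0 : ℝ) *
        o.elim (((tn + hi.sum - SC : ℕ) : ℝ) / SC) (fun n => (hi.getD n 0 : ℝ) / SC) =
      (val1 tn (c.getD g0 0) (cf g c) hi : ℝ) / SC := fun c => by
    have hlen : (cf g c).length = g.length := by simp [cf]
    rw [Fintype.sum_option, val1, pos, sm_eq, hlen, Nat.cast_add, Nat.cast_sum, add_div, sum_div,
      ← Fin.sum_univ_eq_sum_range fun n =>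
        ((((cf g c).getD n 0 - 0) * hi.getD n 0 : ℕ) : ℝ) / SC]
    simp only [Option.elim_none, Option.elim_some, cf_getD g c (Fin.is_lt _), Nat.sub_zero,
      Nat.cast_mul, mul_div_assoc]
  have := (Lib.get_ok hL hx).gen (ι := Option (Fin g.length))
    (fun o => o.elim (((tn + hi.sum - SC : ℕ) : ℝ) / SC) fun n => (hi.getD n 0 : ℝ) / SC)
    (fun o => o.elim g0 fun n => g.getD n 0)
    (fun o => by
      cases o with
      | none => exact h0
      | some j => exact all_lt h2 j.2)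
    (fun o => by
      cases o with
      | none => exact div_nonneg (Nat.cast_nonneg _) SC_pos.le
      | some j => exact div_nonneg (Nat.cast_nonneg _) SC_pos.le)
    (fun y hy => by
      rw [key]
      exact div_le_div_of_nonneg_right
        (by exact_mod_cast Nat.le_of_ble_eq_true (List.all_eq_true.1 h3 y hy)) SC_pos.le)
    (fun y hy => by
      rw [key]
      exact div_le_div_of_nonneg_right
        (by exact_mod_cast Nat.le_of_ble_eq_true (List.all_eq_true.1 h6 y hy)) SC_pos.le)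
  rw [h1] at this
  simp only [Nat.cast_zero, zero_div, sub_zero] at this
  refine this.group (Option.map fun j => (⟨G j, hG j⟩ : Fin g.length)) fun o => ?_
  rw [sum_filter, Fintype.sum_option]
  cases o with
  | none =>
    have m0 : (tn : ℝ) + hi.sum - SC ≤ ((tn + hi.sum - SC : ℕ) : ℝ) := by
      have : tn + hi.sum ≤ (tn + hi.sum - SC) + SC := by omega
      have : (tn : ℝ) + hi.sum ≤ ((tn + hi.sum - SC : ℕ) : ℝ) + SC := by exact_mod_cast this
      linarith
    have m1 : av ((tn : ℝ) / SC) b ≤ ((tn + hi.sum - SC : ℕ) : ℝ) / SC := by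
      refine max_le (div_nonneg (Nat.cast_nonneg _) SC_pos.le) ((min_le_right _ _).trans ?_)
      rw [hSC] at tot m0 ⊢
      linarith
    simp only [Option.map_none, if_true, Option.elim_none, Option.map_some, reduceCtorEq,
      if_false, sum_const_zero, add_zero]
    exact m1
  | some n =>
    have := hA n n.2
    rw [asum, sum_filter] at this
    simp only [Option.map_none, Option.elim_some, Option.map_some, reduceCtorEq,
      if_false, zero_add, Option.some.injEq, Fin.ext_iff]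
    exact this

/-- three slots of size at least `1/100` -/
def big3 (M : ℕ) (lo hi : List ℕ) : Bool :=
  Nat.beq hi.length M && Nat.ble 3 ((List.range M).filter fun n =>
    Nat.ble 10000 (lo.getD n 0) || Nat.ble (hi.sum + 10000) (SC + hi.getD n 0)).length

lemma big3_ok {M : ℕ} {lo hi : List ℕ} (h : big3 M lo hi = true) {A : ℕ → ℝ} (hA : InB M lo hi A)
    (hs : ∑ n ∈ range M, A n = 1) (i : ℕ) :
    ∃ j k, j ≠ i ∧ k ≠ i ∧ j ≠ k ∧ 1 / 100 ≤ A j ∧ 1 / 100 ≤ A k := by
  simp only [big3, Bool.and_eq_true, Nat.beq_eq, Nat.ble_eq] at h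
  obtain ⟨h1, h2⟩ := h
  set l := (List.range M).filter fun n =>
    Nat.ble 10000 (lo.getD n 0) || Nat.ble (hi.sum + 10000) (SC + hi.getD n 0) with hl
  have hnd : l.Nodup := List.nodup_range.filter _
  have hSC : (SC : ℝ) = 1000000 := by norm_num [SC]
  have hm : ∀ n ∈ l.toFinset, 1 / 100 ≤ A n := by
    intro n hn
    simp only [hl, List.mem_toFinset, List.mem_filter, List.mem_range, Bool.or_eq_true,
      Nat.ble_eq] at hn
    obtain ⟨hn, h | h⟩ := hn
    · have h' : (10000 : ℝ) ≤ lo.getD n 0 := by exact_mod_cast h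
      have := (hA n hn).1
      rw [hSC] at this
      linarith
    · have h' : (hi.sum : ℝ) + 10000 ≤ SC + hi.getD n 0 := by exact_mod_cast h
      rw [sum_getD, h1, Nat.cast_sum, ← add_sum_erase _ _ (mem_range.2 hn)] at h'
      rw [← add_sum_erase _ _ (mem_range.2 hn)] at hs
      have : ∑ m ∈ (range M).erase n, A m ≤
          (∑ m ∈ (range M).erase n, (hi.getD m 0 : ℝ)) / SC := by
        rw [sum_div]
        exact sum_le_sum fun m hm => (hA m (mem_range.1 (mem_of_mem_erase hm))).2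
      rw [hSC] at this h'
      linarith
  have hc : 1 < (l.toFinset.erase i).card := by
    have := pred_card_le_card_erase (s := l.toFinset) (a := i)
    rw [List.toFinset_card_of_nodup hnd] at this
    omega
  obtain ⟨j, hj, k, hk, hjk⟩ := one_lt_card.1 hc
  exact ⟨j, k, ne_of_mem_erase hj, ne_of_mem_erase hk, hjk, hm j (mem_of_mem_erase hj),
    hm k (mem_of_mem_erase hk)⟩

/-- the point form of the type II test -/
theorem e2_ok {tn : ℕ} {L : Lib} (hL : LibOK tn L) {id fl : ℕ} {g lo hi : List ℕ}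
    (h : in2 L id g lo hi fl = true) (h3 : big3 g.length lo hi = true) {ι : Type} [Fintype ι]
    (w : ι → ℝ) (G : ι → ℕ) (hG : ∀ j, G j < g.length) (hw : ∀ j, 0 ≤ w j)
    (hA : InB g.length lo hi (asum G w)) (hs : ∑ j, w j = 1)
    (hf : (fl : ℝ) / SC ≤ asum G w 0 + asum G w 1) {η : ℝ} {K : ℕ} (hη : 0 < η)
    (hη1 : η ≤ 1 / 10000) (hη2 : (Fintype.card ι : ℝ) * η ≤ 1 / 100) (hK : 64 ≤ K)
    {pr : ι → Prop} (i : ι) (hi : pr i) (hi' : η ≤ w i) : E2pt ((tn : ℝ) / SC) η K pr w := by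
  have hs' : ∑ n ∈ range g.length, asum G w n = 1 := by
    have := sum_asum hG w fun _ => 1
    simp only [one_mul] at this
    rw [this, hs]
  obtain ⟨j, k, hj, hk, hjk, h1, h2⟩ := big3_ok h3 hA hs' (G i)
  haveI : Nonempty ι := ⟨i⟩
  obtain ⟨u, hu, hu'⟩ := exists_large _ hη (hη2.trans h1)
  obtain ⟨v, hv, hv'⟩ := exists_large _ hη (hη2.trans h2)
  have e1 := (mem_filter.1 hu).2
  have e2 := (mem_filter.1 hv).2
  exact ⟨⟨i, u, v, fun e => hj (e ▸ e1.symm), fun e => hk (e ▸ e2.symm),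
    fun e => hjk (e1 ▸ e ▸ e2), hi, hi', hu', hv'⟩,
    (in2_ok hL h w G hG hw hA hs hf).mono hK hη1 le_rfl⟩

/-- the blocks are bounded by the lists -/
def Bnd {r : ℕ} (B : Fin r → Blk) (lo hi : List ℕ) : Prop :=
  ∀ i : Fin r, (lo.getD i 0 = 0 ∨ (lo.getD i 0 : ℝ) / SC ≤ (B i).lo) ∧
    (SC ≤ hi.getD i 0 ∨ (B i).hi ≤ (hi.getD i 0 : ℝ) / SC)

lemma Bnd.le {r : ℕ} {B : Fin r → Blk} {lo hi : List ℕ} (h : Bnd B lo hi) {a : Fin r → ℝ}
    (ha : InBox B a) (hs : ∑ i, a i ≤ 1) (i : Fin r) :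
    (lo.getD i 0 : ℝ) / SC ≤ a i ∧ a i ≤ (hi.getD i 0 : ℝ) / SC := by
  obtain ⟨h1, h2⟩ := h i
  obtain ⟨g0, g1, g2⟩ := ha i
  constructor
  · rcases h1 with h1 | h1
    · rw [h1]; simpa using g0
    · exact h1.trans g1
  · rcases h2 with h2 | h2
    · have : a i ≤ ∑ i, a i := single_le_sum (fun j _ => (ha j).1) (mem_univ i)
      have h2' : (SC : ℝ) ≤ hi.getD i 0 := by exact_mod_cast h2
      rw [le_div_iff₀ SC_pos]
      nlinarith [SC_pos]
    · exact g2.trans h2

/-- type II leaf: `ip` is a prime block -/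
def reg2 (L : Lib) (id ip : ℕ) (g lo hi : List ℕ) : Bool :=
  in2 L id g lo hi 0 && big3 g.length lo hi && Nat.ble 10000 (lo.getD ip 0)

theorem reg2_ok {tn : ℕ} {L : Lib} (hL : LibOK tn L) {id ip : ℕ} {g lo hi : List ℕ}
    (h : reg2 L id ip g lo hi = true) {r : ℕ} (B : Fin r → Blk) (hr : g.length = r)
    (hB : Bnd B lo hi) (hip : ip < r) (hP : (B ⟨ip, hip⟩).IsP) : Reg2 ((tn : ℝ) / SC) B := by
  simp only [reg2, Bool.and_eq_true, Nat.ble_eq] at h
  obtain ⟨⟨h1, h2⟩, h3⟩ := h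
  have hr0 : (0 : ℝ) < r := by exact_mod_cast (by omega : 0 < r)
  have hr1 : (1 : ℝ) ≤ r := by exact_mod_cast (by omega : 1 ≤ r)
  have e1 : 1 / (10000 * (r : ℝ)) ≤ 1 / 10000 :=
    one_div_le_one_div_of_le (by norm_num) (by linarith)
  refine ⟨1 / (10000 * r), by positivity, 64, fun a ha hs => ?_⟩
  have as : ∀ i : Fin r, asum (fun i : Fin r => (i : ℕ)) a i = a i := fun i => by
    rw [asum, sum_eq_single_of_mem i (by simp) fun j hj hne =>
      (hne (Fin.ext (mem_filter.1 hj).2)).elim]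
  have hw : ∀ i, 0 ≤ a i := fun i => (ha i).1
  refine e2_ok hL h1 h2 a (fun i => (i : ℕ)) (fun j => hr ▸ j.2) hw (fun n hn => ?_) hs
    (by simpa using add_nonneg (asum_nonneg _ hw 0) (asum_nonneg _ hw 1)) (by positivity) e1
    ?_ le_rfl ⟨ip, hip⟩ hP ?_
  · have := hB.le ha hs.le ⟨n, hr ▸ hn⟩
    rwa [← as] at this
  · rw [Fintype.card_fin, mul_one_div, div_le_iff₀ (by positivity)]
    linarith
  · have := (hB.le ha hs.le ⟨ip, hip⟩).1
    have h3' : (10000 : ℝ) ≤ lo.getD ip 0 := by exact_mod_cast h3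
    have hSC : (SC : ℝ) = 1000000 := by norm_num [SC]
    rw [hSC] at this
    linarith

end Pool.Agent.MP_c853c5_nt.REG
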