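import Pool.Agent.MP_c853c5_nt.REG.UG
import Pool.Agent.MP_c853c5_nt.REG.In
import Pool.Agent.MP_c853c5_nt.DT.VChk

/-!
Tests at a corner for the mixed fourth moment, and boxes in the polytopes for dispersion.
-/

set_option autoImplicit false

open Finset

namespace Pool.Agent.MP_c853c5_nt.REG

open Pool.Agent.MP_c853c5_nt.S Pool.Agent.MP_c853c5_nt.R Pool.Agent.MP_c853c5_nt.Y

/-- multiplicity in the first product: the labels are `0` rest, `1` both, `2` second, `3` first -/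
def wk1 (c : ℕ) : ℕ := bif Nat.beq c 1 then 1 else bif Nat.beq c 3 then 2 else 0

def wk2 (c : ℕ) : ℕ := bif Nat.beq c 1 then 1 else bif Nat.beq c 2 then 2 else 0

def wk3 (c : ℕ) : ℕ :=
  bif Nat.beq c 1 then 0 else bif Nat.beq c 2 then 0 else bif Nat.beq c 3 then 0 else 1

lemma wk_sum (c : ℕ) : wk1 c + wk2 c + 2 * wk3 c = 2 := by
  rcases c with _ | _ | _ | _ | c <;> rfl

/-- weighted sum of the upper bounds -/
def wsm (f : ℕ → ℕ) (lab hi : List ℕ) : ℕ := sm (fun c _ h => f c * h) lab [] hi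

lemma wsm_le (f : ℕ → ℕ) {lab hi : List ℕ} {ι : Type} [Fintype ι] {a : ι → ℝ} {G : ι → ℕ}
    (hG : ∀ j, G j < lab.length)
    (hA : ∀ n < lab.length, asum G a n ≤ (hi.getD n 0 : ℝ) / SC) :
    ∑ j, (f (lab.getD (G j) 0) : ℝ) * a j ≤ (wsm f lab hi : ℝ) / SC := by
  rw [← sum_asum hG a fun n => (f (lab.getD n 0) : ℝ), wsm, sm_eq, Nat.cast_sum, sum_div]
  refine sum_le_sum fun n hn => ?_
  rw [Nat.cast_mul, mul_div_assoc]
  exact mul_le_mul_of_nonneg_left (hA n (mem_range.1 hn)) (Nat.cast_nonneg _)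

lemma max_W {tn n : ℕ} {x : ℝ} (h : x ≤ (n : ℝ) / SC) :
    max ((tn : ℝ) / SC) ((tn : ℝ) / SC / 2 + 2 * x) ≤
      ((max (2 * tn) (tn + 4 * n) : ℕ) : ℝ) / SC / 2 := by
  have h1 : (2 : ℝ) * tn ≤ (max (2 * tn) (tn + 4 * n) : ℕ) := by exact_mod_cast le_max_left _ _
  have h2 : (tn : ℝ) + 4 * n ≤ (max (2 * tn) (tn + 4 * n) : ℕ) := by
    exact_mod_cast le_max_right _ _
  have hSC : (SC : ℝ) = 1000000 := by norm_num [SC]
  rw [hSC] at h ⊢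
  exact max_le (by linarith) (by linarith)

lemma max_M {tn n : ℕ} {x : ℝ} (h : x ≤ (n : ℝ) / SC) :
    max ((tn : ℝ) / SC) x ≤ ((max tn n : ℕ) : ℝ) / SC := by
  rw [Nat.cast_max, ← max_div_div_right SC_pos.le]
  exact max_le_max le_rfl h

/-- the numbers for one smooth factor -/
def num1 (tn n1 n2 n3 : ℕ) : Bool :=
  Nat.ble (max (2 * tn) (tn + 4 * n1) + 2 * max tn n2 + 4 * max tn n3 + 800) (4 * SC)

/-- one smooth factor; `k1, k2, k3` are the multiplicities -/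
theorem num1_ok {tn n0 n1 n2 n3 : ℕ} (h : num1 tn n1 n2 n3 = true) (h0 : n0 ≤ 900000) {ι : Type}
    [Fintype ι] {a : ι → ℝ} {b : ℝ} {k1 k2 k3 : ι → ℕ} (hk : ∀ i, k1 i + k2 i + 2 * k3 i = 2)
    (e0 : ∑ j, a j ≤ (n0 : ℝ) / SC) (e1 : ∑ j, (k1 j : ℝ) * a j ≤ (n1 : ℝ) / SC)
    (e2 : ∑ j, (k2 j : ℝ) * a j ≤ (n2 : ℝ) / SC) (e3 : ∑ j, (k3 j : ℝ) * a j ≤ (n3 : ℝ) / SC)
    (hs : ∑ j, a j + b = 1) : E1ptW ((tn : ℝ) / SC) (1 / 10000) 64 a b := by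
  classical
  have m1 := max_W (tn := tn) e1
  have m2 := max_M (tn := tn) e2
  have m3 := max_M (tn := tn) e3
  have h' : ((max (2 * tn) (tn + 4 * n1) : ℕ) : ℝ) + 2 * (max tn n2 : ℕ) + 4 * (max tn n3 : ℕ) +
      800 ≤ 4 * SC := by exact_mod_cast Nat.le_of_ble_eq_true h
  have h0' : (n0 : ℝ) ≤ 900000 := by exact_mod_cast h0
  have hSC : (SC : ℝ) = 1000000 := by norm_num [SC]
  refine ⟨by rw [hSC] at e0; linarith, (evalW_uw (sm := fun o => o = none)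
    (x1 := E.av ((tn : ℝ) / SC) b) (x2 := 0) (c := a) (by norm_num) hk rfl
    (Or.inr le_rfl) ?_).group (Option.map some) (fun o => ?_)
    fun _ hi => ⟨none, rfl, fun j => by rw [hi, Option.map_eq_none_iff]⟩⟩
  · rw [mul_zero, zero_add]
    rw [hSC] at m1 m2 m3 h' ⊢
    linarith
  · rw [fib_W]
    rcases o with _ | _ | o <;> simp [sum_filter]

/-- type I test with the mixed fourth moment -/
def in1W (tn : ℕ) (lab hi : List ℕ) : Bool :=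
  Nat.ble (wsm (fun _ => 1) lab hi) 900000 &&
    num1 tn (wsm wk1 lab hi) (wsm wk2 lab hi) (wsm wk3 lab hi)

theorem in1W_ok {tn : ℕ} {lab hi : List ℕ} (h : in1W tn lab hi = true) {ι : Type} [Fintype ι]
    (a : ι → ℝ) (b : ℝ) (G : ι → ℕ) (hG : ∀ j, G j < lab.length)
    (hA : ∀ n < lab.length, asum G a n ≤ (hi.getD n 0 : ℝ) / SC) (hs : ∑ j, a j + b = 1) :
    E1ptW ((tn : ℝ) / SC) (1 / 10000) 64 a b := by
  simp only [in1W, Bool.and_eq_true, Nat.ble_eq] at h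
  exact num1_ok h.2 h.1 (fun _ => wk_sum _) (by simpa using wsm_le (fun _ => 1) hG hA)
    (wsm_le wk1 hG hA) (wsm_le wk2 hG hA) (wsm_le wk3 hG hA) hs

/-- the numbers for two smooth factors -/
def num2 (tn n1 n2 n3 : ℕ) : Bool :=
  Nat.ble (max (2 * tn) (tn + 4 * n1) + max (2 * tn) (tn + 4 * n2) + 4 * max tn n3 + 800) (4 * SC)

/-- the conclusion for two smooth factors -/
def TwoW {ι : Type} [Fintype ι] (τ η : ℝ) (K : ℕ) (c : ι → ℝ) (b1 b2 : ℝ) : Prop :=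
  E1ptW τ η K (fun o : Option ι => o.elim b2 c) b1 ∨
    E1ptW τ η K (fun o : Option ι => o.elim b1 c) b2 ∨ E12ptW τ η K c b1 b2

theorem num2_ok {tn n0 n1 n2 n3 : ℕ} (h13 : SC ≤ 3 * tn) (h : num2 tn n1 n2 n3 = true)
    (h0 : n0 < 800000) {ι : Type} [Fintype ι] {a : ι → ℝ} {b1 b2 : ℝ} {k1 k2 k3 : ι → ℕ}
    (hk : ∀ i, k1 i + k2 i + 2 * k3 i = 2)
    (e0 : ∑ j, a j ≤ (n0 : ℝ) / SC) (e1 : ∑ j, (k1 j : ℝ) * a j ≤ (n1 : ℝ) / SC)
    (e2 : ∑ j, (k2 j : ℝ) * a j ≤ (n2 : ℝ) / SC) (e3 : ∑ j, (k3 j : ℝ) * a j ≤ (n3 : ℝ) / SC)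
    (hs : ∑ j, a j + b1 + b2 = 1) : TwoW ((tn : ℝ) / SC) (1 / 10000) 64 a b1 b2 := by
  have m1 := max_W (tn := tn) e1
  have m2 := max_W (tn := tn) e2
  have m3 := max_M (tn := tn) e3
  have h' : ((max (2 * tn) (tn + 4 * n1) : ℕ) : ℝ) + (max (2 * tn) (tn + 4 * n2) : ℕ) +
      4 * (max tn n3 : ℕ) + 800 ≤ 4 * SC := by exact_mod_cast Nat.le_of_ble_eq_true h
  have h0' : (n0 : ℝ) < 800000 := by exact_mod_cast h0
  have h3 : (SC : ℝ) ≤ 3 * tn := by exact_mod_cast h13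
  have hSC : (SC : ℝ) = 1000000 := by norm_num [SC]
  have hτ : 1 / 3 ≤ (tn : ℝ) / SC := by
    rw [hSC] at h3 ⊢
    linarith
  have key : ∀ (sm : Option (Option ι) → Prop) (x1 x2 : ℝ) (l1 l2 : ι → ℕ),
      (∀ i, l1 i + l2 i + 2 * k3 i = 2) → sm none → (sm (some none) ∨ x2 ≤ 1 / 10) →
      max ((tn : ℝ) / SC) ((tn : ℝ) / SC / 2 + 2 * ∑ i, (l1 i : ℝ) * a i) +
        max ((tn : ℝ) / SC) ((tn : ℝ) / SC / 2 + 2 * ∑ i, (l2 i : ℝ) * a i) ≤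
          2 * (1 - 2 * (1 / 10000) - max ((tn : ℝ) / SC) (∑ i, (k3 i : ℝ) * a i)) →
      EvalW sm 64 ((tn : ℝ) / SC) (1 / 2 - 1 / 10000)
        fun o => o.elim x1 fun o' => o'.elim x2 a := by
    intro sm x1 x2 l1 l2 hl p1 p2 p3
    exact evalW_uw (by norm_num) hl p1
      (p2.imp (fun h => ⟨h, le_rfl⟩) fun h => small_UW hτ h) (by linarith)
  have w0 : max ((tn : ℝ) / SC) ((tn : ℝ) / SC / 2 + 2 * ∑ i, (k1 i : ℝ) * a i) +
      max ((tn : ℝ) / SC) ((tn : ℝ) / SC / 2 + 2 * ∑ i, (k2 i : ℝ) * a i) ≤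
        2 * (1 - 2 * (1 / 10000) - max ((tn : ℝ) / SC) (∑ i, (k3 i : ℝ) * a i)) := by
    rw [hSC] at m1 m2 m3 h' ⊢
    linarith
  rcases le_total (1 / 10) b1 with d1 | d1 <;> rcases le_total (1 / 10) b2 with d2 | d2
  · exact Or.inr (Or.inr ⟨d1, d2, key _ _ _ k1 k2 hk (Or.inl rfl) (Or.inl (Or.inr rfl)) w0⟩)
  · exact Or.inl ⟨d1, key _ _ _ k1 k2 hk rfl (Or.inr d2) w0⟩
  · exact Or.inr (Or.inl ⟨d2, key _ _ _ k2 k1 (fun i => by have := hk i; omega) rfl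
      (Or.inr d1) (by linarith)⟩)
  · rw [hSC] at e0
    linarith

/-- test for two smooth factors of any sizes -/
def in12W (tn : ℕ) (lab hi : List ℕ) : Bool :=
  Nat.blt (wsm (fun _ => 1) lab hi) 800000 &&
    num2 tn (wsm wk1 lab hi) (wsm wk2 lab hi) (wsm wk3 lab hi)

theorem in12W_ok {tn : ℕ} (h13 : SC ≤ 3 * tn) {lab hi : List ℕ} (h : in12W tn lab hi = true)
    {ι : Type} [Fintype ι] (a : ι → ℝ) (b1 b2 : ℝ) (G : ι → ℕ) (hG : ∀ j, G j < lab.length)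
    (hA : ∀ n < lab.length, asum G a n ≤ (hi.getD n 0 : ℝ) / SC) (hs : ∑ j, a j + b1 + b2 = 1) :
    TwoW ((tn : ℝ) / SC) (1 / 10000) 64 a b1 b2 := by
  simp only [in12W, Bool.and_eq_true, Nat.blt_eq] at h
  exact num2_ok h13 h.2 h.1 (fun _ => wk_sum _) (by simpa using wsm_le (fun _ => 1) hG hA)
    (wsm_le wk1 hG hA) (wsm_le wk2 hG hA) (wsm_le wk3 hG hA) hs

lemma TwoW.alt {Z : Sys} {ι : Type} [Fintype ι] {τ η η' : ℝ} {K : ℕ} {pr : ι → Prop} {c : ι → ℝ}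
    {b1 b2 : ℝ} (h : TwoW τ η K c b1 b2) : Alt4G (sysW.or2 Z) τ η η' K pr c b1 b2 := Or.inr h

/-- the box lies in the polytope `P`; the abstract slot `n` is the prime -/
def in3 (k : ℕ) (P : Poly) (n : ℕ) (g lo hi : List ℕ) (fl : ℕ) : Bool :=
  (g.all fun i => Nat.blt i k) &&
    ((List.range g.length).all fun m => Nat.beq (g.getD m 0) 1 == Nat.beq m n) &&
    P.all fun y => rowOK fl y.2 (cf g y.1) lo hi

theorem in3_ok {tn k n fl : ℕ} {P : Poly} (hP : DT.Good3 tn k P) {g lo hi : List ℕ}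
    (h : in3 k P n g lo hi fl = true) {ι : Type} [Fintype ι] (w : ι → ℝ) (G : ι → ℕ) (i : ι)
    (hG : ∀ j, G j < g.length) (hi' : ∀ j, G j = n ↔ j = i) (hw : ∀ j, 0 ≤ w j)
    (hA : InB g.length lo hi (asum G w)) (hs : ∑ j, w j = 1)
    (hf : (fl : ℝ) / SC ≤ asum G w 0 + asum G w 1) :
    ∃ A : Finset ι, i ∉ A ∧ DT.T3 ((tn : ℝ) / SC) (1 / 10000) 64 w A i := by
  simp only [in3, Bool.and_eq_true] at h
  obtain ⟨⟨h1, h2⟩, h3⟩ := h
  have e : ∀ j, g.getD (G j) 0 = 1 ↔ j = i := fun j => by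
    have := List.all_eq_true.1 h2 (G j) (List.mem_range.2 (hG j))
    rw [← hi' j, ← Nat.beq_eq, ← Nat.beq_eq (x := G j), beq_iff_eq.1 this]
  refine ⟨_, ?_, hP ι w (fun j => g.getD (G j) 0) i (fun j => all_lt h1 (hG j)) hw hs e
    fun y hy => ?_⟩
  · rw [mem_filter, (e i).2 rfl]
    simp
  · have hlen : (cf g y.1).length = g.length := by simp [cf]
    have := rowOK_ok (List.all_eq_true.1 h3 y hy) (A := asum G w) (by rwa [hlen])
      (by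
        have := sum_asum hG w fun _ => 1
        simp only [one_mul] at this
        rw [hlen, this, hs]) hf
    rw [hlen, sum_asum hG w fun n => ((cf g y.1).getD n 0 : ℝ)] at this
    simpa only [cf_getD g y.1 (hG _)] using this

theorem in3_q2 {tn k n fl : ℕ} {P : Poly} (h13 : SC ≤ 3 * tn) (hP : DT.Good3 tn k P)
    {g lo hi : List ℕ} (h : in3 k P n g lo hi fl = true) {ι : Type} [Fintype ι] (w : ι → ℝ)
    (G : ι → ℕ) (i : ι) (hG : ∀ j, G j < g.length) (hi' : ∀ j, G j = n ↔ j = i)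
    (hw : ∀ j, 0 ≤ w j) (hA : InB g.length lo hi (asum G w)) (hs : ∑ j, w j = 1)
    (hf : (fl : ℝ) / SC ≤ asum G w 0 + asum G w 1) {pr : ι → Prop} {c N : ℝ} (hp : pr i)
    (hc0 : 0 < c) (hc : c ≤ w i) (hN : (Fintype.card ι : ℝ) ≤ N) :
    DT.sysD.q2 ((tn : ℝ) / SC) (DT.eta3 (1 / 10000) c N 64) 64 pr w := by
  obtain ⟨A, h1, h2⟩ := in3_ok hP h w G i hG hi' hw hA hs hf
  have h3 : (SC : ℝ) ≤ 3 * tn := by exact_mod_cast h13
  exact h2.q2 (by norm_num) ((le_div_iff₀ SC_pos).2 (by linarith)) hw hs h1 hp hc0 hc hN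

end Pool.Agent.MP_c853c5_nt.REG
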