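import Pool.Agent.MP_c853c5_nt.REG.DDec
import Pool.Agent.MP_c853c5_nt.REG.Fast

/-!
Compact codes for polytopes and their certificates.
-/

set_option autoImplicit false

namespace Pool.Agent.MP_c853c5_nt.REG

noncomputable def rdC {α : Type} (n : ℕ) : ℕ → (List ℕ → ℕ → α) → α :=
  Nat.rec (motive := fun _ => ℕ → (List ℕ → ℕ → α) → α) (fun s K => K [] s)
    (fun _ ih s K => rd 11 s fun v r => ih r fun l r' => K (v :: l) r') n

noncomputable def rdP {α : Type} (k n : ℕ) : ℕ → (Poly → ℕ → α) → α :=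
  Nat.rec (motive := fun _ => ℕ → (Poly → ℕ → α) → α) (fun s K => K [] s)
    (fun _ ih s K => rdC k s fun c r => rd 32 r fun e r => ih r fun l r' => K ((c, e) :: l) r') n

noncomputable def peOf (s : ℕ) : PE :=
  rd 3 s fun k r => rd 1 r fun e r => rd 6 r fun n r => rd 6 r fun m r =>
    rdP k n r fun P r => rdP k m r fun R _ => ⟨k, e, P, R⟩

/-- a number with its length -/
noncomputable def rv {α : Type} (s : ℕ) (f : ℕ → ℕ → α) : α := rd 11 s fun n r => rd n r f

noncomputable def decC (fuel : ℕ) : ℕ → (CT → ℕ → CT) → CT :=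
  Nat.rec (motive := fun _ => ℕ → (CT → ℕ → CT) → CT) (fun s K => K (.lf 0 0 0 0 0) s)
    (fun _ ih s0 K => rd 3 s0 fun tag s =>
      cb (Nat.beq tag 0)
        (rd 6 s fun w r => rd 6 r fun w' r => rv r fun a r => rv r fun b r => rv r fun c r =>
          frc (Nat.shiftLeft 1 w) fun W => frc (Nat.shiftLeft 1 w') fun W' => K (.lf W W' a b c) r)
        (rd 36 s fun κ r => ih r fun c1 r => ih r fun c2 r =>
          cb (Nat.blt tag 3) (cb (Nat.beq tag 1) (K (.mv κ c1 c2) r) (K (.hx κ c1 c2) r))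
            (ih r fun c3 r => cb (Nat.beq tag 3) (K (.gm κ c1 c2 c3) r)
              (cb (Nat.beq tag 4) (K (.rf κ c1 c2 c3) r) (K (.sq κ c1 c2 c3) r))))) fuel

/-- all polytopes of a table against the codes of their certificates -/
noncomputable def tbE (tn : ℕ) (T : TB PE) : List ℕ → (List ℕ → Bool) → Bool :=
  TB.rec (motive := fun _ => List ℕ → (List ℕ → Bool) → Bool)
    (fun x l K => List.rec (motive := fun _ => Bool) false
      (fun s r _ => an (chkE tn x (decC 100 s fun c _ => c)) (K r)) l)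
    (fun _ _ _ il ir s K => il s fun r => ir r K) T

lemma tbE_aux {tn : ℕ} (T : TB PE) : ∀ s K, tbE tn T s K = true →
    T.All (PE.Good tn) ∧ ∃ r, K r = true := by
  induction T with
  | lf x =>
    intro l K h
    cases l with
    | nil => exact absurd h Bool.false_ne_true
    | cons s r => exact ⟨chkE_ok (an_iff.1 h).1, r, (an_iff.1 h).2⟩
  | nd n l r il ir =>
    intro s K h
    obtain ⟨h1, u, h2⟩ := il s _ h
    exact ⟨⟨h1, (ir u K h2).1⟩, (ir u K h2).2⟩

theorem tbE_ok {tn : ℕ} (T : TB PE) (s : List ℕ) (h : tbE tn T s (fun _ => true) = true) :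
    T.All (PE.Good tn) := (tbE_aux T s _ h).1

end Pool.Agent.MP_c853c5_nt.REG
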